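import Mathlib

/-!
# Exact EFX partial allocations: definitions

`N` is the set of the agents, `M` the set of the goods, `v i g ≥ 0` the value of the good `g` for the
agent `i`; values of bundles are additive.
-/

set_option autoImplicit false

namespace Pool.Agent.Lib.MP_358b54_lc

open Finset

variable {N M : Type} [Fintype N] [DecidableEq N] [Fintype M] [DecidableEq M]

/-- The value of the bundle `S` for the agent `i`. -/
def val (v : N → M → ℝ) (i : N) (S : Finset M) : ℝ := ∑ g ∈ S, v i g

/-- `A` is a partial allocation: the bundles are pairwise disjoint. -/
def IsPartial (A : N → Finset M) : Prop := ∀ i j, i ≠ j → Disjoint (A i) (A j)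

/-- `A` is (exactly) EFX: no agent `i` prefers `A j` without one of its goods to her own bundle. -/
def IsEFX (v : N → M → ℝ) (A : N → Finset M) : Prop :=
  ∀ i j, ∀ g ∈ A j, val v i ((A j).erase g) ≤ val v i (A i)

/-- The goods which `A` leaves unallocated. -/
def pool (A : N → Finset M) : Finset M := univ \ univ.biUnion A

/-- The different valuations among the `v i` which value `h` more than some other good. -/
noncomputable def rel (v : N → M → ℝ) (h : M) : Finset (M → ℝ) := by
  classical
  exact (univ.image v).filter fun w => ∃ h', w h' < w h

/-- The number of the different valuations of the agents in `K`. -/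
noncomputable def types (v : N → M → ℝ) (K : Finset N) : ℕ := by
  classical
  exact (K.image v).card

/-- The goods which the agent `i` values more than some other good. -/
noncomputable def above (v : N → M → ℝ) (i : N) : Finset M := by
  classical
  exact univ.filter fun g => ∃ h, v i h < v i g

end Pool.Agent.Lib.MP_358b54_lc
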