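import Mathlib
import Pool.Agent.Lib.MP_358b54_lc.Defs

/-!
# The barrier instance: definitions and value formulas

`3 q` agents in a ring of `q` triples `u k`, `w k`, `c k` and one further agent (`none`).
Integer values; `B = 1000 q + 1`.
-/

set_option autoImplicit false

namespace Pool.Agent.Lib.MP_358b54_lc.Barrier

open Finset

/-- The kinds of the goods of the ring. -/
inductive Kind
  | U | W | X | t | r | s
  deriving DecidableEq

instance : Fintype Kind := ⟨{.U, .W, .X, .t, .r, .s}, fun a => by cases a <;> decide⟩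

/-- The roles of the agents of the ring. -/
inductive Role
  | u | w | c
  deriving DecidableEq

instance : Fintype Role := ⟨{.u, .w, .c}, fun a => by cases a <;> decide⟩

/-- The goods: ring goods, `2 q - 1` equal goods, and two special goods. -/
abbrev Good (q : ℕ) := (Kind × ZMod q) ⊕ (Fin (2 * q - 1) ⊕ Bool)

/-- The agents. -/
abbrev Ag (q : ℕ) := Option (Role × ZMod q)

/-- Ring good. -/
abbrev G {q : ℕ} (a : Kind) (k : ZMod q) : Good q := Sum.inl (a, k)

/-- Pool good. -/
abbrev Pg {q : ℕ} (j : Fin (2 * q - 1)) : Good q := Sum.inr (Sum.inl j)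

/-- The big special good. -/
abbrev Xs {q : ℕ} : Good q := Sum.inr (Sum.inr true)

/-- The small special good. -/
abbrev xs {q : ℕ} : Good q := Sum.inr (Sum.inr false)

/-- Values of ring goods for ring agents. -/
def rv (q : ℕ) (a : Role) (b : Kind) (same pred : Prop) [Decidable same] [Decidable pred] : ℤ :=
  match a, b with
  | .u, .U => if same then 1000 * q - 21 else 0
  | .u, .X => if pred then 1000 * q + 2 else 0
  | .u, .t => if same then 22 else 0
  | .u, .r => if same then 60 else 0
  | .u, .s => if same then 60 else 0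
  | .u, .W => 0
  | .w, .W => if same then 1000 * q - 23 else 0
  | .w, .U => if same then 1000 * q - 17 else 0
  | .w, .r => if same then 12 else 0
  | .w, .s => if same then 12 else 0
  | .w, .X => 0
  | .w, .t => 0
  | .c, .X => if same then 1000 * q + 1 else 0
  | .c, .W => if same then 1000 * q - 17 else 0
  | .c, .U => 0
  | .c, .t => 0
  | .c, .r => 0
  | .c, .s => 0

/-- The small special good for the ring agents. -/
def sv (a : Role) : ℤ :=
  match a with
  | .u => 0
  | .w => 139
  | .c => 139

/-- The value of the good `g` for the agent `i`. -/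
def value (q : ℕ) : Ag q → Good q → ℤ
  | some (a, k), Sum.inl (b, j) => rv q a b (j = k) (j + 1 = k)
  | some _, Sum.inr (Sum.inl _) => 20
  | some _, Sum.inr (Sum.inr true) => 1000 * q + 1
  | some (a, _), Sum.inr (Sum.inr false) => sv a
  | none, Sum.inl _ => 0
  | none, Sum.inr (Sum.inl _) => 0
  | none, Sum.inr (Sum.inr _) => 1520 * q + 52

/-- Indicator. -/
def chi {q : ℕ} (S : Finset (Good q)) (g : Good q) : ℤ := if g ∈ S then 1 else 0

/-- Number of pool goods of a bundle. -/
def pc {q : ℕ} (S : Finset (Good q)) : ℤ := ∑ j, chi S (Pg j)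

/-- The value of a bundle. -/
def vz {q : ℕ} (i : Ag q) (S : Finset (Good q)) : ℤ := ∑ g ∈ S, value q i g

section basic

variable {q : ℕ}

theorem chi_nonneg (S : Finset (Good q)) (g : Good q) : 0 ≤ chi S g := by
  unfold chi
  split <;> norm_num

theorem chi_le (S : Finset (Good q)) (g : Good q) : chi S g ≤ 1 := by
  unfold chi
  split <;> norm_num

theorem chi_pos {S : Finset (Good q)} {g : Good q} (h : g ∈ S) : chi S g = 1 := by
  simp [chi, h]

theorem chi_neg {S : Finset (Good q)} {g : Good q} (h : g ∉ S) : chi S g = 0 := by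
  simp [chi, h]

theorem mem_of_chi {S : Finset (Good q)} {g : Good q} (h : 0 < chi S g) : g ∈ S := by
  by_contra h'
  rw [chi_neg h'] at h
  exact lt_irrefl _ h

theorem pc_nonneg (S : Finset (Good q)) : 0 ≤ pc S :=
  Finset.sum_nonneg fun _ _ => chi_nonneg _ _

theorem exists_pool {S : Finset (Good q)} (h : 1 ≤ pc S) : ∃ j, Pg j ∈ S := by
  by_contra h'
  push Not at h'
  have : pc S = 0 := Finset.sum_eq_zero fun j _ => chi_neg (h' j)
  omega

theorem pc_pos_of_mem {S : Finset (Good q)} {j : Fin (2 * q - 1)} (h : Pg j ∈ S) : 1 ≤ pc S := by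
  unfold pc
  rw [← chi_pos h]
  exact Finset.single_le_sum (f := fun j => chi S (Pg j)) (fun _ _ => chi_nonneg _ _)
    (Finset.mem_univ j)

theorem sum_kind (f : Kind → ℤ) :
    ∑ a, f a = f .U + f .W + f .X + f .t + f .r + f .s := by
  have : (univ : Finset Kind) = {.U, .W, .X, .t, .r, .s} := rfl
  rw [this]
  repeat rw [Finset.sum_insert (by decide)]
  rw [Finset.sum_singleton]
  ring

theorem sum_role (f : Role → ℤ) : ∑ a, f a = f .u + f .w + f .c := by
  have : (univ : Finset Role) = {.u, .w, .c} := rfl
  rw [this]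
  repeat rw [Finset.sum_insert (by decide)]
  rw [Finset.sum_singleton]
  ring

theorem value_nonneg (hq : 1 ≤ q) (i : Ag q) (g : Good q) : 0 ≤ value q i g := by
  have hq' : (1 : ℤ) ≤ q := by exact_mod_cast hq
  rcases i with _ | ⟨a, k⟩
  · rcases g with g | j | b
    · simp [value]
    · simp [value]
    · simp [value]; omega
  · rcases g with ⟨b, j⟩ | j | b
    · cases a <;> cases b <;> simp only [value, rv] <;> (try split_ifs) <;> omega
    · simp [value]
    · cases b
      · cases a <;> simp [value, sv]
      · simp [value]; omega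

variable [NeZero q]

theorem vz_eq (i : Ag q) (S : Finset (Good q)) :
    vz i S = (∑ k, chi S (G .U k) * value q i (G .U k)) + (∑ k, chi S (G .W k) * value q i (G .W k))
      + (∑ k, chi S (G .X k) * value q i (G .X k)) + (∑ k, chi S (G .t k) * value q i (G .t k))
      + (∑ k, chi S (G .r k) * value q i (G .r k)) + (∑ k, chi S (G .s k) * value q i (G .s k))
      + (∑ j, chi S (Pg j) * value q i (Pg j))
      + chi S Xs * value q i Xs + chi S xs * value q i xs := by
  have h1 : vz i S = ∑ g, chi S g * value q i g := by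
    unfold vz chi
    rw [← Finset.sum_filter_add_sum_filter_not univ (fun g => g ∈ S)]
    rw [Finset.sum_eq_zero (s := univ.filter fun g => ¬ g ∈ S)]
    · rw [add_zero]
      refine Finset.sum_congr ?_ fun g hg => ?_
      · ext g
        simp
      · rw [if_pos (Finset.mem_filter.1 hg).2, one_mul]
    · intro g hg
      simp [(Finset.mem_filter.1 hg).2]
  rw [h1, Fintype.sum_sum_type, Fintype.sum_sum_type, Fintype.sum_prod_type, sum_kind,
    Fintype.sum_bool]
  ring

theorem vz_u (k : ZMod q) (S : Finset (Good q)) :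
    vz (some (.u, k)) S = chi S (G .U k) * (1000 * q - 21) + chi S (G .X (k - 1)) * (1000 * q + 2)
      + 22 * chi S (G .t k) + 60 * chi S (G .r k) + 60 * chi S (G .s k) + 20 * pc S
      + chi S Xs * (1000 * q + 1) := by
  rw [vz_eq]
  have hX : ∑ j, chi S (G .X j) * value q (some (.u, k)) (G .X j)
      = chi S (G .X (k - 1)) * (1000 * q + 2) := by
    rw [Finset.sum_eq_single (k - 1)]
    · simp [value, rv]
    · intro j _ hj
      have : ¬ j + 1 = k := fun h => hj (by rw [← h]; ring)
      simp [value, rv, this]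
    · intro h
      exact absurd (Finset.mem_univ _) h
  rw [hX]
  simp only [value, rv, sv, mul_ite, mul_zero, Finset.sum_ite_eq',
    Finset.mem_univ, if_true, Finset.sum_const_zero, pc, Finset.mul_sum]
  have : ∑ j, chi S (Pg j) * 20 = ∑ j, 20 * chi S (Pg j) :=
    Finset.sum_congr rfl fun j _ => by ring
  rw [this]
  ring

theorem vz_w (k : ZMod q) (S : Finset (Good q)) :
    vz (some (.w, k)) S = chi S (G .W k) * (1000 * q - 23) + chi S (G .U k) * (1000 * q - 17)
      + 12 * chi S (G .r k) + 12 * chi S (G .s k) + 20 * pc S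
      + chi S Xs * (1000 * q + 1) + 139 * chi S xs := by
  rw [vz_eq]
  simp only [value, rv, sv, mul_ite, mul_zero, Finset.sum_ite_eq',
    Finset.mem_univ, if_true, Finset.sum_const_zero, pc, Finset.mul_sum]
  have : ∑ j, chi S (Pg j) * 20 = ∑ j, 20 * chi S (Pg j) :=
    Finset.sum_congr rfl fun j _ => by ring
  rw [this]
  ring

theorem vz_c (k : ZMod q) (S : Finset (Good q)) :
    vz (some (.c, k)) S = chi S (G .X k) * (1000 * q + 1) + chi S (G .W k) * (1000 * q - 17)
      + 20 * pc S + chi S Xs * (1000 * q + 1) + 139 * chi S xs := by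
  rw [vz_eq]
  simp only [value, rv, sv, mul_ite, mul_zero, Finset.sum_ite_eq',
    Finset.mem_univ, if_true, Finset.sum_const_zero, pc, Finset.mul_sum]
  have : ∑ j, chi S (Pg j) * 20 = ∑ j, 20 * chi S (Pg j) :=
    Finset.sum_congr rfl fun j _ => by ring
  rw [this]
  ring

theorem vz_none (S : Finset (Good q)) :
    vz none S = (chi S Xs + chi S xs) * (1520 * q + 52) := by
  rw [vz_eq]
  simp only [value, mul_zero, Finset.sum_const_zero]
  ring

omit [NeZero q] in
theorem vz_erase (i : Ag q) {S : Finset (Good q)} {g : Good q} (h : g ∈ S) :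
    vz i (S.erase g) = vz i S - value q i g := by
  unfold vz
  rw [Finset.sum_erase_eq_sub h]

end basic

end Pool.Agent.Lib.MP_358b54_lc.Barrier
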