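import Mathlib
import Pool.Agent.Lib.MP_358b54_lc.BarrierA

/-!
# The barrier instance: the ring

Every EFX allocation in which the last agent holds both special goods is the allocation `alloc`.
-/

set_option autoImplicit false

namespace Pool.Agent.Lib.MP_358b54_lc.Barrier

open Finset

/-- The allocation with `2 q - 1` unallocated goods. -/
def alloc (q : ℕ) : Ag q → Finset (Good q)
  | some (.u, k) => {G .U k, G .t k}
  | some (.w, k) => {G .W k, G .r k, G .s k}
  | some (.c, k) => {G .X k}
  | none => {Xs, xs}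

theorem cyc_down {q : ℕ} [NeZero q] (P : ZMod q → Prop) (h : ∀ k, P k → P (k - 1)) (k₀ : ZMod q)
    (h0 : P k₀) (k : ZMod q) : P k := by
  have h1 : ∀ n : ℕ, P (k₀ - n) := by
    intro n
    induction n with
    | zero => simpa using h0
    | succ n ih =>
      have := h _ ih
      have h2 : k₀ - (n : ZMod q) - 1 = k₀ - ((n + 1 : ℕ) : ZMod q) := by push_cast; ring
      rwa [h2] at this
  have h2 := h1 (k₀ - k).val
  rw [ZMod.natCast_zmod_val] at h2
  simpa using h2

theorem cyc_up {q : ℕ} [NeZero q] (P : ZMod q → Prop) (h : ∀ k, P k → P (k + 1)) (k₀ : ZMod q)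
    (h0 : P k₀) (k : ZMod q) : P k := by
  have h1 : ∀ n : ℕ, P (k₀ + n) := by
    intro n
    induction n with
    | zero => simpa using h0
    | succ n ih =>
      have := h _ ih
      have h2 : k₀ + (n : ZMod q) + 1 = k₀ + ((n + 1 : ℕ) : ZMod q) := by push_cast; ring
      rwa [h2] at this
  have h2 := h1 (k - k₀).val
  rw [ZMod.natCast_zmod_val] at h2
  simpa using h2

variable {q : ℕ} [NeZero q] {S : Ag q → Finset (Good q)}

omit [NeZero q] in
theorem pc_le (T : Finset (Good q)) : pc T ≤ ((2 * q - 1 : ℕ) : ℤ) := by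
  unfold pc
  calc ∑ j, chi T (Pg j) ≤ ∑ _j : Fin (2 * q - 1), (1 : ℤ) :=
        Finset.sum_le_sum fun j _ => chi_le _ _
    _ = _ := by simp

theorem sum_chi_le (hd : ∀ i j, i ≠ j → Disjoint (S i) (S j)) (g : Good q) :
    ∑ i, chi (S i) g ≤ 1 := by
  by_cases h : ∃ i, g ∈ S i
  · obtain ⟨i, hi⟩ := h
    rw [Finset.sum_eq_single i]
    · exact chi_le _ _
    · intro j _ hj
      exact chi_neg fun h => Finset.disjoint_left.1 (hd j i hj) h hi
    · intro h
      exact absurd (Finset.mem_univ _) h
  · push Not at h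
    rw [Finset.sum_eq_zero fun i _ => chi_neg (h i)]
    norm_num

theorem sum_pc_le (hd : ∀ i j, i ≠ j → Disjoint (S i) (S j)) :
    ∑ i, pc (S i) ≤ ((2 * q - 1 : ℕ) : ℤ) := by
  unfold pc
  rw [Finset.sum_comm]
  calc ∑ j, ∑ i, chi (S i) (Pg j) ≤ ∑ _j : Fin (2 * q - 1), (1 : ℤ) :=
        Finset.sum_le_sum fun j _ => sum_chi_le hd _
    _ = _ := by simp

theorem sum_ag (f : Ag q → ℤ) :
    ∑ i, f i = f none + ∑ k, (f (some (.u, k)) + f (some (.w, k)) + f (some (.c, k))) := by
  rw [Fintype.sum_option, Fintype.sum_prod_type, sum_role, Finset.sum_add_distrib,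
    Finset.sum_add_distrib]

/-- More than the available pool goods cannot be used. -/
theorem pool_contra (hd : ∀ i j, i ≠ j → Disjoint (S i) (S j))
    (h : ∀ k, 2 ≤ pc (S (some (.u, k))) + pc (S (some (.w, k))) + pc (S (some (.c, k)))) :
    False := by
  have h1 := sum_pc_le hd
  rw [sum_ag] at h1
  have h2 : (2 : ℤ) * q ≤ ∑ k : ZMod q, (pc (S (some (.u, k))) + pc (S (some (.w, k)))
      + pc (S (some (.c, k)))) := by
    calc (2 : ℤ) * q = ∑ _k : ZMod q, (2 : ℤ) := by
          simp [ZMod.card, mul_comm]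
      _ ≤ _ := Finset.sum_le_sum fun k _ => h k
  have h3 := pc_nonneg (S none)
  have h4 : 1 ≤ q := Nat.one_le_iff_ne_zero.2 (NeZero.ne q)
  omega

/-- The hypotheses on the allocation. -/
structure Hyp (S : Ag q → Finset (Good q)) : Prop where
  dis : ∀ i j, i ≠ j → Disjoint (S i) (S j)
  efx : ∀ i j, ∀ g ∈ S j, vz i ((S j).erase g) ≤ vz i (S i)
  big : Xs ∈ S none
  sma : xs ∈ S none

namespace Hyp

variable (H : Hyp S)
include H

omit [NeZero q] in
theorem not_mem {i j : Ag q} (hij : i ≠ j) {g : Good q} (h : g ∈ S i) : g ∉ S j :=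
  fun h' => Finset.disjoint_left.1 (H.dis i j hij) h h'

omit [NeZero q] in
theorem chi_zero {i j : Ag q} (hij : i ≠ j) {g : Good q} (h : g ∈ S i) : chi (S j) g = 0 :=
  chi_neg (H.not_mem hij h)

omit [NeZero q] in
theorem chiX (a : Role) (k : ZMod q) : chi (S (some (a, k))) Xs = 0 := H.chi_zero (by simp) H.big

omit [NeZero q] in
theorem chix (a : Role) (k : ZMod q) : chi (S (some (a, k))) xs = 0 := H.chi_zero (by simp) H.sma

omit H [NeZero q] in
theorem one_le (_ : NeZero q) : (1 : ℤ) ≤ q := by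
  exact_mod_cast Nat.one_le_iff_ne_zero.2 (NeZero.ne q)

theorem efx' (i : Ag q) {j : Ag q} {g : Good q} (hg : g ∈ S j) :
    vz i (S j) - value q i g ≤ vz i (S i) := by
  rw [← vz_erase i hg]
  exact H.efx i j g hg

theorem base (a : Role) (k : ZMod q) :
    1000 * q + 1 + 20 * pc (S none) ≤ vz (some (a, k)) (S (some (a, k))) := by
  have h := H.efx' (some (a, k)) H.sma
  have hq := one_le (q := q) inferInstance
  have hnn : ∀ g, 0 ≤ chi (S none) g := fun g => chi_nonneg _ _
  cases a
  · rw [vz_u, chi_pos H.big] at h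
    have h1 := mul_nonneg (hnn (G .U k)) (show (0 : ℤ) ≤ 1000 * q - 21 by omega)
    have h2 := mul_nonneg (hnn (G .X (k - 1))) (show (0 : ℤ) ≤ 1000 * q + 2 by omega)
    have h3 := hnn (G .t k)
    have h4 := hnn (G .r k)
    have h5 := hnn (G .s k)
    simp only [value, sv] at h
    linarith
  · rw [vz_w, chi_pos H.big, chi_pos H.sma] at h
    have h1 := mul_nonneg (hnn (G .W k)) (show (0 : ℤ) ≤ 1000 * q - 23 by omega)
    have h2 := mul_nonneg (hnn (G .U k)) (show (0 : ℤ) ≤ 1000 * q - 17 by omega)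
    have h4 := hnn (G .r k)
    have h5 := hnn (G .s k)
    simp only [value, sv] at h
    linarith
  · rw [vz_c, chi_pos H.big, chi_pos H.sma] at h
    have h1 := mul_nonneg (hnn (G .X k)) (show (0 : ℤ) ≤ 1000 * q + 1 by omega)
    have h2 := mul_nonneg (hnn (G .W k)) (show (0 : ℤ) ≤ 1000 * q - 17 by omega)
    simp only [value, sv] at h
    linarith

theorem base0 (a : Role) (k : ZMod q) :
    1000 * q + 1 ≤ vz (some (a, k)) (S (some (a, k))) := by
  have h := H.base a k
  have h1 := pc_nonneg (S none)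
  linarith

theorem pc_le' (i : Ag q) : pc (S i) ≤ 2 * q - 1 := by
  have h1 := pc_le (S i)
  have h4 : 1 ≤ q := Nat.one_le_iff_ne_zero.2 (NeZero.ne q)
  omega

theorem bigU (k : ZMod q) : G .U k ∈ S (some (.u, k)) ∨ G .X (k - 1) ∈ S (some (.u, k)) := by
  by_contra h
  push Not at h
  have h1 := H.base0 .u k
  rw [vz_u, chi_neg h.1, chi_neg h.2, H.chiX] at h1
  have h2 := H.pc_le' (some (.u, k))
  have h3 := chi_le (S (some (.u, k))) (G .t k)
  have h4 := chi_le (S (some (.u, k))) (G .r k)
  have h5 := chi_le (S (some (.u, k))) (G .s k)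
  have hq := one_le (q := q) inferInstance
  linarith

theorem bigW (k : ZMod q) : G .W k ∈ S (some (.w, k)) ∨ G .U k ∈ S (some (.w, k)) := by
  by_contra h
  push Not at h
  have h1 := H.base0 .w k
  rw [vz_w, chi_neg h.1, chi_neg h.2, H.chiX, H.chix] at h1
  have h2 := H.pc_le' (some (.w, k))
  have h4 := chi_le (S (some (.w, k))) (G .r k)
  have h5 := chi_le (S (some (.w, k))) (G .s k)
  have hq := one_le (q := q) inferInstance
  linarith

theorem bigC (k : ZMod q) : G .X k ∈ S (some (.c, k)) ∨ G .W k ∈ S (some (.c, k)) := by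
  by_contra h
  push Not at h
  have h1 := H.base0 .c k
  rw [vz_c, chi_neg h.1, chi_neg h.2, H.chiX, H.chix] at h1
  have h2 := H.pc_le' (some (.c, k))
  have hq := one_le (q := q) inferInstance
  linarith

/-- If one `w` has moved then so has the previous one. -/
theorem move_pred (k : ZMod q) (h : G .U k ∈ S (some (.w, k))) :
    G .U (k - 1) ∈ S (some (.w, k - 1)) := by
  have h1 : G .U k ∉ S (some (.u, k)) := H.not_mem (by simp) h
  have h2 := (H.bigU k).resolve_left h1
  have h3 : G .X (k - 1) ∉ S (some (.c, k - 1)) := H.not_mem (by simp) h2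
  have h4 := (H.bigC (k - 1)).resolve_left h3
  have h5 : G .W (k - 1) ∉ S (some (.w, k - 1)) := H.not_mem (by simp) h4
  exact (H.bigW (k - 1)).resolve_left h5

theorem not_move (k₀ : ZMod q) : G .U k₀ ∉ S (some (.w, k₀)) := by
  intro h0
  have hm : ∀ k, G .U k ∈ S (some (.w, k)) :=
    cyc_down (fun k => G .U k ∈ S (some (.w, k))) (fun k hk => H.move_pred k hk) k₀ h0
  have hu : ∀ k, G .U k ∉ S (some (.u, k)) := fun k => H.not_mem (by simp) (hm k)
  have hx : ∀ k, G .X (k - 1) ∈ S (some (.u, k)) := fun k => (H.bigU k).resolve_left (hu k)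
  have hx' : ∀ k, G .X k ∉ S (some (.c, k)) := by
    intro k
    have := hx (k + 1)
    rw [add_sub_cancel_right] at this
    exact H.not_mem (by simp) this
  have hw : ∀ k, G .W k ∈ S (some (.c, k)) := fun k => (H.bigC k).resolve_left (hx' k)
  refine pool_contra H.dis fun k => ?_
  have hc := H.base0 .c k
  rw [vz_c, chi_neg (hx' k), chi_pos (hw k), H.chiX, H.chix] at hc
  have hpc : 1 ≤ pc (S (some (.c, k))) := by omega
  by_cases hpw : 1 ≤ pc (S (some (.w, k)))
  · have := pc_nonneg (S (some (.u, k)))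
    omega
  have hpw0 : pc (S (some (.w, k))) = 0 := by
    have := pc_nonneg (S (some (.w, k)))
    omega
  have hW : G .W k ∉ S (some (.w, k)) := H.not_mem (by simp) (hw k)
  have h1 := H.base0 .w k
  rw [vz_w, chi_neg hW, chi_pos (hm k), H.chiX, H.chix, hpw0] at h1
  have hr1 := chi_le (S (some (.w, k))) (G .r k)
  have hs1 := chi_le (S (some (.w, k))) (G .s k)
  have hr : G .r k ∈ S (some (.w, k)) := mem_of_chi (by omega)
  have hs : G .s k ∈ S (some (.w, k)) := mem_of_chi (by omega)
  have h2 := H.efx' (some (.u, k)) hr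
  rw [vz_u, vz_u, chi_pos (hm k), chi_pos hr, chi_pos hs, H.chiX, H.chiX, chi_neg (hu k),
    chi_pos (hx k), H.chi_zero (by simp) hr, H.chi_zero (by simp) hs, hpw0,
    H.chi_zero (j := some (.w, k)) (by simp) (hx k)] at h2
  simp only [value, rv, if_true] at h2
  have ht := chi_nonneg (S (some (.w, k))) (G .t k)
  have ht' := chi_le (S (some (.u, k))) (G .t k)
  have := pc_nonneg (S (some (.w, k)))
  omega

theorem stayW (k : ZMod q) : G .W k ∈ S (some (.w, k)) := (H.bigW k).resolve_right (H.not_move k)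

theorem stayC (k : ZMod q) : G .X k ∈ S (some (.c, k)) :=
  (H.bigC k).resolve_right (H.not_mem (by simp) (H.stayW k))

theorem stayU (k : ZMod q) : G .U k ∈ S (some (.u, k)) := by
  refine (H.bigU k).resolve_right ?_
  exact H.not_mem (by simp) (H.stayC (k - 1))

theorem noX (k : ZMod q) : chi (S (some (.u, k))) (G .X (k - 1)) = 0 :=
  H.chi_zero (by simp) (H.stayC (k - 1))

theorem val_u (k : ZMod q) : vz (some (.u, k)) (S (some (.u, k))) = 1000 * q - 21
    + 22 * chi (S (some (.u, k))) (G .t k) + 60 * chi (S (some (.u, k))) (G .r k)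
    + 60 * chi (S (some (.u, k))) (G .s k) + 20 * pc (S (some (.u, k))) := by
  rw [vz_u, chi_pos (H.stayU k), H.noX, H.chiX]
  ring

theorem val_w (k : ZMod q) : vz (some (.w, k)) (S (some (.w, k))) = 1000 * q - 23
    + 12 * chi (S (some (.w, k))) (G .r k)
    + 12 * chi (S (some (.w, k))) (G .s k) + 20 * pc (S (some (.w, k))) := by
  rw [vz_w, chi_pos (H.stayW k), H.chi_zero (by simp) (H.stayU k), H.chiX, H.chix]
  ring

theorem val_c (k : ZMod q) : vz (some (.c, k)) (S (some (.c, k))) = 1000 * q + 1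
    + 20 * pc (S (some (.c, k))) := by
  rw [vz_c, chi_pos (H.stayC k), H.chi_zero (by simp) (H.stayW k), H.chiX, H.chix]
  ring

/-- What `w` sees at `u`. -/
theorem w_at_u (k : ZMod q) : vz (some (.w, k)) (S (some (.u, k))) = 1000 * q - 17
    + 12 * chi (S (some (.u, k))) (G .r k)
    + 12 * chi (S (some (.u, k))) (G .s k) + 20 * pc (S (some (.u, k))) := by
  rw [vz_w, chi_pos (H.stayU k), H.chi_zero (by simp) (H.stayW k), H.chiX, H.chix]
  ring

/-- What `c` sees at `w`. -/
theorem c_at_w (k : ZMod q) : vz (some (.c, k)) (S (some (.w, k))) = 1000 * q - 17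
    + 20 * pc (S (some (.w, k))) := by
  rw [vz_c, chi_pos (H.stayW k), H.chi_zero (by simp) (H.stayC k), H.chiX, H.chix]
  ring

theorem c_of_w (k : ZMod q) (h : 1 ≤ pc (S (some (.w, k)))) : 1 ≤ pc (S (some (.c, k))) := by
  have hw := H.base0 .w k
  rw [H.val_w] at hw
  have key : ∃ g ∈ S (some (.w, k)), 1000 * q + 3 ≤
      vz (some (.c, k)) (S (some (.w, k))) - value q (some (.c, k)) g := by
    by_cases hr : G .r k ∈ S (some (.w, k))
    · refine ⟨_, hr, ?_⟩
      rw [H.c_at_w]
      simp only [value, rv]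
      omega
    by_cases hs : G .s k ∈ S (some (.w, k))
    · refine ⟨_, hs, ?_⟩
      rw [H.c_at_w]
      simp only [value, rv]
      omega
    rw [chi_neg hr, chi_neg hs] at hw
    obtain ⟨j, hj⟩ := exists_pool h
    refine ⟨_, hj, ?_⟩
    rw [H.c_at_w]
    simp only [value]
    omega
  obtain ⟨g, hg, h1⟩ := key
  have h2 := H.efx' (some (.c, k)) hg
  rw [H.val_c] at h2
  omega

theorem w_of_u (k : ZMod q) (h : 1000 * q + 2 ≤ vz (some (.u, k)) (S (some (.u, k)))) :
    1 ≤ pc (S (some (.w, k))) := by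
  rw [H.val_u] at h
  have hw := H.base0 .w k
  rw [H.val_w] at hw
  have hr1 := chi_le (S (some (.w, k))) (G .r k)
  have hs1 := chi_le (S (some (.w, k))) (G .s k)
  have ht1 := chi_le (S (some (.u, k))) (G .t k)
  by_cases hp : 1 ≤ pc (S (some (.u, k)))
  · have key : ∃ g ∈ S (some (.u, k)), 1000 * q + 3 ≤
        vz (some (.w, k)) (S (some (.u, k))) - value q (some (.w, k)) g := by
      have hr0 := chi_nonneg (S (some (.u, k))) (G .r k)
      have hs0 := chi_nonneg (S (some (.u, k))) (G .s k)
      by_cases ht : G .t k ∈ S (some (.u, k))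
      · refine ⟨_, ht, ?_⟩
        rw [H.w_at_u]
        simp only [value, rv]
        omega
      by_cases hr : G .r k ∈ S (some (.u, k))
      · refine ⟨_, hr, ?_⟩
        rw [H.w_at_u, chi_pos hr]
        simp only [value, rv, if_true]
        omega
      by_cases hs : G .s k ∈ S (some (.u, k))
      · refine ⟨_, hs, ?_⟩
        rw [H.w_at_u, chi_pos hs]
        simp only [value, rv, if_true]
        omega
      rw [chi_neg ht, chi_neg hr, chi_neg hs] at h
      obtain ⟨j, hj⟩ := exists_pool hp
      refine ⟨_, hj, ?_⟩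
      rw [H.w_at_u]
      simp only [value]
      omega
    obtain ⟨g, hg, h1⟩ := key
    have h2 := H.efx' (some (.w, k)) hg
    rw [H.val_w] at h2
    omega
  · have hp0 : pc (S (some (.u, k))) = 0 := by
      have := pc_nonneg (S (some (.u, k)))
      omega
    by_cases hr : G .r k ∈ S (some (.u, k))
    · rw [H.chi_zero (j := some (.w, k)) (by simp) hr] at hw
      omega
    by_cases hs : G .s k ∈ S (some (.u, k))
    · rw [H.chi_zero (j := some (.w, k)) (by simp) hs] at hw
      omega
    rw [chi_neg hr, chi_neg hs] at h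
    omega

/-- If `c k` holds a further good then `u (k + 1)` gains. -/
theorem u_of_c (k : ZMod q) {g : Good q} (hg : g ∈ S (some (.c, k))) (hne : g ≠ G .X k) :
    1000 * q + 2 ≤ vz (some (.u, k + 1)) (S (some (.u, k + 1))) := by
  refine le_trans ?_ (H.efx (some (.u, k + 1)) _ g hg)
  have hm : G .X k ∈ (S (some (.c, k))).erase g := Finset.mem_erase.2 ⟨hne.symm, H.stayC k⟩
  have h4 : 1 ≤ q := Nat.one_le_iff_ne_zero.2 (NeZero.ne q)
  have h1 := Finset.single_le_sum (f := fun g => value q (some (.u, k + 1)) g)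
    (fun g _ => value_nonneg h4 _ g) hm
  unfold vz
  refine le_trans ?_ h1
  simp [value, rv]

theorem no_gain (k₀ : ZMod q) : ¬ 1000 * q + 2 ≤ vz (some (.u, k₀)) (S (some (.u, k₀))) := by
  intro h0
  have hall : ∀ k, 1000 * q + 2 ≤ vz (some (.u, k)) (S (some (.u, k))) := by
    refine cyc_up (fun k => 1000 * q + 2 ≤ vz (some (.u, k)) (S (some (.u, k))))
      (fun k hk => ?_) k₀ h0
    have h1 := H.c_of_w k (H.w_of_u k hk)
    obtain ⟨j, hj⟩ := exists_pool h1
    exact H.u_of_c k hj (by simp)
  refine pool_contra H.dis fun k => ?_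
  have h1 := H.w_of_u k (hall k)
  have h2 := H.c_of_w k h1
  have h3 := pc_nonneg (S (some (.u, k)))
  omega

theorem c_eq (k : ZMod q) : S (some (.c, k)) = {G .X k} := by
  refine Finset.Subset.antisymm (fun g hg => ?_) (by simpa using H.stayC k)
  rw [Finset.mem_singleton]
  by_contra hne
  exact H.no_gain _ (H.u_of_c k hg hne)

theorem pcC (k : ZMod q) : pc (S (some (.c, k))) = 0 := by
  rw [H.c_eq]
  exact Finset.sum_eq_zero fun j _ => chi_neg (by simp)

theorem pcW (k : ZMod q) : pc (S (some (.w, k))) = 0 := by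
  by_contra h
  have h1 := pc_nonneg (S (some (.w, k)))
  have h2 := H.c_of_w k (by omega)
  rw [H.pcC] at h2
  omega

theorem u_all (k : ZMod q) : pc (S none) = 0 ∧ pc (S (some (.u, k))) = 0 ∧
    G .t k ∈ S (some (.u, k)) := by
  have h1 := H.no_gain k
  have h2 := H.base .u k
  rw [H.val_u] at h1 h2
  have a2 := chi_nonneg (S (some (.u, k))) (G .r k)
  have a3 := chi_nonneg (S (some (.u, k))) (G .s k)
  have a4 := pc_nonneg (S (some (.u, k)))
  have a5 := pc_nonneg (S none)
  by_cases ht : G .t k ∈ S (some (.u, k))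
  · rw [chi_pos ht] at h1 h2
    exact ⟨by omega, by omega, ht⟩
  · rw [chi_neg ht] at h1 h2
    omega

theorem w_all (k : ZMod q) : G .r k ∈ S (some (.w, k)) ∧ G .s k ∈ S (some (.w, k)) := by
  have h2 := H.base0 .w k
  rw [H.val_w, H.pcW] at h2
  have b1 := chi_le (S (some (.w, k))) (G .r k)
  have b2 := chi_le (S (some (.w, k))) (G .s k)
  exact ⟨mem_of_chi (by omega), mem_of_chi (by omega)⟩

theorem pc_zero (i : Ag q) : pc (S i) = 0 := by
  rcases i with _ | ⟨a, k⟩
  · exact (H.u_all 0).1
  · cases a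
    · exact (H.u_all k).2.1
    · exact H.pcW k
    · exact H.pcC k

/-- The owner of a good. -/
theorem owner (i : Ag q) {g : Good q} (hg : g ∈ S i) : g ∈ alloc q i := by
  have key : ∀ j : Ag q, g ∈ S j → g ∈ alloc q j → g ∈ alloc q i := by
    intro j h1 h2
    by_cases hij : i = j
    · rw [hij]
      exact h2
    · exact absurd h1 (H.not_mem hij hg)
  rcases g with ⟨a, k⟩ | j | b
  · cases a
    · exact key (some (.u, k)) (H.stayU k) (by simp [alloc])
    · exact key (some (.w, k)) (H.stayW k) (by simp [alloc])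
    · exact key (some (.c, k)) (H.stayC k) (by simp [alloc])
    · exact key (some (.u, k)) (H.u_all k).2.2 (by simp [alloc])
    · exact key (some (.w, k)) (H.w_all k).1 (by simp [alloc])
    · exact key (some (.w, k)) (H.w_all k).2 (by simp [alloc])
  · have := pc_pos_of_mem hg
    rw [H.pc_zero] at this
    omega
  · cases b
    · exact key none H.sma (by simp [alloc])
    · exact key none H.big (by simp [alloc])

theorem eq_alloc : S = alloc q := by
  funext i
  refine Finset.Subset.antisymm (fun g hg => H.owner i hg) ?_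
  rcases i with _ | ⟨a, k⟩
  · intro g hg
    simp only [alloc, Finset.mem_insert, Finset.mem_singleton] at hg
    rcases hg with rfl | rfl
    · exact H.big
    · exact H.sma
  · cases a
    · intro g hg
      simp only [alloc, Finset.mem_insert, Finset.mem_singleton] at hg
      rcases hg with rfl | rfl
      · exact H.stayU k
      · exact (H.u_all k).2.2
    · intro g hg
      simp only [alloc, Finset.mem_insert, Finset.mem_singleton] at hg
      rcases hg with rfl | rfl | rfl
      · exact H.stayW k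
      · exact (H.w_all k).1
      · exact (H.w_all k).2
    · intro g hg
      simp only [alloc, Finset.mem_singleton] at hg
      rcases hg with rfl
      exact H.stayC k

end Hyp

end Pool.Agent.Lib.MP_358b54_lc.Barrier
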