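import Mathlib
import Pool.Agent.Lib.MP_358b54_lc.BarrierB

/-!
# The barrier instance: welfare, the allocation `alloc`, positive real values
-/

set_option autoImplicit false

namespace Pool.Agent.Lib.MP_358b54_lc.Barrier

open Finset

/-- An upper bound on the value of a good for the agents of the ring. -/
def mx (q : ℕ) : Good q → ℤ
  | Sum.inl (.U, _) => 1000 * q - 17
  | Sum.inl (.W, _) => 1000 * q - 17
  | Sum.inl (.X, _) => 1000 * q + 2
  | Sum.inl (.t, _) => 22
  | Sum.inl (.r, _) => 60
  | Sum.inl (.s, _) => 60
  | Sum.inr (Sum.inl _) => 20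
  | Sum.inr (Sum.inr true) => 1000 * q + 1
  | Sum.inr (Sum.inr false) => 139

theorem value_le_mx {q : ℕ} (hq : 1 ≤ q) (x : Role × ZMod q) (g : Good q) :
    value q (some x) g ≤ mx q g := by
  have hq' : (1 : ℤ) ≤ q := by exact_mod_cast hq
  rcases x with ⟨a, k⟩
  rcases g with ⟨b, j⟩ | j | b
  · cases a <;> cases b <;> simp only [value, rv, mx] <;> (try split_ifs) <;> omega
  · simp [value, mx]
  · cases b
    · cases a <;> simp [value, sv, mx]
    · simp [value, mx]

theorem mx_nonneg {q : ℕ} (hq : 1 ≤ q) (g : Good q) : 0 ≤ mx q g := by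
  have hq' : (1 : ℤ) ≤ q := by exact_mod_cast hq
  rcases g with ⟨b, j⟩ | j | b
  · cases b <;> simp only [mx] <;> omega
  · simp [mx]
  · cases b <;> simp only [mx] <;> omega

variable {q : ℕ} [NeZero q] {S : Ag q → Finset (Good q)}

omit [NeZero q] in
theorem q_pos (_ : NeZero q) : 1 ≤ q := Nat.one_le_iff_ne_zero.2 (NeZero.ne q)

theorem sum_mx : ∑ g, mx q g = 3000 * (q : ℤ) ^ 2 + 1150 * q + 120 := by
  have h : (((2 * q - 1 : ℕ)) : ℤ) = 2 * q - 1 := by
    have := q_pos (q := q) inferInstance
    omega
  rw [Fintype.sum_sum_type, Fintype.sum_sum_type, Fintype.sum_prod_type, sum_kind,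
    Fintype.sum_bool]
  simp only [mx, Finset.sum_const, Finset.card_univ, ZMod.card, Fintype.card_fin, nsmul_eq_mul, h]
  ring

theorem vz_chi (i : Ag q) (T : Finset (Good q)) : vz i T = ∑ g, chi T g * value q i g := by
  unfold vz chi
  rw [← Finset.sum_filter_add_sum_filter_not univ (fun g => g ∈ T)]
  rw [Finset.sum_eq_zero (s := univ.filter fun g => ¬ g ∈ T)]
  · rw [add_zero]
    refine Finset.sum_congr ?_ fun g hg => ?_
    · ext g
      simp
    · rw [if_pos (Finset.mem_filter.1 hg).2, one_mul]
  · intro g hg
    simp [(Finset.mem_filter.1 hg).2]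

theorem ring_le (hd : ∀ i j, i ≠ j → Disjoint (S i) (S j)) :
    ∑ x : Role × ZMod q, vz (some x) (S (some x)) ≤ ∑ g, mx q g := by
  have hq := q_pos (q := q) inferInstance
  have h1 : ∀ g, ∑ x : Role × ZMod q, chi (S (some x)) g ≤ 1 := by
    intro g
    have h := sum_chi_le hd g
    rw [Fintype.sum_option] at h
    have := chi_nonneg (S none) g
    omega
  calc ∑ x : Role × ZMod q, vz (some x) (S (some x))
      ≤ ∑ x : Role × ZMod q, ∑ g, chi (S (some x)) g * mx q g :=
        Finset.sum_le_sum fun x _ => by
          rw [vz_chi]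
          exact Finset.sum_le_sum fun g _ =>
            mul_le_mul_of_nonneg_left (value_le_mx hq x g) (chi_nonneg _ _)
    _ = ∑ g, (∑ x : Role × ZMod q, chi (S (some x)) g) * mx q g := by
        rw [Finset.sum_comm]
        exact Finset.sum_congr rfl fun g _ => (Finset.sum_mul _ _ _).symm
    _ ≤ ∑ g, 1 * mx q g :=
        Finset.sum_le_sum fun g _ => mul_le_mul_of_nonneg_right (h1 g) (mx_nonneg hq g)
    _ = ∑ g, mx q g := by simp

theorem both (hd : ∀ i j, i ≠ j → Disjoint (S i) (S j))
    (hw : 3040 * (q : ℤ) + 104 + 3 * q * (1000 * q + 1) ≤ ∑ i, vz i (S i)) :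
    Xs ∈ S none ∧ xs ∈ S none := by
  have hq' : (1 : ℤ) ≤ q := by exact_mod_cast q_pos (q := q) inferInstance
  have h2 := ring_le hd
  rw [sum_mx] at h2
  rw [Fintype.sum_option, vz_none] at hw
  have a1 := chi_le (S none) Xs
  have a2 := chi_le (S none) xs
  constructor
  · by_contra h
    rw [chi_neg h] at hw
    have h3 : (0 + chi (S none) xs) * (1520 * (q : ℤ) + 52) ≤ 1 * (1520 * q + 52) :=
      mul_le_mul_of_nonneg_right (by omega) (by omega)
    nlinarith
  · by_contra h
    rw [chi_neg h] at hw
    have h3 : (chi (S none) Xs + 0) * (1520 * (q : ℤ) + 52) ≤ 1 * (1520 * q + 52) :=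
      mul_le_mul_of_nonneg_right (by omega) (by omega)
    nlinarith

theorem unique (hd : ∀ i j, i ≠ j → Disjoint (S i) (S j))
    (he : ∀ i j, ∀ g ∈ S j, vz i ((S j).erase g) ≤ vz i (S i))
    (hw : 3040 * (q : ℤ) + 104 + 3 * q * (1000 * q + 1) ≤ ∑ i, vz i (S i)) : S = alloc q :=
  Hyp.eq_alloc ⟨hd, he, (both hd hw).1, (both hd hw).2⟩

/-! ### The allocation -/

/-- The owner of a good. -/
def own (q : ℕ) : Good q → Ag q
  | Sum.inl (.U, k) => some (.u, k)
  | Sum.inl (.t, k) => some (.u, k)
  | Sum.inl (.W, k) => some (.w, k)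
  | Sum.inl (.r, k) => some (.w, k)
  | Sum.inl (.s, k) => some (.w, k)
  | Sum.inl (.X, k) => some (.c, k)
  | Sum.inr _ => none

omit [NeZero q] in
theorem own_of_mem {i : Ag q} {g : Good q} (h : g ∈ alloc q i) : own q g = i := by
  rcases i with _ | ⟨a, k⟩
  · simp only [alloc, Finset.mem_insert, Finset.mem_singleton] at h
    rcases h with rfl | rfl <;> rfl
  · cases a
    · simp only [alloc, Finset.mem_insert, Finset.mem_singleton] at h
      rcases h with rfl | rfl <;> rfl
    · simp only [alloc, Finset.mem_insert, Finset.mem_singleton] at h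
      rcases h with rfl | rfl | rfl <;> rfl
    · simp only [alloc, Finset.mem_singleton] at h
      rcases h with rfl
      rfl

omit [NeZero q] in
theorem alloc_disj (i j : Ag q) (hij : i ≠ j) : Disjoint (alloc q i) (alloc q j) := by
  rw [Finset.disjoint_left]
  intro g h1 h2
  exact hij ((own_of_mem h1).symm.trans (own_of_mem h2))

omit [NeZero q] in
theorem alloc_ring (x : Role × ZMod q) : vz (some x) (alloc q (some x)) = 1000 * q + 1 := by
  rcases x with ⟨a, k⟩
  cases a
  · simp [vz, alloc, value, rv]
    ring
  · simp [vz, alloc, value, rv]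
    ring
  · simp [vz, alloc, value, rv]

omit [NeZero q] in
theorem alloc_none : vz none (alloc q none) = 3040 * q + 104 := by
  simp [vz, alloc, value]
  ring

theorem sum_alloc : ∑ i, vz i (alloc q i) = 3040 * (q : ℤ) + 104 + 3 * q * (1000 * q + 1) := by
  rw [Fintype.sum_option, alloc_none]
  simp only [alloc_ring]
  have : Fintype.card Role = 3 := rfl
  simp [Fintype.card_prod, ZMod.card, this]

omit [NeZero q] in
theorem none_le (j : Ag q) (hj : none ≠ j) (T : Finset (Good q)) (hT : T ⊆ alloc q j) :
    vz none T ≤ 0 := by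
  refine le_of_eq (Finset.sum_eq_zero fun g hg => ?_)
  have h1 := own_of_mem (hT hg)
  rcases g with g | g
  · simp [value]
  · exact absurd h1 hj

theorem ring_lt (x y : Role × ZMod q) (hxy : x ≠ y) (g : Good q) (hg : g ∈ alloc q (some y)) :
    vz (some x) ((alloc q (some y)).erase g) ≤ 1000 * q := by
  rw [vz_erase _ hg]
  have hq' : (1 : ℤ) ≤ q := by exact_mod_cast q_pos (q := q) inferInstance
  rcases x with ⟨a, k⟩
  rcases y with ⟨b, l⟩
  cases b
  · have h : vz (some (a, k)) (alloc q (some (.u, l))) = value q (some (a, k)) (G .U l)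
        + value q (some (a, k)) (G .t l) := by
      simp [vz, alloc]
    rw [h]
    simp only [alloc, Finset.mem_insert, Finset.mem_singleton] at hg
    have hne : a = .u → ¬ l = k := fun h1 h2 => hxy (by rw [h1, h2])
    rcases hg with rfl | rfl
    · cases a <;> simp only [value, rv] <;> (try split_ifs) <;> omega
    · cases a
      · simp only [value, rv, if_neg (hne rfl)]
        omega
      · simp only [value, rv]
        split_ifs <;> omega
      · simp only [value, rv]
        omega
  · have h : vz (some (a, k)) (alloc q (some (.w, l))) = value q (some (a, k)) (G .W l)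
        + (value q (some (a, k)) (G .r l) + value q (some (a, k)) (G .s l)) := by
      simp [vz, alloc]
    rw [h]
    simp only [alloc, Finset.mem_insert, Finset.mem_singleton] at hg
    have hne : a = .w → ¬ l = k := fun h1 h2 => hxy (by rw [h1, h2])
    rcases hg with rfl | rfl | rfl
    · cases a <;> simp only [value, rv] <;> (try split_ifs) <;> omega
    · cases a
      · simp only [value, rv]
        split_ifs <;> omega
      · simp only [value, rv, if_neg (hne rfl)]
        omega
      · simp only [value, rv]
        split_ifs <;> omega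
    · cases a
      · simp only [value, rv]
        split_ifs <;> omega
      · simp only [value, rv, if_neg (hne rfl)]
        omega
      · simp only [value, rv]
        split_ifs <;> omega
  · simp only [alloc, Finset.mem_singleton] at hg
    subst hg
    have h : vz (some (a, k)) (alloc q (some (.c, l))) = value q (some (a, k)) (G .X l) := by
      simp [vz, alloc]
    rw [h]
    omega

theorem ring_none (x : Role × ZMod q) (g : Good q) (hg : g ∈ alloc q none) :
    vz (some x) ((alloc q none).erase g) ≤ 1000 * q + 1 := by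
  rw [vz_erase _ hg]
  have hq' : (1 : ℤ) ≤ q := by exact_mod_cast q_pos (q := q) inferInstance
  have h : vz (some x) (alloc q none) = value q (some x) Xs + value q (some x) xs := by
    simp [vz, alloc]
  rw [h]
  rcases x with ⟨a, k⟩
  simp only [alloc, Finset.mem_insert, Finset.mem_singleton] at hg
  rcases hg with rfl | rfl
  · cases a <;> simp only [value, sv] <;> omega
  · cases a <;> simp only [value, sv] <;> omega

theorem total (i : Ag q) : vz i univ = 3040 * q + 104 := by
  have h : (((2 * q - 1 : ℕ)) : ℤ) = 2 * q - 1 := by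
    have := q_pos (q := q) inferInstance
    omega
  have hp : pc (univ : Finset (Good q)) = 2 * q - 1 := by
    simp [pc, chi, h]
  have hc : ∀ g, chi (univ : Finset (Good q)) g = 1 := fun g => chi_pos (Finset.mem_univ g)
  rcases i with _ | ⟨a, k⟩
  · rw [vz_none, hc, hc]
    ring
  · cases a
    · rw [vz_u, hp]
      simp only [hc]
      ring
    · rw [vz_w, hp]
      simp only [hc]
      ring
    · rw [vz_c, hp]
      simp only [hc]
      ring

theorem pool_alloc : pool (alloc q) = univ.image (fun j : Fin (2 * q - 1) => (Pg j : Good q)) := by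
  ext g
  simp only [pool, Finset.mem_sdiff, Finset.mem_univ, true_and, Finset.mem_biUnion,
    Finset.mem_image, not_exists]
  constructor
  · intro h
    rcases g with ⟨a, k⟩ | j | b
    · exfalso
      cases a
      · exact h (some (.u, k)) (by simp [alloc])
      · exact h (some (.w, k)) (by simp [alloc])
      · exact h (some (.c, k)) (by simp [alloc])
      · exact h (some (.u, k)) (by simp [alloc])
      · exact h (some (.w, k)) (by simp [alloc])
      · exact h (some (.w, k)) (by simp [alloc])
    · exact ⟨j, rfl⟩
    · exfalso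
      cases b
      · exact h none (by simp [alloc])
      · exact h none (by simp [alloc])
  · rintro ⟨j, rfl⟩ i hi
    rcases i with _ | ⟨a, k⟩
    · simp [alloc] at hi
    · cases a <;> simp [alloc] at hi

theorem pool_card : (pool (alloc q)).card = 2 * q - 1 := by
  rw [pool_alloc, Finset.card_image_of_injective]
  · simp
  · intro a b h
    simpa using h

/-! ### Positive real values -/

/-- The factor. -/
def fac (q : ℕ) [NeZero q] : ℤ := Fintype.card (Good q) + 1

/-- The positive real values. -/
noncomputable def vr (q : ℕ) [NeZero q] (i : Ag q) (g : Good q) : ℝ :=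
  ((fac q * value q i g + 1 : ℤ) : ℝ)

theorem val_vr (i : Ag q) (T : Finset (Good q)) :
    val (vr q) i T = ((fac q * vz i T + T.card : ℤ) : ℝ) := by
  unfold val vr vz
  rw [← Int.cast_sum]
  congr 1
  rw [Finset.sum_add_distrib, Finset.mul_sum]
  simp

theorem card_le_fac (T : Finset (Good q)) : (T.card : ℤ) + 1 ≤ fac q := by
  have := Finset.card_le_univ T
  unfold fac
  omega

theorem vr_pos (i : Ag q) (g : Good q) : 0 < vr q i g := by
  unfold vr
  have h1 := value_nonneg (q_pos (q := q) inferInstance) i g
  have h2 := card_le_fac (∅ : Finset (Good q))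
  have h3 : 0 ≤ fac q * value q i g := mul_nonneg (by simp at h2; omega) h1
  exact_mod_cast (by omega : (0 : ℤ) < fac q * value q i g + 1)

theorem efx_int {i : Ag q} {g : Good q} {T T' : Finset (Good q)}
    (h : val (vr q) i (T.erase g) ≤ val (vr q) i T') : vz i (T.erase g) ≤ vz i T' := by
  rw [val_vr, val_vr] at h
  have h1 : fac q * vz i (T.erase g) + (T.erase g).card ≤ fac q * vz i T' + T'.card := by
    exact_mod_cast h
  have h2 := card_le_fac T'
  by_contra h3
  push Not at h3
  have h4 : fac q * (vz i T' + 1) ≤ fac q * vz i (T.erase g) :=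
    mul_le_mul_of_nonneg_left (by omega) (by omega)
  have h5 : fac q * (vz i T' + 1) = fac q * vz i T' + fac q := by ring
  omega

theorem sum_val (S : Ag q → Finset (Good q)) : ∑ i, val (vr q) i (S i)
    = ((fac q * ∑ i, vz i (S i) + ∑ i, ((S i).card : ℤ) : ℤ) : ℝ) := by
  simp only [val_vr]
  rw [← Int.cast_sum]
  congr 1
  rw [Finset.sum_add_distrib, Finset.mul_sum]

theorem welfare_int (hd : ∀ i j, i ≠ j → Disjoint (S i) (S j))
    (h : ∑ i, val (vr q) i (alloc q i) ≤ ∑ i, val (vr q) i (S i)) :
    ∑ i, vz i (alloc q i) ≤ ∑ i, vz i (S i) := by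
  rw [sum_val, sum_val] at h
  have h1 : fac q * ∑ i, vz i (alloc q i) + ∑ i, ((alloc q i).card : ℤ)
      ≤ fac q * ∑ i, vz i (S i) + ∑ i, ((S i).card : ℤ) := by
    exact_mod_cast h
  have h2 : ∑ i, ((S i).card : ℤ) + 1 ≤ fac q := by
    have h3 : (univ.biUnion S).card = ∑ i, (S i).card :=
      Finset.card_biUnion fun i _ j _ hij => hd i j hij
    have h4 := card_le_fac (univ.biUnion S)
    rw [h3] at h4
    push_cast at h4
    exact h4
  have h5 : 0 ≤ ∑ i, ((alloc q i).card : ℤ) := Finset.sum_nonneg fun _ _ => by positivity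
  by_contra h3
  push Not at h3
  have h4 : fac q * (∑ i, vz i (S i) + 1) ≤ fac q * ∑ i, vz i (alloc q i) :=
    mul_le_mul_of_nonneg_left (by omega) (by
      have := card_le_fac (∅ : Finset (Good q))
      simp at this
      omega)
  have h6 : fac q * (∑ i, vz i (S i) + 1) = fac q * ∑ i, vz i (S i) + fac q := by ring
  omega

theorem alloc_efx (i j : Ag q) (g : Good q) (hg : g ∈ alloc q j) :
    val (vr q) i ((alloc q j).erase g) ≤ val (vr q) i (alloc q i) := by
  by_cases hij : i = j
  · subst hij
    exact Finset.sum_le_sum_of_subset_of_nonneg (Finset.erase_subset _ _)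
      fun g _ _ => (vr_pos i g).le
  rw [val_vr, val_vr]
  have hq' : (1 : ℤ) ≤ q := by exact_mod_cast q_pos (q := q) inferInstance
  have key : fac q * vz i ((alloc q j).erase g) + ((alloc q j).erase g).card
      ≤ fac q * vz i (alloc q i) + (alloc q i).card := by
    have hf := card_le_fac ((alloc q j).erase g)
    have hf0 : 0 ≤ fac q := by omega
    have gen : vz i ((alloc q j).erase g) + 1 ≤ vz i (alloc q i) →
        fac q * vz i ((alloc q j).erase g) + ((alloc q j).erase g).card
      ≤ fac q * vz i (alloc q i) + (alloc q i).card := by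
      intro h
      have h1 := mul_le_mul_of_nonneg_left h hf0
      have h2 : fac q * (vz i ((alloc q j).erase g) + 1)
        = fac q * vz i ((alloc q j).erase g) + fac q := by ring
      omega
    rcases i with _ | x
    · refine gen ?_
      have h1 := none_le j hij _ (Finset.erase_subset g _)
      rw [alloc_none]
      omega
    · rcases j with _ | y
      · have h1 := ring_none x g hg
        rw [alloc_ring]
        have h2 := mul_le_mul_of_nonneg_left h1 hf0
        have h3 : ((alloc q none).erase g).card = 1 := by
          rw [Finset.card_erase_of_mem hg]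
          rfl
        have h4 : 1 ≤ (alloc q (some x)).card := by
          rw [Nat.one_le_iff_ne_zero, Finset.card_ne_zero]
          rcases x with ⟨a, k⟩
          cases a
          · exact ⟨G .U k, by simp [alloc]⟩
          · exact ⟨G .W k, by simp [alloc]⟩
          · exact ⟨G .X k, by simp [alloc]⟩
        rw [h3]
        push_cast
        omega
      · refine gen ?_
        have h1 := ring_lt x y (fun h => hij (by rw [h])) g hg
        rw [alloc_ring]
        omega
  exact_mod_cast key

theorem pool_val (i : Ag q) : val (vr q) i (pool (alloc q)) ≤ val (vr q) i (alloc q i) := by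
  rw [val_vr, val_vr]
  have hq' : (1 : ℤ) ≤ q := by exact_mod_cast q_pos (q := q) inferInstance
  have hn : (((2 * q - 1 : ℕ)) : ℤ) = 2 * q - 1 := by
    have := q_pos (q := q) inferInstance
    omega
  have hf := card_le_fac (pool (alloc q))
  have hf0 : 0 ≤ fac q := by omega
  have h1 : vz i (pool (alloc q)) ≤ 40 * q - 20 := by
    rw [pool_alloc]
    unfold vz
    rw [Finset.sum_image (fun a _ b _ h => by simpa using h)]
    rcases i with _ | x
    · simp [value]
      omega
    · simp only [value, Finset.sum_const, Finset.card_univ, Fintype.card_fin, nsmul_eq_mul, hn]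
      omega
  have h2 : 1000 * (q : ℤ) + 1 ≤ vz i (alloc q i) := by
    rcases i with _ | x
    · rw [alloc_none]
      omega
    · rw [alloc_ring]
  have h3 : fac q * (vz i (pool (alloc q)) + 1) ≤ fac q * vz i (alloc q i) :=
    mul_le_mul_of_nonneg_left (by omega) hf0
  have h4 : fac q * (vz i (pool (alloc q)) + 1) = fac q * vz i (pool (alloc q)) + fac q := by ring
  exact_mod_cast (by omega : fac q * vz i (pool (alloc q)) + ((pool (alloc q)).card : ℤ)
    ≤ fac q * vz i (alloc q i) + ((alloc q i).card : ℤ))

end Pool.Agent.Lib.MP_358b54_lc.Barrier
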