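import Mathlib

/-!
# Rainbow cycles: the counting argument

`V h` (for `h ∈ P`) are nonempty finite sets, `c x h ∈ V h` is the chosen predecessor of `x` in the
part `h`.  If there is no choice of representatives in which every representative has its
predecessor in some other part among the representatives, then `∑ 1 / |V h| ≤ 1 + log |P|`.
-/

set_option autoImplicit false

namespace Pool.Agent.Lib.MP_358b54_lc

open Finset

lemma Count_real {M : Type} [DecidableEq M] (P : Finset M) (hP : P.Nonempty) (d : M → ℕ)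
    (hd : ∀ h ∈ P, 1 ≤ d h)
    (hle : ∏ h ∈ P, d h ≤ ∑ g ∈ P, d g * ∏ h ∈ P.erase g, (d h - 1)) :
    ∑ h ∈ P, (1 : ℝ) / d h ≤ 1 + Real.log P.card := by
  have hd0 : ∀ h ∈ P, (0 : ℝ) < d h := fun h hh => by exact_mod_cast hd h hh
  have hprod : (0 : ℝ) < ∏ h ∈ P, (d h : ℝ) := Finset.prod_pos hd0
  have h1 : (∏ h ∈ P, (d h : ℝ)) ≤ ∑ g ∈ P, (d g : ℝ) * ∏ h ∈ P.erase g, ((d h : ℝ) - 1) := by
    have h2 : ((∏ h ∈ P, d h : ℕ) : ℝ) ≤ ((∑ g ∈ P, d g * ∏ h ∈ P.erase g, (d h - 1) : ℕ) : ℝ) := by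
      exact_mod_cast hle
    push_cast at h2
    refine h2.trans (le_of_eq (Finset.sum_congr rfl fun g _ => ?_))
    congr 1
    refine Finset.prod_congr rfl fun h hh => ?_
    rw [Nat.cast_sub (hd h (Finset.mem_of_mem_erase hh)), Nat.cast_one]
  have h3 : ∀ g ∈ P, (d g : ℝ) * ∏ h ∈ P.erase g, ((d h : ℝ) - 1) ≤
      (∏ h ∈ P, (d h : ℝ)) * Real.exp (1 - ∑ h ∈ P, (1 : ℝ) / d h) := by
    intro g hg
    have h4 : ∏ h ∈ P.erase g, ((d h : ℝ) - 1) ≤
        ∏ h ∈ P.erase g, ((d h : ℝ) * Real.exp (-(1 / (d h : ℝ)))) := by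
      refine Finset.prod_le_prod (fun h hh => ?_) (fun h hh => ?_)
      · have : (1 : ℝ) ≤ d h := by exact_mod_cast hd h (Finset.mem_of_mem_erase hh)
        linarith
      · have h5 := hd0 h (Finset.mem_of_mem_erase hh)
        have h6 : 1 - 1 / (d h : ℝ) ≤ Real.exp (-(1 / (d h : ℝ))) := by
          have := Real.add_one_le_exp (-(1 / (d h : ℝ)))
          linarith
        have h7 : (d h : ℝ) - 1 = (d h : ℝ) * (1 - 1 / (d h : ℝ)) := by
          field_simp
        rw [h7]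
        exact mul_le_mul_of_nonneg_left h6 h5.le
    have h8 : (d g : ℝ) * ∏ h ∈ P.erase g, ((d h : ℝ) * Real.exp (-(1 / (d h : ℝ)))) =
        (∏ h ∈ P, (d h : ℝ)) * Real.exp (-(∑ h ∈ P.erase g, (1 : ℝ) / d h)) := by
      rw [Finset.prod_mul_distrib, ← mul_assoc, Finset.mul_prod_erase P (fun h => (d h : ℝ)) hg,
        ← Real.exp_sum, Finset.sum_neg_distrib]
    have h9 : -(∑ h ∈ P.erase g, (1 : ℝ) / d h) ≤ 1 - ∑ h ∈ P, (1 : ℝ) / d h := by
      have h10 := Finset.add_sum_erase P (fun h => (1 : ℝ) / d h) hg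
      have h11 : (1 : ℝ) / d g ≤ 1 := by
        rw [div_le_one (hd0 g hg)]
        exact_mod_cast hd g hg
      linarith
    calc (d g : ℝ) * ∏ h ∈ P.erase g, ((d h : ℝ) - 1)
        ≤ (d g : ℝ) * ∏ h ∈ P.erase g, ((d h : ℝ) * Real.exp (-(1 / (d h : ℝ)))) :=
          mul_le_mul_of_nonneg_left h4 (hd0 g hg).le
      _ = (∏ h ∈ P, (d h : ℝ)) * Real.exp (-(∑ h ∈ P.erase g, (1 : ℝ) / d h)) := h8
      _ ≤ _ := mul_le_mul_of_nonneg_left (Real.exp_le_exp.2 h9) hprod.le
  have h12 : (∏ h ∈ P, (d h : ℝ)) ≤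
      (P.card : ℝ) * ((∏ h ∈ P, (d h : ℝ)) * Real.exp (1 - ∑ h ∈ P, (1 : ℝ) / d h)) := by
    refine h1.trans ((Finset.sum_le_sum h3).trans ?_)
    rw [Finset.sum_const, nsmul_eq_mul]
  have h13 : (1 : ℝ) ≤ (P.card : ℝ) * Real.exp (1 - ∑ h ∈ P, (1 : ℝ) / d h) := by
    have h14 : (∏ h ∈ P, (d h : ℝ)) * 1 ≤ (∏ h ∈ P, (d h : ℝ)) *
        ((P.card : ℝ) * Real.exp (1 - ∑ h ∈ P, (1 : ℝ) / d h)) := by
      rw [mul_one]
      refine h12.trans (le_of_eq ?_)
      ring
    exact le_of_mul_le_mul_left h14 hprod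
  have hc : (0 : ℝ) < P.card := by exact_mod_cast hP.card_pos
  have h15 := Real.log_le_log one_pos h13
  rw [Real.log_one, Real.log_mul hc.ne' (Real.exp_pos _).ne', Real.log_exp] at h15
  linarith

/-- The counting argument. -/
theorem Count_main {N M : Type} [Fintype M] [DecidableEq M] [DecidableEq N]
    (P : Finset M) (hP : P.Nonempty) (V : M → Finset N) (hV : ∀ h ∈ P, (V h).Nonempty)
    (c : N → M → N) (hc : ∀ g ∈ P, ∀ x ∈ V g, ∀ h ∈ P, c x h ∈ V h)
    (hbad : ∀ r : M → N, (∀ h ∈ P, r h ∈ V h) →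
      ∃ g ∈ P, ∀ h ∈ P, h ≠ g → r h ≠ c (r g) h) :
    ∑ h ∈ P, (1 : ℝ) / (V h).card ≤ 1 + Real.log P.card := by
  classical
  refine Count_real P hP (fun h => (V h).card) (fun h hh => (hV h hh).card_pos) ?_
  obtain ⟨g₀, hg₀⟩ := hP
  obtain ⟨x₀, -⟩ := hV g₀ hg₀
  -- the choices
  obtain ⟨W, hW⟩ : ∃ W : M → Finset N, ∀ h, W h = if h ∈ P then V h else {x₀} := ⟨_, fun _ => rfl⟩
  obtain ⟨Bx, hBx⟩ : ∃ Bx : M → N → M → Finset N, ∀ g x h, Bx g x h =
      if h = g then {x} else if h ∈ P then (V h).erase (c x h) else {x₀} :=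
    ⟨_, fun _ _ _ => rfl⟩
  have hsub : Fintype.piFinset W ⊆ P.biUnion fun g => (V g).biUnion fun x =>
      Fintype.piFinset (Bx g x) := by
    intro r hr
    rw [Fintype.mem_piFinset] at hr
    have hrV : ∀ h ∈ P, r h ∈ V h := by
      intro h hh
      have := hr h
      rwa [hW, if_pos hh] at this
    obtain ⟨g, hg, hgb⟩ := hbad r hrV
    rw [Finset.mem_biUnion]
    refine ⟨g, hg, ?_⟩
    rw [Finset.mem_biUnion]
    refine ⟨r g, hrV g hg, ?_⟩
    rw [Fintype.mem_piFinset]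
    intro h
    rw [hBx]
    by_cases h1 : h = g
    · rw [if_pos h1, h1]
      exact Finset.mem_singleton_self _
    · rw [if_neg h1]
      by_cases h2 : h ∈ P
      · rw [if_pos h2, Finset.mem_erase]
        exact ⟨hgb h h2 h1, hrV h h2⟩
      · rw [if_neg h2]
        have := hr h
        rwa [hW, if_neg h2] at this
  have hcardW : (Fintype.piFinset W).card = ∏ h ∈ P, (V h).card := by
    rw [Fintype.card_piFinset, ← Finset.prod_subset (Finset.subset_univ P)]
    · refine Finset.prod_congr rfl fun h hh => ?_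
      rw [hW, if_pos hh]
    · intro h _ hh
      rw [hW, if_neg hh, Finset.card_singleton]
  have hcardB : ∀ g ∈ P, ∀ x ∈ V g, (Fintype.piFinset (Bx g x)).card =
      ∏ h ∈ P.erase g, ((V h).card - 1) := by
    intro g hg x hx
    rw [Fintype.card_piFinset, ← Finset.prod_subset (Finset.subset_univ (P.erase g))]
    · refine Finset.prod_congr rfl fun h hh => ?_
      obtain ⟨h1, h2⟩ := Finset.mem_erase.1 hh
      rw [hBx, if_neg h1, if_pos h2, Finset.card_erase_of_mem (hc g hg x hx h h2)]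
    · intro h _ hh
      rw [hBx]
      by_cases h1 : h = g
      · rw [if_pos h1, Finset.card_singleton]
      · have h2 : h ∉ P := fun h3 => hh (Finset.mem_erase.2 ⟨h1, h3⟩)
        rw [if_neg h1, if_neg h2, Finset.card_singleton]
  calc ∏ h ∈ P, (V h).card = (Fintype.piFinset W).card := hcardW.symm
    _ ≤ _ := Finset.card_le_card hsub
    _ ≤ ∑ g ∈ P, ((V g).biUnion fun x => Fintype.piFinset (Bx g x)).card :=
        Finset.card_biUnion_le
    _ ≤ ∑ g ∈ P, (V g).card * ∏ h ∈ P.erase g, ((V h).card - 1) := by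
        refine Finset.sum_le_sum fun g hg => ?_
        refine Finset.card_biUnion_le.trans ?_
        rw [Finset.sum_congr rfl (hcardB g hg), Finset.sum_const, smul_eq_mul]

end Pool.Agent.Lib.MP_358b54_lc
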