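import Mathlib
import Pool.Agent.Lib.MP_358b54_lc.Defs

/-!
# Maximal EFX allocations and improvement steps
-/

set_option autoImplicit false

namespace Pool.Agent.Lib.MP_358b54_lc

open Finset

variable {N M : Type} [Fintype N] [DecidableEq N] [Fintype M] [DecidableEq M]

lemma val_mono {v : N → M → ℝ} (hv : ∀ i g, 0 ≤ v i g) (i : N) {S T : Finset M} (h : S ⊆ T) :
    val v i S ≤ val v i T :=
  Finset.sum_le_sum_of_subset_of_nonneg h fun g _ _ => hv i g

lemma val_nonneg {v : N → M → ℝ} (hv : ∀ i g, 0 ≤ v i g) (i : N) (S : Finset M) :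
    0 ≤ val v i S := Finset.sum_nonneg fun g _ => hv i g

lemma val_erase (v : N → M → ℝ) (i : N) {S : Finset M} {g : M} (hg : g ∈ S) :
    v i g + val v i (S.erase g) = val v i S := Finset.add_sum_erase S (v i) hg

lemma mem_pool {A : N → Finset M} {g : M} : g ∈ pool A ↔ ∀ i, g ∉ A i := by
  simp [pool]

/-- EFX allocations which maximise the total value and then the number of allocated goods. -/
structure Maxi (v : N → M → ℝ) (A : N → Finset M) : Prop where
  par : IsPartial A
  efx : IsEFX v A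
  max1 : ∀ B, IsPartial B → IsEFX v B → ∑ i, val v i (B i) ≤ ∑ i, val v i (A i)
  max2 : ∀ B, IsPartial B → IsEFX v B → ∑ i, val v i (A i) ≤ ∑ i, val v i (B i) →
    ∑ i, (B i).card ≤ ∑ i, (A i).card

lemma exists_maxi (v : N → M → ℝ) : ∃ A, Maxi v A := by
  classical
  obtain ⟨s, hs⟩ : ∃ s : Finset (N → Finset M), ∀ A, A ∈ s ↔ IsPartial A ∧ IsEFX v A :=
    ⟨univ.filter fun A => IsPartial A ∧ IsEFX v A, fun A => by simp⟩
  have hne : s.Nonempty := ⟨fun _ => ∅, by
    rw [hs]
    exact ⟨fun i j _ => Finset.disjoint_empty_left _, fun i j g hg => absurd hg (by simp)⟩⟩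
  obtain ⟨A, hA, hmax⟩ := s.exists_max_image
    (fun A => toLex ((∑ i, val v i (A i) : ℝ), (∑ i, (A i).card : ℕ))) hne
  have hle : ∀ B, IsPartial B → IsEFX v B →
      (∑ i, val v i (B i) < ∑ i, val v i (A i)) ∨
      (∑ i, val v i (B i) = ∑ i, val v i (A i) ∧ ∑ i, (B i).card ≤ ∑ i, (A i).card) := by
    intro B h1 h2
    have h3 := hmax B ((hs B).2 ⟨h1, h2⟩)
    rw [Prod.Lex.toLex_le_toLex] at h3
    exact h3
  refine ⟨A, ((hs A).1 hA).1, ((hs A).1 hA).2, fun B h1 h2 => ?_, fun B h1 h2 h3 => ?_⟩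
  · rcases hle B h1 h2 with h | h
    · exact h.le
    · exact h.1.le
  · rcases hle B h1 h2 with h | h
    · exact absurd h3 (not_le.2 h)
    · exact h.2

lemma no_improve {v : N → M → ℝ} {A : N → Finset M} (hA : Maxi v A) (B : N → Finset M)
    (h1 : IsPartial B) (h2 : ∀ i j, ∀ g ∈ B j, val v i ((B j).erase g) ≤ val v i (A i))
    (h3 : ∀ i, val v i (A i) ≤ val v i (B i)) (h4 : ∃ i, val v i (A i) < val v i (B i)) :
    False := by
  have h5 := hA.max1 B h1 fun i j g hg => (h2 i j g hg).trans (h3 i)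
  obtain ⟨i, hi⟩ := h4
  have h6 : ∑ i, val v i (A i) < ∑ i, val v i (B i) :=
    Finset.sum_lt_sum (fun i _ => h3 i) ⟨i, Finset.mem_univ i, hi⟩
  exact absurd h5 (not_le.2 h6)

/-- The general improvement step: along the functional graph `f`, injective on the invariant set `O`,
the agent `f j` gets a part `C j` of the bundle of `j` and of some unallocated goods `H j`. -/
lemma cyc {v : N → M → ℝ} {A : N → Finset M} (hA : Maxi v A) (O : Finset N) (hO : O.Nonempty)
    (f : N → N) (hf : ∀ j ∈ O, f j ∈ O) (hinj : ∀ j ∈ O, ∀ j' ∈ O, f j = f j' → j = j')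
    (C H : N → Finset M) (hC : ∀ j ∈ O, C j ⊆ A j ∪ H j) (hH : ∀ j ∈ O, H j ⊆ pool A)
    (hHd : ∀ j ∈ O, ∀ j' ∈ O, j ≠ j' → Disjoint (H j) (H j'))
    (hE : ∀ j ∈ O, ∀ i, ∀ g ∈ C j, val v i ((C j).erase g) ≤ val v i (A i))
    (hup : ∀ j ∈ O, val v (f j) (A (f j)) < val v (f j) (C j)) : False := by
  classical
  have himg : O.image f = O := by
    refine Finset.eq_of_subset_of_card_le (fun x hx => ?_) ?_
    · obtain ⟨j, hj, rfl⟩ := Finset.mem_image.1 hx
      exact hf j hj
    · rw [Finset.card_image_of_injOn fun j hj j' hj' h => hinj j hj j' hj' h]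
  have hsurj : ∀ i, i ∈ O → ∃ j ∈ O, f j = i := by
    intro i hi
    rw [← himg] at hi
    exact Finset.mem_image.1 hi
  obtain ⟨q, hq⟩ : ∃ q : N → N, ∀ i ∈ O, q i ∈ O ∧ f (q i) = i := by
    refine ⟨fun i => if h : i ∈ O then (hsurj i h).choose else i, fun i hi => ?_⟩
    simp only [dif_pos hi]
    exact (hsurj i hi).choose_spec
  obtain ⟨B, hB⟩ : ∃ B : N → Finset M, ∀ i, B i = if i ∈ O then C (q i) else A i :=
    ⟨_, fun _ => rfl⟩
  have hAH : ∀ i, ∀ j ∈ O, Disjoint (A i) (H j) := by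
    intro i j hj
    rw [Finset.disjoint_left]
    intro g hg hgH
    exact mem_pool.1 (hH j hj hgH) i hg
  have hdisj : ∀ j ∈ O, ∀ i, i ≠ j → Disjoint (A i) (A j ∪ H j) := by
    intro j hj i hij
    rw [Finset.disjoint_union_right]
    exact ⟨hA.par i j hij, hAH i j hj⟩
  refine no_improve hA B ?_ ?_ ?_ ?_
  · intro i j hij
    rw [hB, hB]
    by_cases hi : i ∈ O <;> by_cases hj : j ∈ O
    · rw [if_pos hi, if_pos hj]
      obtain ⟨hqi, hfi⟩ := hq i hi
      obtain ⟨hqj, hfj⟩ := hq j hj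
      have hne : q i ≠ q j := by
        intro h
        rw [h, hfj] at hfi
        exact hij hfi.symm
      refine Finset.disjoint_of_subset_left (hC _ hqi) (Finset.disjoint_of_subset_right
        (hC _ hqj) ?_)
      rw [Finset.disjoint_union_left]
      refine ⟨hdisj _ hqj _ hne, ?_⟩
      rw [Finset.disjoint_union_right]
      exact ⟨(hAH _ _ hqi).symm, hHd _ hqi _ hqj hne⟩
    · rw [if_pos hi, if_neg hj]
      obtain ⟨hqi, hfi⟩ := hq i hi
      have hne : j ≠ q i := fun h => hj (h ▸ hqi)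
      exact (Finset.disjoint_of_subset_right (hC _ hqi) (hdisj _ hqi j hne)).symm
    · rw [if_neg hi, if_pos hj]
      obtain ⟨hqj, hfj⟩ := hq j hj
      have hne : i ≠ q j := fun h => hi (h ▸ hqj)
      exact Finset.disjoint_of_subset_right (hC _ hqj) (hdisj _ hqj i hne)
    · rw [if_neg hi, if_neg hj]
      exact hA.par i j hij
  · intro i j g hg
    rw [hB] at hg ⊢
    by_cases hj : j ∈ O
    · rw [if_pos hj] at hg ⊢
      exact hE _ (hq j hj).1 i g hg
    · rw [if_neg hj] at hg ⊢
      exact hA.efx i j g hg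
  · intro i
    rw [hB]
    by_cases hi : i ∈ O
    · rw [if_pos hi]
      obtain ⟨hqi, hfi⟩ := hq i hi
      have := hup _ hqi
      rw [hfi] at this
      exact this.le
    · rw [if_neg hi]
  · obtain ⟨i, hi⟩ := hO
    refine ⟨i, ?_⟩
    rw [hB, if_pos hi]
    obtain ⟨hqi, hfi⟩ := hq i hi
    have := hup _ hqi
    rwa [hfi] at this

/-- A set `S` of goods from which some agent would prefer a subset contains a minimal such subset. -/
lemma exists_min {v : N → M → ℝ} {A : N → Finset M} (S : Finset M) (m : ℕ)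
    (h : ∃ T ⊆ S, T.card ≤ m ∧ ∃ i, val v i (A i) < val v i T) :
    ∃ Z ⊆ S, Z.card ≤ m ∧ (∃ t, val v t (A t) < val v t Z) ∧
      ∀ i, ∀ g ∈ Z, val v i (Z.erase g) ≤ val v i (A i) := by
  classical
  obtain ⟨s, hs⟩ : ∃ s : Finset (Finset M), ∀ T, T ∈ s ↔
      T ⊆ S ∧ T.card ≤ m ∧ ∃ i, val v i (A i) < val v i T :=
    ⟨univ.filter fun T => T ⊆ S ∧ T.card ≤ m ∧ ∃ i, val v i (A i) < val v i T,
      fun T => by simp⟩
  obtain ⟨T, hT1, hT2, hT3⟩ := h
  obtain ⟨Z, hZ, hmin⟩ := s.exists_min_image Finset.card ⟨T, (hs T).2 ⟨hT1, hT2, hT3⟩⟩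
  obtain ⟨h1, h2, h3⟩ := (hs Z).1 hZ
  refine ⟨Z, h1, h2, h3, fun i g hg => ?_⟩
  by_contra hlt
  rw [not_le] at hlt
  have h4 := hmin (Z.erase g) ((hs _).2 ⟨(Finset.erase_subset g Z).trans h1,
    (Finset.card_le_card (Finset.erase_subset g Z)).trans h2, i, hlt⟩)
  have h5 := Finset.card_erase_lt_of_mem hg
  omega

/-- No agent envies the pool. -/
lemma pool_le {v : N → M → ℝ} {A : N → Finset M} (hA : Maxi v A) (i : N) :
    val v i (pool A) ≤ val v i (A i) := by
  by_contra hlt
  rw [not_le] at hlt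
  obtain ⟨Z, hZ, -, ⟨t, ht⟩, hmin⟩ := exists_min (v := v) (A := A) (pool A) (pool A).card
    ⟨pool A, Finset.Subset.refl _, le_rfl, i, hlt⟩
  refine cyc hA {t} ⟨t, Finset.mem_singleton_self t⟩ (fun j => j) (fun j hj => hj)
    (fun j _ j' _ h => h) (fun _ => Z) (fun _ => Z) (fun j _ => Finset.subset_union_right)
    (fun j _ => hZ) ?_ (fun j _ => hmin) ?_
  · intro j hj j' hj' hne
    rw [Finset.mem_singleton] at hj hj'
    exact absurd (hj.trans hj'.symm) hne
  · intro j hj
    rw [Finset.mem_singleton] at hj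
    subst hj
    exact ht

/-- If `h` is unallocated then some agent envies a proper subset of `A s ∪ {h}`. -/
lemma envy_insert {v : N → M → ℝ} (hv : ∀ i g, 0 ≤ v i g) {A : N → Finset M} (hA : Maxi v A)
    (s : N) (h : M) (hh : h ∈ pool A) :
    ∃ Z ⊆ insert h (A s), Z.card ≤ (A s).card ∧ (∃ t, val v t (A t) < val v t Z) ∧
      ∀ i, ∀ g ∈ Z, val v i (Z.erase g) ≤ val v i (A i) := by
  classical
  refine exists_min _ _ ?_
  by_contra hcon
  push Not at hcon
  have hhs : h ∉ A s := mem_pool.1 hh s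
  obtain ⟨B, hB⟩ : ∃ B : N → Finset M, ∀ i, B i = if i = s then insert h (A s) else A i :=
    ⟨_, fun _ => rfl⟩
  have hval : ∀ i, val v i (A i) ≤ val v i (B i) := by
    intro i
    rw [hB]
    by_cases hi : i = s
    · rw [if_pos hi, hi]
      exact val_mono hv s (Finset.subset_insert h (A s))
    · rw [if_neg hi]
  have hpar : IsPartial B := by
    intro i j hij
    rw [hB, hB]
    by_cases hi : i = s <;> by_cases hj : j = s
    · exact absurd (hi.trans hj.symm) hij
    · rw [if_pos hi, if_neg hj, Finset.disjoint_insert_left]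
      exact ⟨mem_pool.1 hh j, hA.par s j (fun h => hj h.symm)⟩
    · rw [if_neg hi, if_pos hj, Finset.disjoint_insert_right]
      exact ⟨mem_pool.1 hh i, hA.par i s hi⟩
    · rw [if_neg hi, if_neg hj]
      exact hA.par i j hij
  have hefx : IsEFX v B := by
    intro i j g hg
    refine le_trans ?_ (hval i)
    rw [hB] at hg ⊢
    by_cases hj : j = s
    · rw [if_pos hj] at hg ⊢
      refine hcon _ (Finset.erase_subset _ _) ?_ i
      rw [Finset.card_erase_of_mem hg, Finset.card_insert_of_notMem hhs]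
      omega
    · rw [if_neg hj] at hg ⊢
      exact hA.efx i j g hg
  have h1 := hA.max2 B hpar hefx (Finset.sum_le_sum fun i _ => hval i)
  have h2 : ∑ i, (A i).card < ∑ i, (B i).card := by
    refine Finset.sum_lt_sum (fun i _ => ?_) ⟨s, Finset.mem_univ s, ?_⟩
    · rw [hB]
      by_cases hi : i = s
      · rw [if_pos hi, hi]
        exact Finset.card_le_card (Finset.subset_insert h (A s))
      · rw [if_neg hi]
    · rw [hB, if_pos rfl, Finset.card_insert_of_notMem hhs]
      omega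
  omega

/-- A champion of `A s ∪ {h}`, `s` not envied, values `h` more than some other good. -/
lemma relevant {v : N → M → ℝ} (hv : ∀ i g, 0 ≤ v i g) {A : N → Finset M} {s t : N} {h : M}
    {Z : Finset M} (hs : val v t (A s) ≤ val v t (A t)) (hh : h ∉ A s)
    (hZ : Z ⊆ insert h (A s)) (hcard : Z.card ≤ (A s).card) (ht : val v t (A t) < val v t Z) :
    ∃ h', v t h' < v t h := by
  classical
  by_contra hcon
  push Not at hcon
  have hlt : val v t (A s) < val v t Z := lt_of_le_of_lt hs ht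
  by_cases hhZ : h ∈ Z
  · have h1 : Z.erase h ⊆ A s := by
      intro x hx
      obtain ⟨hx1, hx2⟩ := Finset.mem_erase.1 hx
      exact (Finset.mem_insert.1 (hZ hx2)).resolve_left hx1
    have h2 : (Z.erase h).card < (A s).card := by
      have := Finset.card_erase_lt_of_mem hhZ
      omega
    obtain ⟨x, hx, hxZ⟩ : ∃ x ∈ A s, x ∉ Z.erase h := by
      by_contra hno
      push Not at hno
      exact absurd (Finset.card_le_card (fun x hx => hno x hx : A s ⊆ Z.erase h)) (by omega)
    have h3 : Z.erase h ⊆ (A s).erase x := by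
      intro y hy
      refine Finset.mem_erase.2 ⟨?_, h1 hy⟩
      rintro rfl
      exact hxZ hy
    have h4 := val_erase v t hhZ
    have h5 := val_erase v t hx
    have h6 := val_mono hv t h3
    have h7 := hcon x
    linarith
  · have h1 : Z ⊆ A s := by
      intro x hx
      refine (Finset.mem_insert.1 (hZ hx)).resolve_left ?_
      rintro rfl
      exact hhZ hx
    exact absurd (val_mono hv t h1) (not_le.2 hlt)

end Pool.Agent.Lib.MP_358b54_lc
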