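import Mathlib
import Pool.Agent.Lib.MP_358b54_lc.Improve
import Pool.Agent.Lib.MP_358b54_lc.Count

/-!
# The main inequality for maximal EFX allocations
-/

set_option autoImplicit false

namespace Pool.Agent.Lib.MP_358b54_lc

open Finset

lemma exists_periodic {α : Type} [Finite α] (f : α → α) (x : α) :
    ∃ k, f^[k] x ∈ Function.periodicPts f := by
  obtain ⟨a, b, hab, h⟩ := Finite.exists_ne_map_eq_of_infinite (fun k : ℕ => f^[k] x)
  rcases lt_or_gt_of_ne hab with hlt | hlt
  · refine ⟨a, Function.mk_mem_periodicPts (n := b - a) (by omega) ?_⟩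
    show f^[b - a] (f^[a] x) = f^[a] x
    rw [← Function.iterate_add_apply, Nat.sub_add_cancel hlt.le]
    exact h.symm
  · refine ⟨b, Function.mk_mem_periodicPts (n := a - b) (by omega) ?_⟩
    show f^[a - b] (f^[b] x) = f^[b] x
    rw [← Function.iterate_add_apply, Nat.sub_add_cancel hlt.le]
    exact h

variable {N M : Type} [Fintype N] [DecidableEq N] [Fintype M] [DecidableEq M]

/-- The bundle of `j` is envied by nobody. -/
def Src (v : N → M → ℝ) (A : N → Finset M) (j : N) : Prop :=
  ∀ i, val v i (A j) ≤ val v i (A i)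

/-- Every agent is reached from a source along the chosen enviers `par`. -/
lemma acyc {v : N → M → ℝ} {A : N → Finset M} (hA : Maxi v A) (par : N → N)
    (hpar : ∀ j, ¬ Src v A j → val v (par j) (A (par j)) < val v (par j) (A j)) (t : N) :
    ∃ k, Src v A (par^[k] t) := by
  classical
  by_contra hcon
  push Not at hcon
  obtain ⟨k₀, hk₀⟩ := exists_periodic par t
  refine cyc hA (univ.filter fun j => j ∈ Function.periodicPts par ∧ ∀ k, ¬ Src v A (par^[k] j))
    ⟨par^[k₀] t, ?_⟩ par ?_ ?_ A (fun _ => ∅) ?_ ?_ ?_ ?_ ?_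
  · rw [Finset.mem_filter]
    refine ⟨Finset.mem_univ _, hk₀, fun k => ?_⟩
    rw [← Function.iterate_add_apply]
    exact hcon _
  · intro j hj
    rw [Finset.mem_filter] at hj ⊢
    refine ⟨Finset.mem_univ _, (Function.bijOn_periodicPts (f := par)).mapsTo hj.2.1, fun k => ?_⟩
    rw [← Function.iterate_succ_apply]
    exact hj.2.2 _
  · intro j hj j' hj' h
    rw [Finset.mem_filter] at hj hj'
    exact (Function.bijOn_periodicPts (f := par)).injOn hj.2.1 hj'.2.1 h
  · intro j _
    exact Finset.subset_union_left
  · intro j _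
    exact Finset.empty_subset _
  · intro j _ j' _ _
    exact Finset.disjoint_empty_left _
  · intro j _ i g hg
    exact hA.efx i j g hg
  · intro j hj
    rw [Finset.mem_filter] at hj
    exact hpar j (hj.2.2 0)

/-- The number of steps to the root. -/
lemma exists_root {v : N → M → ℝ} {A : N → Finset M} (hA : Maxi v A) (par : N → N)
    (hpar : ∀ j, ¬ Src v A j → val v (par j) (A (par j)) < val v (par j) (A j)) :
    ∃ (δ : N → ℕ) (root : N → N), (∀ t, par^[δ t] t = root t) ∧ (∀ t, Src v A (root t)) ∧
      (∀ t, ∀ k < δ t, ¬ Src v A (par^[k] t)) ∧ (∀ t, Src v A t → root t = t) ∧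
      ∀ t, ¬ Src v A t → root (par t) = root t := by
  classical
  have hex := acyc hA par hpar
  have huniq : ∀ t k k', Src v A (par^[k] t) → (∀ m < k, ¬ Src v A (par^[m] t)) →
      Src v A (par^[k'] t) → (∀ m < k', ¬ Src v A (par^[m] t)) → k = k' := by
    intro t k k' h1 h2 h3 h4
    rcases lt_trichotomy k k' with h | h | h
    · exact absurd h1 (h4 k h)
    · exact h
    · exact absurd h3 (h2 k' h)
  obtain ⟨δ, hδ⟩ : ∃ δ : N → ℕ, ∀ t, Src v A (par^[δ t] t) ∧ ∀ k < δ t, ¬ Src v A (par^[k] t) :=
    ⟨fun t => Nat.find (hex t), fun t => ⟨Nat.find_spec (hex t), fun k hk =>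
      Nat.find_min (hex t) hk⟩⟩
  refine ⟨δ, fun t => par^[δ t] t, fun _ => rfl, fun t => (hδ t).1, fun t => (hδ t).2, ?_, ?_⟩
  · intro t ht
    have h0 : δ t = 0 := huniq t (δ t) 0 (hδ t).1 (hδ t).2 ht (fun m hm => absurd hm (by omega))
    show par^[δ t] t = t
    rw [h0]
    rfl
  · intro t ht
    show par^[δ (par t)] (par t) = par^[δ t] t
    have h1 : δ t = δ (par t) + 1 := by
      refine huniq t _ _ (hδ t).1 (hδ t).2 ?_ ?_
      · rw [Function.iterate_succ_apply]
        exact (hδ (par t)).1
      · intro m hm
        rcases m with _ | m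
        · exact ht
        · rw [Function.iterate_succ_apply]
          exact (hδ (par t)).2 m (by omega)
    rw [h1, Function.iterate_succ_apply]

/-- The main inequality in terms of `rel`. -/
theorem Core_main [Nonempty N] {v : N → M → ℝ} (hv : ∀ i g, 0 ≤ v i g) {A : N → Finset M}
    (hA : Maxi v A) (hP : (pool A).Nonempty) :
    ∑ h ∈ pool A, (1 : ℝ) / (rel v h).card ≤ 1 + Real.log (pool A).card := by
  classical
  obtain ⟨par, hpar⟩ : ∃ par : N → N, ∀ j, ¬ Src v A j →
      val v (par j) (A (par j)) < val v (par j) (A j) := by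
    have h1 : ∀ j, ∃ i, ¬ Src v A j → val v i (A i) < val v i (A j) := by
      intro j
      by_cases hj : Src v A j
      · exact ⟨j, fun h => absurd hj h⟩
      · have h2 := hj
        unfold Src at h2
        push Not at h2
        obtain ⟨i, hi⟩ := h2
        exact ⟨i, fun _ => hi⟩
    choose par hpar using h1
    exact ⟨par, hpar⟩
  obtain ⟨δ, root, hδroot, hrootSrc, hδmin, hrootself, hrootpar⟩ := exists_root hA par hpar
  -- representatives of the valuations
  obtain ⟨G, hG⟩ : ∃ G : (M → ℝ) → N, ∀ t, v (G (v t)) = v t ∧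
      val v (G (v t)) (A (G (v t))) ≤ val v t (A t) := by
    have h1 : ∀ w : M → ℝ, ∃ g : N, ∀ t, v t = w → v g = w ∧
        val v g (A g) ≤ val v t (A t) := by
      intro w
      by_cases hw : ∃ t, v t = w
      · obtain ⟨t₀, ht₀⟩ := hw
        obtain ⟨g, hg, hmin⟩ := (univ.filter fun t => v t = w).exists_min_image
          (fun t => val v t (A t)) ⟨t₀, by rw [Finset.mem_filter]; exact ⟨Finset.mem_univ _, ht₀⟩⟩
        rw [Finset.mem_filter] at hg
        refine ⟨g, fun t ht => ⟨hg.2, hmin t ?_⟩⟩
        rw [Finset.mem_filter]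
        exact ⟨Finset.mem_univ _, ht⟩
      · exact ⟨Classical.arbitrary N, fun t ht => absurd ⟨t, ht⟩ hw⟩
    choose G hG using h1
    exact ⟨G, fun t => hG (v t) t rfl⟩
  -- champions
  obtain ⟨ch, Zs, hch⟩ : ∃ (ch : N → M → N) (Zs : N → M → Finset M), ∀ s h, h ∈ pool A →
      Zs s h ⊆ insert h (A s) ∧ (Zs s h).card ≤ (A s).card ∧
      val v (ch s h) (A (ch s h)) < val v (ch s h) (Zs s h) ∧
      (∀ i, ∀ g ∈ Zs s h, val v i ((Zs s h).erase g) ≤ val v i (A i)) ∧
      ch s h = G (v (ch s h)) := by
    have h1 : ∀ s h, ∃ (t : N) (Z : Finset M), h ∈ pool A → Z ⊆ insert h (A s) ∧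
        Z.card ≤ (A s).card ∧ val v t (A t) < val v t Z ∧
        (∀ i, ∀ g ∈ Z, val v i (Z.erase g) ≤ val v i (A i)) ∧ t = G (v t) := by
      intro s h
      by_cases hh : h ∈ pool A
      · obtain ⟨Z, hZ, hc, ⟨t, ht⟩, hmin⟩ := envy_insert hv hA s h hh
        obtain ⟨hG1, hG2⟩ := hG t
        refine ⟨G (v t), Z, fun _ => ⟨hZ, hc, ?_, hmin, ?_⟩⟩
        · have h2 : val v (G (v t)) Z = val v t Z := by
            unfold val
            rw [hG1]
          rw [h2]
          exact lt_of_le_of_lt hG2 ht
        · rw [hG1]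
      · exact ⟨s, ∅, fun h => absurd h hh⟩
    choose ch Zs hch using h1
    exact ⟨ch, Zs, hch⟩
  obtain ⟨V, hV⟩ : ∃ V : M → Finset N, ∀ h, V h =
      (univ.filter fun s => Src v A s).image fun s => root (ch s h) := ⟨_, fun _ => rfl⟩
  have hVsrc : ∀ h, ∀ x ∈ V h, Src v A x := by
    intro h x hx
    rw [hV, Finset.mem_image] at hx
    obtain ⟨s, -, rfl⟩ := hx
    exact hrootSrc _
  have hVne : ∀ h ∈ pool A, (V h).Nonempty := by
    intro h _
    refine ⟨root (ch (root (Classical.arbitrary N)) h), ?_⟩
    rw [hV, Finset.mem_image]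
    refine ⟨root (Classical.arbitrary N), ?_, rfl⟩
    rw [Finset.mem_filter]
    exact ⟨Finset.mem_univ _, hrootSrc _⟩
  have hVcard : ∀ h ∈ pool A, (V h).card ≤ (rel v h).card := by
    intro h hh
    have hsub : V h ⊆ (rel v h).image fun w => root (G w) := by
      intro x hx
      rw [hV, Finset.mem_image] at hx
      obtain ⟨s, hs, rfl⟩ := hx
      rw [Finset.mem_filter] at hs
      obtain ⟨h1, h2, h3, -, h5⟩ := hch s h hh
      rw [Finset.mem_image]
      refine ⟨v (ch s h), ?_, by rw [← h5]⟩
      unfold rel
      rw [Finset.mem_filter]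
      refine ⟨Finset.mem_image_of_mem v (Finset.mem_univ _), ?_⟩
      exact relevant hv (hs.2 (ch s h)) (mem_pool.1 hh s) h1 h2 h3
    exact (Finset.card_le_card hsub).trans Finset.card_image_le
  -- the counting argument
  have hcount : ∑ h ∈ pool A, (1 : ℝ) / (V h).card ≤ 1 + Real.log (pool A).card := by
    refine Count_main (pool A) hP V hVne (fun x h => root (ch x h)) ?_ ?_
    · intro g _ x hx h _
      rw [hV h, Finset.mem_image]
      refine ⟨x, ?_, rfl⟩
      rw [Finset.mem_filter]
      exact ⟨Finset.mem_univ _, hVsrc g x hx⟩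
    · intro r hr
      by_contra hcon
      push Not at hcon
      -- `η g` is the predecessor of `g`
      have h1 : ∀ j, ∃ l, (∃ g ∈ pool A, r g = j) → l ∈ pool A ∧ r l = root (ch j l) := by
        intro j
        by_cases hj : ∃ g ∈ pool A, r g = j
        · obtain ⟨g, hg, rfl⟩ := hj
          obtain ⟨l, hl1, -, hl3⟩ := hcon g hg
          exact ⟨l, fun _ => ⟨hl1, hl3⟩⟩
        · obtain ⟨g, -⟩ := hP
          exact ⟨g, fun h => absurd h hj⟩
      choose lab hlab using h1
      obtain ⟨pre, hpre⟩ : ∃ pre : N → N, ∀ j, pre j = if Src v A j then ch j (lab j) else par j :=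
        ⟨_, fun _ => rfl⟩
      -- the good agents
      have hclosed : ∀ j, (∃ g ∈ pool A, root j = r g) → ∃ g ∈ pool A, root (pre j) = r g := by
        rintro j ⟨g, hg, hj⟩
        rw [hpre]
        by_cases hs : Src v A j
        · rw [if_pos hs]
          rw [hrootself j hs] at hj
          obtain ⟨h2, h3⟩ := hlab j ⟨g, hg, hj.symm⟩
          exact ⟨lab j, h2, h3.symm⟩
        · rw [if_neg hs, hrootpar j hs]
          exact ⟨g, hg, hj⟩
      have hclosedit : ∀ k j, (∃ g ∈ pool A, root j = r g) →
          ∃ g ∈ pool A, root (pre^[k] j) = r g := by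
        intro k
        induction k with
        | zero => intro j hj; exact hj
        | succ k ih =>
          intro j hj
          rw [Function.iterate_succ_apply]
          exact ih _ (hclosed j hj)
      -- iterates of `pre` below a root
      have hit : ∀ t k, k ≤ δ t → pre^[k] t = par^[k] t := by
        intro t k
        induction k with
        | zero => intro _; rfl
        | succ k ih =>
          intro hk
          rw [Function.iterate_succ_apply', Function.iterate_succ_apply', ih (by omega), hpre,
            if_neg (hδmin t k (by omega))]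
      have hinjpre := (Function.bijOn_periodicPts (f := pre)).injOn
      have hmapspre := (Function.bijOn_periodicPts (f := pre)).mapsTo
      have hlabinj1 : ∀ s s', s ∈ Function.periodicPts pre → s' ∈ Function.periodicPts pre →
          (∃ g ∈ pool A, root s = r g) → (∃ g ∈ pool A, root s' = r g) →
          Src v A s → Src v A s' → lab s = lab s' → δ (pre s) ≤ δ (pre s') → s = s' := by
        intro s s' hs hs' hg hg' hsrc hsrc' hl hδ
        have hroots : root (pre s) = root (pre s') := by
          obtain ⟨g, hgP, hgr⟩ := hg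
          obtain ⟨g', hgP', hgr'⟩ := hg'
          rw [hrootself s hsrc] at hgr
          rw [hrootself s' hsrc'] at hgr'
          have e1 := (hlab s ⟨g, hgP, hgr.symm⟩).2
          have e2 := (hlab s' ⟨g', hgP', hgr'.symm⟩).2
          rw [hpre s, hpre s', if_pos hsrc, if_pos hsrc', ← e1, ← e2, hl]
        have e3 : pre^[δ (pre s)] (pre s) = root (pre s) := by
          rw [hit _ _ le_rfl, hδroot]
        have e4 : pre^[δ (pre s')] (pre s') = root (pre s') := by
          rw [hit _ _ le_rfl, hδroot]
        obtain ⟨m, hm⟩ : ∃ m, δ (pre s') = δ (pre s) + m := ⟨_, (Nat.add_sub_cancel' hδ).symm⟩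
        have e5 : pre^[δ (pre s) + 1] s = pre^[δ (pre s) + 1] (pre^[m] s') := by
          have e5a : pre^[δ (pre s) + 1] s = root (pre s) := by
            rw [Function.iterate_succ_apply, e3]
          have e5b : pre^[δ (pre s) + 1] (pre^[m] s') = root (pre s') := by
            rw [← Function.iterate_add_apply,
              show δ (pre s) + 1 + m = (δ (pre s) + m) + 1 by omega,
              Function.iterate_succ_apply, ← hm, e4]
          rw [e5a, e5b, hroots]
        have e6 : pre^[m] s' ∈ Function.periodicPts pre := (hmapspre.iterate m) hs'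
        have e7 : s = pre^[m] s' := (hinjpre.iterate hmapspre _) hs e6 e5
        rcases m with _ | m
        · exact e7
        · exfalso
          rw [Function.iterate_succ_apply, hit _ _ (by omega)] at e7
          refine hδmin (pre s') m (by omega) ?_
          rw [← e7]
          exact hsrc
      have hlabinj : ∀ s s', s ∈ Function.periodicPts pre → s' ∈ Function.periodicPts pre →
          (∃ g ∈ pool A, root s = r g) → (∃ g ∈ pool A, root s' = r g) →
          Src v A s → Src v A s' → lab s = lab s' → s = s' := by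
        intro s s' hs hs' hg hg' hsrc hsrc' hl
        rcases le_total (δ (pre s)) (δ (pre s')) with h | h
        · exact hlabinj1 s s' hs hs' hg hg' hsrc hsrc' hl h
        · exact (hlabinj1 s' s hs' hs hg' hg hsrc' hsrc hl.symm h).symm
      obtain ⟨g₀, hg₀⟩ := hP
      have hj₀ : ∃ g ∈ pool A, root (r g₀) = r g :=
        ⟨g₀, hg₀, hrootself _ (hVsrc g₀ _ (hr g₀ hg₀))⟩
      obtain ⟨k₀, hk₀⟩ := exists_periodic pre (r g₀)
      refine cyc hA (univ.filter fun j => j ∈ Function.periodicPts pre ∧
          ∃ g ∈ pool A, root j = r g) ⟨pre^[k₀] (r g₀), ?_⟩ pre ?_ ?_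
        (fun j => if Src v A j then Zs j (lab j) else A j)
        (fun j => if Src v A j then {lab j} else ∅) ?_ ?_ ?_ ?_ ?_
      · rw [Finset.mem_filter]
        exact ⟨Finset.mem_univ _, hk₀, hclosedit k₀ _ hj₀⟩
      · intro j hj
        rw [Finset.mem_filter] at hj ⊢
        exact ⟨Finset.mem_univ _, hmapspre hj.2.1, hclosed j hj.2.2⟩
      · intro j hj j' hj' h
        rw [Finset.mem_filter] at hj hj'
        exact hinjpre hj.2.1 hj'.2.1 h
      · intro j hj
        rw [Finset.mem_filter] at hj
        obtain ⟨-, -, g, hg, hjg⟩ := hj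
        show (if Src v A j then Zs j (lab j) else A j) ⊆
          A j ∪ (if Src v A j then {lab j} else ∅)
        by_cases hs : Src v A j
        · rw [if_pos hs, if_pos hs]
          rw [hrootself j hs] at hjg
          obtain ⟨h2, -⟩ := hlab j ⟨g, hg, hjg.symm⟩
          refine (hch j (lab j) h2).1.trans ?_
          intro x hx
          rw [Finset.mem_union, Finset.mem_singleton]
          exact (Finset.mem_insert.1 hx).symm
        · rw [if_neg hs, if_neg hs]
          exact Finset.subset_union_left
      · intro j hj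
        rw [Finset.mem_filter] at hj
        obtain ⟨-, -, g, hg, hjg⟩ := hj
        show (if Src v A j then ({lab j} : Finset M) else ∅) ⊆ pool A
        by_cases hs : Src v A j
        · rw [if_pos hs]
          rw [hrootself j hs] at hjg
          obtain ⟨h2, -⟩ := hlab j ⟨g, hg, hjg.symm⟩
          exact Finset.singleton_subset_iff.2 h2
        · rw [if_neg hs]
          exact Finset.empty_subset _
      · intro j hj j' hj' hne
        rw [Finset.mem_filter] at hj hj'
        show Disjoint (if Src v A j then ({lab j} : Finset M) else ∅)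
          (if Src v A j' then ({lab j'} : Finset M) else ∅)
        by_cases hs : Src v A j
        · by_cases hs' : Src v A j'
          · rw [if_pos hs, if_pos hs', Finset.disjoint_singleton]
            intro hl
            exact hne (hlabinj j j' hj.2.1 hj'.2.1 hj.2.2 hj'.2.2 hs hs' hl)
          · rw [if_neg hs']
            exact Finset.disjoint_empty_right _
        · rw [if_neg hs]
          exact Finset.disjoint_empty_left _
      · intro j hj i g hg
        rw [Finset.mem_filter] at hj
        obtain ⟨-, -, g', hg', hjg⟩ := hj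
        by_cases hs : Src v A j
        · simp only [if_pos hs] at hg ⊢
          rw [hrootself j hs] at hjg
          obtain ⟨h2, -⟩ := hlab j ⟨g', hg', hjg.symm⟩
          exact (hch j (lab j) h2).2.2.2.1 i g hg
        · simp only [if_neg hs] at hg ⊢
          exact hA.efx i j g hg
      · intro j hj
        rw [Finset.mem_filter] at hj
        obtain ⟨-, -, g', hg', hjg⟩ := hj
        rw [hpre]
        by_cases hs : Src v A j
        · simp only [if_pos hs]
          rw [hrootself j hs] at hjg
          obtain ⟨h2, -⟩ := hlab j ⟨g', hg', hjg.symm⟩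
          exact (hch j (lab j) h2).2.2.1
        · simp only [if_neg hs]
          exact hpar j hs
  refine le_trans (Finset.sum_le_sum fun h hh => ?_) hcount
  have h1 : (0 : ℝ) < (V h).card := by exact_mod_cast (hVne h hh).card_pos
  exact one_div_le_one_div_of_le h1 (by exact_mod_cast hVcard h hh)

/-- The main inequality. -/
theorem Core_sq [Nonempty N] {v : N → M → ℝ} (hv : ∀ i g, 0 ≤ v i g) {A : N → Finset M}
    (hA : Maxi v A) :
    ((pool A).card : ℝ) ^ 2 ≤ (1 + Real.log (pool A).card) *
      ∑ h ∈ pool A, ((rel v h).card : ℝ) := by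
  classical
  rcases (pool A).eq_empty_or_nonempty with hP | hP
  · rw [hP]
    simp
  have hmain := Core_main hv hA hP
  have hpos : ∀ h ∈ pool A, (0 : ℝ) < (rel v h).card := by
    intro h hh
    -- a source exists and its champion is relevant
    by_contra hcon
    have h0 : (rel v h).card = 0 := by
      have : ((rel v h).card : ℝ) ≤ 0 := not_lt.1 hcon
      exact_mod_cast le_antisymm this (Nat.cast_nonneg _)
    have hrel : ∀ t h', v t h ≤ v t h' := by
      intro t h'
      by_contra hlt
      rw [not_le] at hlt
      have : v t ∈ rel v h := by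
        unfold rel
        rw [Finset.mem_filter]
        exact ⟨Finset.mem_image_of_mem v (Finset.mem_univ _), h', hlt⟩
      rw [Finset.card_eq_zero] at h0
      rw [h0] at this
      exact absurd this (Finset.notMem_empty _)
    obtain ⟨par, hpar⟩ : ∃ par : N → N, ∀ j, ¬ Src v A j →
        val v (par j) (A (par j)) < val v (par j) (A j) := by
      have h1 : ∀ j, ∃ i, ¬ Src v A j → val v i (A i) < val v i (A j) := by
        intro j
        by_cases hj : Src v A j
        · exact ⟨j, fun h => absurd hj h⟩
        · have h2 := hj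
          unfold Src at h2
          push Not at h2
          obtain ⟨i, hi⟩ := h2
          exact ⟨i, fun _ => hi⟩
      choose par hpar using h1
      exact ⟨par, hpar⟩
    obtain ⟨k, hk⟩ := acyc hA par hpar (Classical.arbitrary N)
    obtain ⟨Z, hZ, hc, ⟨t, ht⟩, -⟩ := envy_insert hv hA (par^[k] (Classical.arbitrary N)) h hh
    obtain ⟨h', hh'⟩ := relevant hv (hk t) (mem_pool.1 hh _) hZ hc ht
    exact absurd (hrel t h') (not_le.2 hh')
  have hcs : (∑ h ∈ pool A, (1 : ℝ)) ^ 2 ≤
      (∑ h ∈ pool A, (1 : ℝ) / (rel v h).card) * ∑ h ∈ pool A, ((rel v h).card : ℝ) := by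
    refine Finset.sum_sq_le_sum_mul_sum_of_sq_le_mul _ (fun h hh => ?_) (fun h hh => ?_)
      (fun h hh => ?_)
    · exact (one_div_pos.2 (hpos h hh)).le
    · exact (hpos h hh).le
    · rw [one_div, inv_mul_cancel₀ (hpos h hh).ne', one_pow]
  rw [Finset.sum_const, nsmul_eq_mul, mul_one] at hcs
  exact hcs.trans (mul_le_mul_of_nonneg_right hmain (Finset.sum_nonneg fun h hh => (hpos h hh).le))

end Pool.Agent.Lib.MP_358b54_lc
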