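import Mathlib
import Pool.Agent.Lib.MP_358b54_lc.Improve
import Pool.Agent.Lib.MP_358b54_lc.Core

/-!
# Extension of an EFX allocation over a block of less valued goods

The agents in `cl` value every good of the block `B` at most as much as every good of the base
allocation `X`; nothing is assumed about the order inside the block. At most one agent is not in
`cl`; she holds a favourite bundle.
-/

set_option autoImplicit false
set_option linter.unusedSectionVars false

namespace Pool.Agent.Lib.MP_358b54_lc.Block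

open Finset Pool.Agent.Lib.MP_358b54_lc

variable {N M : Type} [Fintype N] [DecidableEq N] [Fintype M] [DecidableEq M]

/-- The agents in `cl` are EFX-satisfied, the other agents hold favourite bundles. -/
def Inv (v : N → M → ℝ) (cl : N → Prop) (A : N → Finset M) : Prop :=
  IsPartial A ∧ (∀ i, cl i → ∀ j, ∀ g ∈ A j, val v i ((A j).erase g) ≤ val v i (A i)) ∧
    ∀ i, ¬ cl i → ∀ j, val v i (A j) ≤ val v i (A i)

/-- The allocations which consist of the base parts, in some order, and of goods of `B`. -/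
def Cls (v : N → M → ℝ) (cl : N → Prop) (X : N → Finset M) (B : Finset M) (A : N → Finset M) :
    Prop :=
  Inv v cl A ∧ ∃ π : Equiv.Perm N, ∀ i, A i \ B = X (π i)

/-- An allocation in the class with the greatest total value, and then with most goods. -/
structure Opt (v : N → M → ℝ) (cl : N → Prop) (X : N → Finset M) (B : Finset M)
    (A : N → Finset M) : Prop where
  mem : Cls v cl X B A
  max1 : ∀ A', Cls v cl X B A' → ∑ i, val v i (A' i) ≤ ∑ i, val v i (A i)
  max2 : ∀ A', Cls v cl X B A' → ∑ i, val v i (A i) ≤ ∑ i, val v i (A' i) →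
    ∑ i, (A' i).card ≤ ∑ i, (A i).card

lemma exists_opt (v : N → M → ℝ) (cl : N → Prop) (X : N → Finset M) (B : Finset M)
    (hX : Inv v cl X) (hXB : ∀ i, Disjoint (X i) B) : ∃ A, Opt v cl X B A := by
  classical
  obtain ⟨s, hs⟩ : ∃ s : Finset (N → Finset M), ∀ A, A ∈ s ↔ Cls v cl X B A :=
    ⟨univ.filter fun A => Cls v cl X B A, fun A => by simp⟩
  have hne : s.Nonempty := ⟨X, by
    rw [hs]
    exact ⟨hX, 1, fun i => Finset.sdiff_eq_self_of_disjoint (hXB i)⟩⟩
  obtain ⟨A, hA, hmax⟩ := s.exists_max_image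
    (fun A => toLex ((∑ i, val v i (A i) : ℝ), (∑ i, (A i).card : ℕ))) hne
  have hle : ∀ A', Cls v cl X B A' →
      (∑ i, val v i (A' i) < ∑ i, val v i (A i)) ∨
      (∑ i, val v i (A' i) = ∑ i, val v i (A i) ∧ ∑ i, (A' i).card ≤ ∑ i, (A i).card) := by
    intro A' h1
    have h3 := hmax A' ((hs A').2 h1)
    rw [Prod.Lex.toLex_le_toLex] at h3
    exact h3
  refine ⟨A, (hs A).1 hA, fun A' h1 => ?_, fun A' h1 h3 => ?_⟩
  · rcases hle A' h1 with h | h
    · exact h.le
    · exact h.1.le
  · rcases hle A' h1 with h | h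
    · exact absurd h3 (not_le.2 h)
    · exact h.2

/-- A rotation along the cycles of a functional graph. -/
lemma exists_rot (f : N → N) : ∃ σ : Equiv.Perm N,
    (∀ i ∈ Function.periodicPts f, f (σ i) = i) ∧ ∀ i ∉ Function.periodicPts f, σ i = i := by
  classical
  have hbij := Function.bijOn_periodicPts (f := f)
  let e : Equiv.Perm (Function.periodicPts f) := hbij.equiv f
  refine ⟨Equiv.Perm.ofSubtype (p := (· ∈ Function.periodicPts f)) e.symm, fun i hi => ?_,
    fun i hi => ?_⟩
  · have h1 : Equiv.Perm.ofSubtype (p := (· ∈ Function.periodicPts f)) e.symm i =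
        (e.symm ⟨i, hi⟩ : Function.periodicPts f) :=
      Equiv.Perm.ofSubtype_apply_of_mem (p := (· ∈ Function.periodicPts f)) e.symm hi
    have h2 : e (e.symm ⟨i, hi⟩) = ⟨i, hi⟩ := e.apply_symm_apply _
    have h3 : ((e (e.symm ⟨i, hi⟩) : Function.periodicPts f) : N) =
        f ((e.symm ⟨i, hi⟩ : Function.periodicPts f) : N) := rfl
    rw [h1, ← h3, h2]
  · exact Equiv.Perm.ofSubtype_apply_of_not_mem (p := (· ∈ Function.periodicPts f)) e.symm hi

variable {v : N → M → ℝ} {cl : N → Prop} {X : N → Finset M} {B : Finset M} {A : N → Finset M}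

/-- A good of `B` cannot be added. -/
lemma no_add (hv : ∀ i g, 0 ≤ v i g) (hA : Opt v cl X B A) (s : N) (g : M) (hgB : g ∈ B)
    (hg : ∀ i, g ∉ A i)
    (h1 : ∀ i, cl i → ∀ x ∈ insert g (A s), val v i ((insert g (A s)).erase x) ≤ val v i (A i))
    (h2 : ∀ i, ¬ cl i → val v i (insert g (A s)) ≤ val v i (A i)) : False := by
  classical
  obtain ⟨A', hA'⟩ : ∃ A' : N → Finset M, ∀ i, A' i = if i = s then insert g (A s) else A i :=
    ⟨_, fun _ => rfl⟩
  have hval : ∀ i, val v i (A i) ≤ val v i (A' i) := by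
    intro i
    rw [hA']
    by_cases hi : i = s
    · rw [if_pos hi, hi]
      exact val_mono hv s (Finset.subset_insert g (A s))
    · rw [if_neg hi]
  have hcls : Cls v cl X B A' := by
    refine ⟨⟨?_, ?_, ?_⟩, ?_⟩
    · intro i j hij
      rw [hA', hA']
      by_cases hi : i = s <;> by_cases hj : j = s
      · exact absurd (hi.trans hj.symm) hij
      · rw [if_pos hi, if_neg hj, Finset.disjoint_insert_left]
        exact ⟨hg j, hA.mem.1.1 s j (fun h => hj h.symm)⟩
      · rw [if_neg hi, if_pos hj, Finset.disjoint_insert_right]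
        exact ⟨hg i, hA.mem.1.1 i s hi⟩
      · rw [if_neg hi, if_neg hj]
        exact hA.mem.1.1 i j hij
    · intro i hi j x hx
      refine le_trans ?_ (hval i)
      rw [hA'] at hx ⊢
      by_cases hj : j = s
      · rw [if_pos hj] at hx ⊢
        exact h1 i hi x hx
      · rw [if_neg hj] at hx ⊢
        exact hA.mem.1.2.1 i hi j x hx
    · intro i hi j
      refine le_trans ?_ (hval i)
      rw [hA']
      by_cases hj : j = s
      · rw [if_pos hj]
        exact h2 i hi
      · rw [if_neg hj]
        exact hA.mem.1.2.2 i hi j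
    · obtain ⟨π, hπ⟩ := hA.mem.2
      refine ⟨π, fun i => ?_⟩
      rw [hA', ← hπ]
      by_cases hi : i = s
      · rw [if_pos hi, Finset.insert_sdiff_of_mem _ hgB, hi]
      · rw [if_neg hi]
  have h3 := hA.max2 A' hcls (Finset.sum_le_sum fun i _ => hval i)
  have h4 : ∑ i, (A i).card < ∑ i, (A' i).card := by
    refine Finset.sum_lt_sum (fun i _ => ?_) ⟨s, Finset.mem_univ s, ?_⟩
    · rw [hA']
      by_cases hi : i = s
      · rw [if_pos hi, hi]
        exact Finset.card_le_card (Finset.subset_insert g (A s))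
      · rw [if_neg hi]
    · rw [hA', if_pos rfl, Finset.card_insert_of_notMem (hg s)]
      omega
  omega

/-- Champions which keep the base part. -/
lemma champ (hv : ∀ i g, 0 ≤ v i g)
    (hlight : ∀ i, cl i → ∀ k, ∀ x ∈ X k, ∀ g ∈ B, v i g ≤ v i x) (hA : Opt v cl X B A) (s : N)
    (hs : Src v A s) (g : M) (hgB : g ∈ B) (hg : ∀ i, g ∉ A i) :
    ∃ (t : N) (Z : Finset M), Z ⊆ insert g (A s) ∧ A s \ B ⊆ Z ∧
      val v t (A t) < val v t Z ∧
      (∀ i, cl i → ∀ x ∈ Z, val v i (Z.erase x) ≤ val v i (A i)) ∧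
      (cl t → ∀ i, ¬ cl i → val v i Z ≤ val v i (A i)) ∧ (Disjoint (A s) B → ¬ cl t) := by
  classical
  have hbase : ∀ i, cl i → ∀ x ∈ A s, x ∉ B → ∀ y ∈ B, v i y ≤ v i x := by
    intro i hi x hx hxB y hy
    obtain ⟨π, hπ⟩ := hA.mem.2
    refine hlight i hi (π s) x ?_ y hy
    rw [← hπ]
    exact Finset.mem_sdiff.2 ⟨hx, hxB⟩
  obtain ⟨F, hF⟩ : ∃ F : Finset (Finset M), ∀ Z, Z ∈ F ↔
      A s \ B ⊆ Z ∧ Z ⊆ insert g (A s) ∧ ∃ t, val v t (A t) < val v t Z :=
    ⟨univ.filter fun Z => A s \ B ⊆ Z ∧ Z ⊆ insert g (A s) ∧ ∃ t, val v t (A t) < val v t Z,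
      fun Z => by simp⟩
  have hne : F.Nonempty := by
    refine ⟨insert g (A s), (hF _).2 ⟨?_, Finset.Subset.refl _, ?_⟩⟩
    · exact Finset.sdiff_subset.trans (Finset.subset_insert _ _)
    · by_contra hcon
      push Not at hcon
      exact no_add hv hA s g hgB hg
        (fun i _ x _ => (val_mono hv i (Finset.erase_subset _ _)).trans (hcon i))
        (fun i _ => hcon i)
  obtain ⟨Z, hZ, hmin⟩ := F.exists_min_image Finset.card hne
  obtain ⟨h1, h2, t₀, ht₀⟩ := (hF Z).1 hZ
  have hZB : ∃ y ∈ Z, y ∈ B := by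
    by_contra hcon
    push Not at hcon
    have h3 : Z ⊆ A s := by
      intro x hx
      refine (Finset.mem_insert.1 (h2 hx)).resolve_left ?_
      rintro rfl
      exact hcon x hx hgB
    exact absurd ((val_mono hv t₀ h3).trans (hs t₀)) (not_le.2 ht₀)
  have herB : ∀ i, ∀ x ∈ Z, x ∈ B → val v i (Z.erase x) ≤ val v i (A i) := by
    intro i x hx hxB
    by_contra hlt
    rw [not_le] at hlt
    have h4 := hmin (Z.erase x) ((hF _).2 ⟨?_, (Finset.erase_subset x Z).trans h2, i, hlt⟩)
    · have h5 := Finset.card_erase_lt_of_mem hx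
      omega
    · intro y hy
      refine Finset.mem_erase.2 ⟨?_, h1 hy⟩
      rintro rfl
      exact (Finset.mem_sdiff.1 hy).2 hxB
  have her : ∀ i, cl i → ∀ x ∈ Z, val v i (Z.erase x) ≤ val v i (A i) := by
    intro i hi x hx
    by_cases hxB : x ∈ B
    · exact herB i x hx hxB
    · obtain ⟨y, hy, hyB⟩ := hZB
      have hxA : x ∈ A s := by
        refine (Finset.mem_insert.1 (h2 hx)).resolve_left ?_
        rintro rfl
        exact hxB hgB
      have h4 := herB i y hy hyB
      have h5 := val_erase v i hx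
      have h6 := val_erase v i hy
      have h7 := hbase i hi x hxA hxB y hyB
      linarith
  by_cases hb : ∃ b, ¬ cl b ∧ val v b (A b) < val v b Z
  · obtain ⟨b, hb1, hb2⟩ := hb
    exact ⟨b, Z, h2, h1, hb2, her, fun h => absurd h hb1, fun _ => hb1⟩
  · push Not at hb
    refine ⟨t₀, Z, h2, h1, ht₀, her, fun _ i hi => hb i hi, fun hdis _ => ?_⟩
    have h3 : A s \ B = A s := Finset.sdiff_eq_self_of_disjoint hdis
    rw [h3] at h1
    have hgZ : g ∈ Z := by
      obtain ⟨y, hy, hyB⟩ := hZB
      rcases Finset.mem_insert.1 (h2 hy) with h4 | h4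
      · exact h4 ▸ hy
      · exact absurd hyB (Finset.disjoint_left.1 hdis h4)
    have hZeq : Z = insert g (A s) :=
      Finset.Subset.antisymm h2 (Finset.insert_subset hgZ h1)
    rw [hZeq] at hb
    refine no_add hv hA s g hgB hg (fun i hi x hx => ?_) (fun i hi => hb i hi)
    have h4 : val v i ((insert g (A s)).erase x) ≤ val v i (A s) := by
      have h5 := val_erase v i hx
      have h6 : val v i (insert g (A s)) = v i g + val v i (A s) := by
        unfold val
        rw [Finset.sum_insert (hg s)]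
      have h7 : v i g ≤ v i x := by
        rcases Finset.mem_insert.1 hx with h8 | h8
        · rw [h8]
        · exact hbase i hi x h8 (Finset.disjoint_left.1 hdis h8) g hgB
      linarith
    exact h4.trans (hs i)

/-- The sources cannot be labelled by goods of the pool such that only clean sources have a common
label. -/
lemma no_lab [Nonempty N] (hv : ∀ i g, 0 ≤ v i g) (hb : ∀ i j, ¬ cl i → ¬ cl j → i = j)
    (hlight : ∀ i, cl i → ∀ k, ∀ x ∈ X k, ∀ g ∈ B, v i g ≤ v i x) (hA : Opt v cl X B A)
    (lab : N → M) (hlab : ∀ s, Src v A s → lab s ∈ B ∧ ∀ i, lab s ∉ A i)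
    (hinj : ∀ s s', Src v A s → Src v A s' → s ≠ s' → lab s = lab s' →
      Disjoint (A s) B ∧ Disjoint (A s') B) : False := by
  classical
  have h0 : ∀ j, ∃ (t : N) (Z : Finset M), (Src v A j → Z ⊆ insert (lab j) (A j) ∧ A j \ B ⊆ Z ∧
      val v t (A t) < val v t Z ∧
      (∀ i, cl i → ∀ x ∈ Z, val v i (Z.erase x) ≤ val v i (A i)) ∧
      (cl t → ∀ i, ¬ cl i → val v i Z ≤ val v i (A i)) ∧ (Disjoint (A j) B → ¬ cl t)) ∧
      (¬ Src v A j → Z = A j ∧ val v t (A t) < val v t (A j)) := by
    intro j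
    by_cases hj : Src v A j
    · obtain ⟨t, Z, h⟩ := champ hv hlight hA j hj (lab j) (hlab j hj).1 (hlab j hj).2
      exact ⟨t, Z, fun _ => h, fun h' => absurd hj h'⟩
    · have h3 := hj
      unfold Src at h3
      push Not at h3
      obtain ⟨i, hi⟩ := h3
      exact ⟨i, A j, fun h => absurd h hj, fun _ => ⟨rfl, hi⟩⟩
  choose pre Z hsrc hnon using h0
  obtain ⟨σ, hσ, hσ'⟩ := exists_rot pre
  obtain ⟨k₀, hk₀⟩ := exists_periodic pre (Classical.arbitrary N)
  obtain ⟨A', hA'⟩ : ∃ A' : N → Finset M, ∀ i, A' i =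
      if i ∈ Function.periodicPts pre then Z (σ i) else A i := ⟨_, fun _ => rfl⟩
  have hper : ∀ i ∈ Function.periodicPts pre, A' i = Z (σ i) := by
    intro i hi
    rw [hA', if_pos hi]
  have hnper : ∀ i ∉ Function.periodicPts pre, A' i = A (σ i) := by
    intro i hi
    rw [hA', if_neg hi, hσ' i hi]
  have hup : ∀ i ∈ Function.periodicPts pre, val v i (A i) < val v i (A' i) := by
    intro i hi
    rw [hper i hi]
    have h1 := hσ i hi
    by_cases hj : Src v A (σ i)
    · have h2 := (hsrc _ hj).2.2.1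
      rwa [h1] at h2
    · have h2 := hnon _ hj
      rw [h1] at h2
      rw [h2.1]
      exact h2.2
  have hval : ∀ i, val v i (A i) ≤ val v i (A' i) := by
    intro i
    by_cases hi : i ∈ Function.periodicPts pre
    · exact (hup i hi).le
    · rw [hnper i hi, hσ' i hi]
  -- the traces
  have htr : ∀ i, A' i \ B = A (σ i) \ B := by
    intro i
    by_cases hi : i ∈ Function.periodicPts pre
    · rw [hper i hi]
      by_cases hj : Src v A (σ i)
      · obtain ⟨h1, h2, -⟩ := hsrc _ hj
        ext x
        rw [Finset.mem_sdiff, Finset.mem_sdiff]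
        constructor
        · rintro ⟨hx, hxB⟩
          refine ⟨(Finset.mem_insert.1 (h1 hx)).resolve_left ?_, hxB⟩
          rintro rfl
          exact hxB (hlab _ hj).1
        · rintro ⟨hx, hxB⟩
          exact ⟨h2 (Finset.mem_sdiff.2 ⟨hx, hxB⟩), hxB⟩
      · rw [(hnon _ hj).1]
    · rw [hnper i hi]
  obtain ⟨K, hK⟩ : ∃ K : N → Finset M, ∀ i, K i =
      if i ∈ Function.periodicPts pre ∧ Src v A (σ i) then {lab (σ i)} else ∅ := ⟨_, fun _ => rfl⟩
  have hsub : ∀ i, A' i ⊆ A (σ i) ∪ K i := by
    intro i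
    by_cases hi : i ∈ Function.periodicPts pre
    · rw [hper i hi]
      by_cases hj : Src v A (σ i)
      · rw [hK, if_pos ⟨hi, hj⟩]
        refine (hsrc _ hj).1.trans fun x hx => ?_
        rw [Finset.mem_union, Finset.mem_singleton]
        exact (Finset.mem_insert.1 hx).symm
      · rw [(hnon _ hj).1]
        exact Finset.subset_union_left
    · rw [hnper i hi]
      exact Finset.subset_union_left
  have hAK : ∀ i j, Disjoint (A i) (K j) := by
    intro i j
    rw [hK]
    by_cases hj : j ∈ Function.periodicPts pre ∧ Src v A (σ j)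
    · rw [if_pos hj, Finset.disjoint_singleton_right]
      exact (hlab _ hj.2).2 i
    · rw [if_neg hj]
      exact Finset.disjoint_empty_right _
  have hKK : ∀ i j, i ≠ j → Disjoint (K i) (K j) := by
    intro i j hij
    rw [hK, hK]
    by_cases hi : i ∈ Function.periodicPts pre ∧ Src v A (σ i)
    · by_cases hj : j ∈ Function.periodicPts pre ∧ Src v A (σ j)
      · rw [if_pos hi, if_pos hj, Finset.disjoint_singleton]
        intro heq
        obtain ⟨h1, h2⟩ := hinj _ _ hi.2 hj.2 (fun h => hij (σ.injective h)) heq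
        have h3 := (hsrc _ hi.2).2.2.2.2.2 h1
        have h4 := (hsrc _ hj.2).2.2.2.2.2 h2
        rw [hσ i hi.1] at h3
        rw [hσ j hj.1] at h4
        exact hij (hb i j h3 h4)
      · rw [if_neg hj]
        exact Finset.disjoint_empty_right _
    · rw [if_neg hi]
      exact Finset.disjoint_empty_left _
  have hcls : Cls v cl X B A' := by
    refine ⟨⟨?_, ?_, ?_⟩, ?_⟩
    · intro i j hij
      refine Finset.disjoint_of_subset_left (hsub i) (Finset.disjoint_of_subset_right (hsub j) ?_)
      rw [Finset.disjoint_union_left, Finset.disjoint_union_right, Finset.disjoint_union_right]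
      exact ⟨⟨hA.mem.1.1 _ _ fun h => hij (σ.injective h), hAK _ _⟩, (hAK _ _).symm, hKK i j hij⟩
    · intro i hi j x hx
      refine le_trans ?_ (hval i)
      by_cases hj : j ∈ Function.periodicPts pre
      · rw [hper j hj] at hx ⊢
        by_cases hs : Src v A (σ j)
        · exact (hsrc _ hs).2.2.2.1 i hi x hx
        · rw [(hnon _ hs).1] at hx ⊢
          exact hA.mem.1.2.1 i hi _ x hx
      · rw [hnper j hj] at hx ⊢
        exact hA.mem.1.2.1 i hi _ x hx
    · intro i hi j
      by_cases hj : j ∈ Function.periodicPts pre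
      · by_cases hs : Src v A (σ j)
        · by_cases hclj : cl j
          · refine le_trans ?_ (hval i)
            rw [hper j hj]
            have h1 := (hsrc _ hs).2.2.2.2.1
            rw [hσ j hj] at h1
            exact h1 hclj i hi
          · rw [hb i j hi hclj]
        · refine le_trans ?_ (hval i)
          rw [hper j hj, (hnon _ hs).1]
          exact hA.mem.1.2.2 i hi _
      · refine le_trans ?_ (hval i)
        rw [hnper j hj]
        exact hA.mem.1.2.2 i hi _
    · obtain ⟨π, hπ⟩ := hA.mem.2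
      refine ⟨σ.trans π, fun i => ?_⟩
      rw [htr, hπ]
      rfl
  have h1 := hA.max1 A' hcls
  have h2 : ∑ i, val v i (A i) < ∑ i, val v i (A' i) :=
    Finset.sum_lt_sum (fun i _ => hval i) ⟨_, Finset.mem_univ _, hup _ hk₀⟩
  exact absurd h1 (not_le.2 h2)

/-- The extension over a block: the goods of `B` which are not used are at most half of `B` (less
than half if all agents are in `cl` and some good is not used), and they are at most as many as
there are agents. -/
theorem stage [Nonempty N] (hv : ∀ i g, 0 ≤ v i g) (hb : ∀ i j, ¬ cl i → ¬ cl j → i = j)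
    (hX : Inv v cl X) (hXB : ∀ i, Disjoint (X i) B)
    (hlight : ∀ i, cl i → ∀ k, ∀ x ∈ X k, ∀ g ∈ B, v i g ≤ v i x) :
    ∃ A, Inv v cl A ∧ (∃ π : Equiv.Perm N, ∀ i, A i \ B = X (π i)) ∧
      2 * (B \ univ.biUnion A).card ≤ B.card ∧ (B \ univ.biUnion A).card ≤ Fintype.card N ∧
      ((∀ i, cl i) → (B \ univ.biUnion A).Nonempty →
        2 * (B \ univ.biUnion A).card < B.card ∧
          (B \ univ.biUnion A).card < Fintype.card N) := by
  classical
  obtain ⟨A, hA⟩ := exists_opt v cl X B hX hXB
  refine ⟨A, hA.mem.1, hA.mem.2, ?_⟩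
  obtain ⟨Q, hQ⟩ : ∃ Q : Finset M, Q = B \ univ.biUnion A := ⟨_, rfl⟩
  rw [← hQ]
  have hQmem : ∀ g, g ∈ Q ↔ g ∈ B ∧ ∀ i, g ∉ A i := by
    intro g
    rw [hQ]
    simp
  obtain ⟨D, hD⟩ : ∃ D : Finset N, ∀ s, s ∈ D ↔ Src v A s ∧ ¬ Disjoint (A s) B :=
    ⟨univ.filter fun s => Src v A s ∧ ¬ Disjoint (A s) B, fun s => by simp⟩
  -- the dirty sources contain different goods of `B`
  have hQB : Q ⊆ B := fun g hg => ((hQmem g).1 hg).1
  have hDcard : D.card + Q.card ≤ B.card := by
    have h1 : D.card ≤ (D.biUnion fun s => A s ∩ B).card := by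
      rw [Finset.card_biUnion fun i _ j _ hij => Finset.disjoint_of_subset_left
        Finset.inter_subset_left (Finset.disjoint_of_subset_right Finset.inter_subset_left
          (hA.mem.1.1 i j hij))]
      calc D.card = ∑ s ∈ D, 1 := by simp
        _ ≤ ∑ s ∈ D, (A s ∩ B).card := by
          refine Finset.sum_le_sum fun s hs => ?_
          rw [Nat.one_le_iff_ne_zero, Finset.card_ne_zero]
          obtain ⟨g, hg1, hg2⟩ := Finset.not_disjoint_iff.1 ((hD s).1 hs).2
          exact ⟨g, Finset.mem_inter.2 ⟨hg1, hg2⟩⟩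
    have h2 : (D.biUnion fun s => A s ∩ B) ⊆ B \ Q := by
      intro g hg
      obtain ⟨s, -, hs⟩ := Finset.mem_biUnion.1 hg
      obtain ⟨hg1, hg2⟩ := Finset.mem_inter.1 hs
      exact Finset.mem_sdiff.2 ⟨hg2, fun h => ((hQmem g).1 h).2 s hg1⟩
    have h3 := Finset.card_le_card h2
    rw [Finset.card_sdiff_of_subset hQB] at h3
    have h4 := Finset.card_le_card hQB
    omega
  have hDN : D.card ≤ Fintype.card N := Finset.card_le_univ D
  -- at least as many dirty sources as goods of the pool
  have hle : Q.card ≤ D.card := by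
    by_contra hcon
    rw [not_le] at hcon
    obtain ⟨g₀, hg₀⟩ : Q.Nonempty := by
      rw [← Finset.card_pos]
      omega
    obtain ⟨f⟩ : Nonempty (D ↪ (Q.erase g₀ : Finset M)) := by
      refine Function.Embedding.nonempty_of_card_le ?_
      rw [Fintype.card_coe, Fintype.card_coe, Finset.card_erase_of_mem hg₀]
      omega
    refine no_lab hv hb hlight hA (fun s => if h : s ∈ D then (f ⟨s, h⟩ : M) else g₀) ?_ ?_
    · intro s _
      by_cases h : s ∈ D
      · simp only [dif_pos h]
        exact (hQmem _).1 (Finset.mem_of_mem_erase (f ⟨s, h⟩).2)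
      · simp only [dif_neg h]
        exact (hQmem _).1 hg₀
    · intro s s' hs hs' hne heq
      by_cases h : s ∈ D
      · by_cases h' : s' ∈ D
        · simp only [dif_pos h, dif_pos h'] at heq
          exact absurd (congrArg Subtype.val (f.injective (Subtype.ext heq))) hne
        · simp only [dif_pos h, dif_neg h'] at heq
          exact absurd heq (Finset.ne_of_mem_erase (f ⟨s, h⟩).2)
      · by_cases h' : s' ∈ D
        · simp only [dif_neg h, dif_pos h'] at heq
          exact absurd heq.symm (Finset.ne_of_mem_erase (f ⟨s', h'⟩).2)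
        · constructor
          · by_contra hdis
            exact h ((hD s).2 ⟨hs, hdis⟩)
          · by_contra hdis
            exact h' ((hD s').2 ⟨hs', hdis⟩)
  refine ⟨by omega, by omega, fun hall hne => ?_⟩
  -- all agents are in `cl`: all sources are dirty
  have hlt : Q.card < D.card := by
    by_contra hcon
    rw [not_lt] at hcon
    obtain ⟨g₀, hg₀⟩ := hne
    have hdirty : ∀ s, Src v A s → s ∈ D := by
      intro s hs
      rw [hD]
      refine ⟨hs, fun hdis => ?_⟩
      obtain ⟨t, Z, -, -, -, -, -, h⟩ := champ hv hlight hA s hs g₀ ((hQmem g₀).1 hg₀).1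
        ((hQmem g₀).1 hg₀).2
      exact h hdis (hall t)
    obtain ⟨f⟩ : Nonempty (D ↪ Q) := by
      refine Function.Embedding.nonempty_of_card_le ?_
      rw [Fintype.card_coe, Fintype.card_coe]
      exact hcon
    refine no_lab hv hb hlight hA (fun s => if h : s ∈ D then (f ⟨s, h⟩ : M) else g₀) ?_ ?_
    · intro s _
      by_cases h : s ∈ D
      · simp only [dif_pos h]
        exact (hQmem _).1 (f ⟨s, h⟩).2
      · simp only [dif_neg h]
        exact (hQmem _).1 hg₀
    · intro s s' hs hs' hne heq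
      have h := hdirty s hs
      have h' := hdirty s' hs'
      simp only [dif_pos h, dif_pos h'] at heq
      exact absurd (congrArg Subtype.val (f.injective (Subtype.ext heq))) hne
  exact ⟨by omega, by omega⟩

end Pool.Agent.Lib.MP_358b54_lc.Block
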