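import Mathlib
import Pool.Agent.Lib.MP_358b54_lc.Core

/-!
# Explicit bounds for the number of unallocated goods
-/

set_option autoImplicit false

namespace Pool.Agent.Lib.MP_358b54_lc

open Finset

lemma quad {x a c : ℝ} (ha : 0 ≤ a) (hc : 0 ≤ c) (h : x ^ 2 ≤ a * x + c) : x ≤ a + √c := by
  by_contra hcon
  rw [not_le] at hcon
  have h1 : 0 ≤ √c := Real.sqrt_nonneg c
  have h2 : √c ^ 2 = c := Real.sq_sqrt hc
  nlinarith [mul_nonneg ha h1]

lemma log_le_two_sqrt {x : ℝ} (hx : 0 < x) : 1 + Real.log x ≤ 2 * √x := by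
  have h1 : 0 < √x := Real.sqrt_pos.2 hx
  have h2 : Real.log (√x) ≤ √x - 1 := Real.log_le_sub_one_of_pos h1
  have h3 : Real.log (√x) = Real.log x / 2 := Real.log_sqrt hx.le
  rw [h3] at h2
  linarith

variable {N M : Type} [Fintype N] [DecidableEq N] [Fintype M] [DecidableEq M]

lemma rel_card_le (v : N → M → ℝ) (h : M) : (rel v h).card ≤ Fintype.card N := by
  classical
  unfold rel
  exact (Finset.card_filter_le _ _).trans (Finset.card_image_le.trans (le_of_eq Finset.card_univ))

/-- The number of unallocated goods is at most `4 n²`, so its logarithm is at most `2 log (2n)`. -/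
lemma log_pool [Nonempty N] {v : N → M → ℝ} (hv : ∀ i g, 0 ≤ v i g) {A : N → Finset M}
    (hA : Maxi v A) :
    1 + Real.log (pool A).card ≤ 1 + 2 * Real.log (2 * (Fintype.card N : ℝ)) := by
  have hn : (1 : ℝ) ≤ Fintype.card N := by exact_mod_cast Fintype.card_pos
  rcases Nat.eq_zero_or_pos (pool A).card with h0 | h0
  · rw [h0, Nat.cast_zero, Real.log_zero]
    have : 0 ≤ Real.log (2 * (Fintype.card N : ℝ)) := Real.log_nonneg (by linarith)
    linarith
  · have hx : (0 : ℝ) < (pool A).card := by exact_mod_cast h0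
    have hx1 : (1 : ℝ) ≤ (pool A).card := by exact_mod_cast h0
    have hlog : 0 ≤ Real.log (pool A).card := Real.log_nonneg hx1
    have h1 := Core_sq hv hA
    have h2 : ∑ h ∈ pool A, ((rel v h).card : ℝ) ≤ (pool A).card * (Fintype.card N : ℝ) := by
      rw [← nsmul_eq_mul, ← Finset.sum_const]
      exact Finset.sum_le_sum fun h _ => by exact_mod_cast rel_card_le v h
    have h3 : ((pool A).card : ℝ) ^ 2 ≤
        (1 + Real.log (pool A).card) * ((pool A).card * (Fintype.card N : ℝ)) :=
      h1.trans (mul_le_mul_of_nonneg_left h2 (by linarith))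
    have h4 : ((pool A).card : ℝ) ≤ (1 + Real.log (pool A).card) * (Fintype.card N : ℝ) := by
      have h5 : ((pool A).card : ℝ) * (pool A).card ≤
          (pool A).card * ((1 + Real.log (pool A).card) * (Fintype.card N : ℝ)) := by
        nlinarith [h3]
      exact le_of_mul_le_mul_left h5 hx
    have h6 := log_le_two_sqrt hx
    have h7 : 0 < √((pool A).card : ℝ) := Real.sqrt_pos.2 hx
    have h8 : √((pool A).card : ℝ) ^ 2 = (pool A).card := Real.sq_sqrt hx.le
    have h9 : √((pool A).card : ℝ) ≤ 2 * (Fintype.card N : ℝ) := by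
      have h10 : √((pool A).card : ℝ) * √((pool A).card : ℝ) ≤
          √((pool A).card : ℝ) * (2 * (Fintype.card N : ℝ)) := by
        nlinarith [h4, mul_le_mul_of_nonneg_right h6 (by linarith : (0:ℝ) ≤ Fintype.card N)]
      exact le_of_mul_le_mul_left h10 h7
    have h11 : Real.log (pool A).card = 2 * Real.log (√((pool A).card : ℝ)) := by
      rw [Real.log_sqrt hx.le]
      ring
    have h12 := Real.log_le_log h7 h9
    rw [h11]
    linarith

/-- The bound in terms of the numbers of the relevant goods in the pool. -/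
theorem pool_bound [Nonempty N] {v : N → M → ℝ} (hv : ∀ i g, 0 ≤ v i g) {A : N → Finset M}
    (hA : Maxi v A) (K : Finset N) (S : ℝ)
    (hS : ∑ i ∈ univ \ K, (((pool A) ∩ above v i).card : ℝ) ≤ S) :
    ((pool A).card : ℝ) ≤ (1 + 2 * Real.log (2 * (Fintype.card N : ℝ))) * types v K +
      √((1 + 2 * Real.log (2 * (Fintype.card N : ℝ))) * S) := by
  classical
  have hn : (1 : ℝ) ≤ Fintype.card N := by exact_mod_cast Fintype.card_pos
  have hlogn : 0 ≤ Real.log (2 * (Fintype.card N : ℝ)) := Real.log_nonneg (by linarith)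
  have hS0 : 0 ≤ S := le_trans (Finset.sum_nonneg fun i _ => Nat.cast_nonneg _) hS
  obtain ⟨L, hL⟩ : ∃ L : ℝ, L = 1 + 2 * Real.log (2 * (Fintype.card N : ℝ)) := ⟨_, rfl⟩
  have hL1 : 1 ≤ L := by rw [hL]; linarith
  have hlog := log_pool hv hA
  rw [← hL] at hlog ⊢
  have h1 := Core_sq hv hA
  -- the number of the relevant valuations
  have h2 : ∀ h ∈ pool A, (rel v h).card ≤ types v K +
      ((univ \ K).filter fun i => h ∈ above v i).card := by
    intro h _
    have hsub : rel v h ⊆ K.image v ∪ ((univ \ K).filter fun i => h ∈ above v i).image v := by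
      intro w hw
      unfold rel at hw
      rw [Finset.mem_filter, Finset.mem_image] at hw
      obtain ⟨⟨i, -, rfl⟩, hlt⟩ := hw
      rw [Finset.mem_union]
      by_cases hi : i ∈ K
      · exact Or.inl (Finset.mem_image_of_mem v hi)
      · right
        refine Finset.mem_image_of_mem v ?_
        rw [Finset.mem_filter, Finset.mem_sdiff]
        refine ⟨⟨Finset.mem_univ _, hi⟩, ?_⟩
        unfold above
        rw [Finset.mem_filter]
        exact ⟨Finset.mem_univ _, hlt⟩
    refine (Finset.card_le_card hsub).trans ((Finset.card_union_le _ _).trans ?_)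
    exact Nat.add_le_add (le_of_eq (by unfold types; rfl)) Finset.card_image_le
  have h3 : ∑ h ∈ pool A, ((rel v h).card : ℝ) ≤ (pool A).card * (types v K : ℝ) + S := by
    have h4 : ∑ h ∈ pool A, (rel v h).card ≤ (pool A).card * types v K +
        ∑ h ∈ pool A, ((univ \ K).filter fun i => h ∈ above v i).card := by
      refine (Finset.sum_le_sum h2).trans ?_
      rw [Finset.sum_add_distrib, Finset.sum_const, smul_eq_mul]
    have h5 : ∑ h ∈ pool A, ((univ \ K).filter fun i => h ∈ above v i).card =
        ∑ i ∈ univ \ K, ((pool A) ∩ above v i).card := by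
      have h6 : ∀ i, ((pool A) ∩ above v i) = (pool A).filter fun h => h ∈ above v i := by
        intro i
        ext h
        simp [Finset.mem_inter, Finset.mem_filter]
      simp_rw [h6]
      simp_rw [Finset.card_filter]
      exact Finset.sum_comm
    rw [h5] at h4
    have h7 : ((∑ h ∈ pool A, (rel v h).card : ℕ) : ℝ) ≤ (((pool A).card * types v K +
        ∑ i ∈ univ \ K, ((pool A) ∩ above v i).card : ℕ) : ℝ) := by exact_mod_cast h4
    push_cast at h7
    linarith
  have h8 : 0 ≤ 1 + Real.log (pool A).card := by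
    rcases Nat.eq_zero_or_pos (pool A).card with h0 | h0
    · rw [h0, Nat.cast_zero, Real.log_zero]
      norm_num
    · have : (1 : ℝ) ≤ (pool A).card := by exact_mod_cast h0
      have := Real.log_nonneg this
      linarith
  have h9 : 0 ≤ (pool A).card * (types v K : ℝ) + S := by positivity
  have h10 : ((pool A).card : ℝ) ^ 2 ≤ L * ((pool A).card * (types v K : ℝ) + S) :=
    h1.trans ((mul_le_mul_of_nonneg_left h3 h8).trans (mul_le_mul_of_nonneg_right hlog h9))
  refine quad (by positivity) (by positivity) ?_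
  nlinarith [h10]

end Pool.Agent.Lib.MP_358b54_lc
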