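import Mathlib
import Pool.Agent.Lib.MP_358b54_lc.Bounds

/-!
# A bound for the number of unallocated goods by binomial moments of the demands

`relOut v K g` is the set of the different valuations of the agents outside `K` for which the good `g`
is relevant (worth more than some other good). In a maximal EFX partial allocation the number of the
unallocated goods is at most `|B| + L (k + r - 1) + ((r L)^r S)^(1/(r+1))` where `k` is the number of
the different valuations of the agents in `K`, `S` is the sum of `C(card (relOut v K g), r)` over the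
unallocated goods `g ∉ B` and `L = 1 + 2 log (2n)`.
-/

set_option autoImplicit false

namespace Pool.Agent.Lib.MP_358b54_lc

open Finset

variable {N M : Type} [Fintype N] [DecidableEq N] [Fintype M] [DecidableEq M]

/-- The different valuations of the agents outside `K` which value `g` more than some other good. -/
noncomputable def relOut (v : N → M → ℝ) (K : Finset N) (g : M) : Finset (M → ℝ) := by
  classical
  exact (((univ : Finset N) \ K).image v).filter fun w => ∃ h, w h < w g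

omit [DecidableEq N] [DecidableEq M] in
lemma rel_le_relOut [DecidableEq N] (v : N → M → ℝ) (K : Finset N) (g : M) :
    (rel v g).card ≤ types v K + (relOut v K g).card := by
  classical
  have hsub : rel v g ⊆ K.image v ∪ relOut v K g := by
    intro w hw
    unfold rel at hw
    rw [Finset.mem_filter, Finset.mem_image] at hw
    obtain ⟨⟨i, -, rfl⟩, hlt⟩ := hw
    rw [Finset.mem_union]
    by_cases hi : i ∈ K
    · exact Or.inl (Finset.mem_image_of_mem v hi)
    · right
      unfold relOut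
      rw [Finset.mem_filter]
      exact ⟨Finset.mem_image_of_mem v (Finset.mem_sdiff.2 ⟨Finset.mem_univ _, hi⟩), hlt⟩
  refine (Finset.card_le_card hsub).trans ((Finset.card_union_le _ _).trans ?_)
  exact Nat.add_le_add (le_of_eq (by unfold types; rfl)) le_rfl

/-- `n ^ r ≤ r ^ r * C(n, r)` for `r ≤ n`. -/
lemma pow_le_choose_mul : ∀ (r n : ℕ), r ≤ n → n ^ r ≤ r ^ r * n.choose r
  | 0, n, _ => by simp
  | r + 1, n, h => by
    obtain ⟨m, rfl⟩ : ∃ m, n = m + 1 := ⟨n - 1, by omega⟩
    have hm : r ≤ m := by omega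
    have ih := pow_le_choose_mul r m hm
    have hid : (m + 1) * m.choose r = (m + 1).choose (r + 1) * (r + 1) :=
      Nat.add_one_mul_choose_eq m r
    have key : (m + 1) ^ r ≤ (r + 1) ^ r * m.choose r := by
      rcases Nat.eq_zero_or_pos r with h0 | h0
      · subst h0
        simp
      · have h1 : (m + 1) * r ≤ (r + 1) * m := by nlinarith
        have h2 : ((m + 1) * r) ^ r ≤ ((r + 1) * m) ^ r := Nat.pow_le_pow_left h1 r
        rw [mul_pow, mul_pow] at h2
        have h3 : (m + 1) ^ r * r ^ r ≤ ((r + 1) ^ r * m.choose r) * r ^ r := by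
          calc (m + 1) ^ r * r ^ r ≤ (r + 1) ^ r * m ^ r := h2
            _ ≤ (r + 1) ^ r * (r ^ r * m.choose r) := Nat.mul_le_mul_left _ ih
            _ = _ := by ring
        exact Nat.le_of_mul_le_mul_right h3 (pow_pos h0 r)
    calc (m + 1) ^ (r + 1) = (m + 1) * (m + 1) ^ r := by ring
      _ ≤ (m + 1) * ((r + 1) ^ r * m.choose r) := Nat.mul_le_mul_left _ key
      _ = (r + 1) ^ r * ((m + 1) * m.choose r) := by ring
      _ = (r + 1) ^ r * ((m + 1).choose (r + 1) * (r + 1)) := by rw [hid]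
      _ = (r + 1) ^ (r + 1) * (m + 1).choose (r + 1) := by ring

/-- The final computation. -/
lemma moment_arith {y L c s T : ℝ} (r : ℕ) (hy : 0 ≤ y) (hL : 0 ≤ L) (hc : 0 ≤ c) (hs : 0 ≤ s)
    (hT : 0 ≤ T) (h1 : y ^ 2 ≤ L * (c * y + s)) (h2 : s ^ (r + 1) ≤ y ^ r * T) :
    y ≤ L * c + (L ^ (r + 1) * T) ^ (1 / ((r + 1 : ℕ) + 1 : ℝ)) := by
  have hroot : 0 ≤ (L ^ (r + 1) * T) ^ (1 / ((r + 1 : ℕ) + 1 : ℝ)) := by positivity
  by_cases hcase : y ≤ L * c
  · linarith
  rw [not_le] at hcase
  have hypos : 0 < y := lt_of_le_of_lt (by positivity) hcase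
  obtain ⟨x, hx⟩ : ∃ x, x = y - L * c := ⟨_, rfl⟩
  have hx0 : 0 < x := by rw [hx]; linarith
  have hxy : x ≤ y := by rw [hx]; nlinarith [mul_nonneg hL hc]
  have h3 : x * y ≤ L * s := by rw [hx]; nlinarith [h1]
  have h4 : (x * y) ^ (r + 1) ≤ L ^ (r + 1) * (y ^ r * T) := by
    refine (pow_le_pow_left₀ (by positivity) h3 (r + 1)).trans ?_
    rw [mul_pow]
    exact mul_le_mul_of_nonneg_left h2 (by positivity)
  have h5 : x ^ (r + 1) * y ≤ L ^ (r + 1) * T := by
    have h6 : y ^ r * (x ^ (r + 1) * y) ≤ y ^ r * (L ^ (r + 1) * T) := by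
      calc y ^ r * (x ^ (r + 1) * y) = (x * y) ^ (r + 1) := by rw [mul_pow]; ring
        _ ≤ L ^ (r + 1) * (y ^ r * T) := h4
        _ = _ := by ring
    exact le_of_mul_le_mul_left h6 (pow_pos hypos r)
  have h7 : x ^ (r + 1 + 1) ≤ L ^ (r + 1) * T := by
    calc x ^ (r + 1 + 1) = x ^ (r + 1) * x := pow_succ x (r + 1)
      _ ≤ x ^ (r + 1) * y := mul_le_mul_of_nonneg_left hxy (by positivity)
      _ ≤ _ := h5
  have h8 : x ≤ (L ^ (r + 1) * T) ^ (1 / ((r + 1 : ℕ) + 1 : ℝ)) := by
    have h9 : x = (x ^ (r + 1 + 1)) ^ (1 / ((r + 1 : ℕ) + 1 : ℝ)) := by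
      rw [← Real.rpow_natCast x (r + 1 + 1), ← Real.rpow_mul hx0.le]
      have : ((r + 1 + 1 : ℕ) : ℝ) * (1 / ((r + 1 : ℕ) + 1 : ℝ)) = 1 := by
        push_cast
        field_simp
      rw [this, Real.rpow_one]
    rw [h9]
    exact Real.rpow_le_rpow (by positivity) h7 (by positivity)
  linarith

/-- Every unallocated good of a maximal EFX partial allocation is relevant for somebody. -/
lemma rel_pos [Nonempty N] {v : N → M → ℝ} (hv : ∀ i g, 0 ≤ v i g) {A : N → Finset M}
    (hA : Maxi v A) : ∀ h ∈ pool A, (0 : ℝ) < (rel v h).card := by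
  classical
  intro h hh
  by_contra hcon
  have h0 : (rel v h).card = 0 := by
    have : ((rel v h).card : ℝ) ≤ 0 := not_lt.1 hcon
    exact_mod_cast le_antisymm this (Nat.cast_nonneg _)
  have hrel : ∀ t h', v t h ≤ v t h' := by
    intro t h'
    by_contra hlt
    rw [not_le] at hlt
    have : v t ∈ rel v h := by
      unfold rel
      rw [Finset.mem_filter]
      exact ⟨Finset.mem_image_of_mem v (Finset.mem_univ _), h', hlt⟩
    rw [Finset.card_eq_zero] at h0
    rw [h0] at this
    exact absurd this (Finset.notMem_empty _)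
  obtain ⟨par, hpar⟩ : ∃ par : N → N, ∀ j, ¬ Src v A j →
      val v (par j) (A (par j)) < val v (par j) (A j) := by
    have h1 : ∀ j, ∃ i, ¬ Src v A j → val v i (A i) < val v i (A j) := by
      intro j
      by_cases hj : Src v A j
      · exact ⟨j, fun h => absurd hj h⟩
      · have h2 := hj
        unfold Src at h2
        push Not at h2
        obtain ⟨i, hi⟩ := h2
        exact ⟨i, fun _ => hi⟩
    choose par hpar using h1
    exact ⟨par, hpar⟩
  obtain ⟨k, hk⟩ := acyc hA par hpar (Classical.arbitrary N)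
  obtain ⟨Z, hZ, hc, ⟨t, ht⟩, -⟩ := envy_insert hv hA (par^[k] (Classical.arbitrary N)) h hh
  obtain ⟨h', hh'⟩ := relevant hv (hk t) (mem_pool.1 hh _) hZ hc ht
  exact absurd (hrel t h') (not_le.2 hh')

/-- The moment bound: for every set `K` of agents, every set `B` of goods and every `r ≥ 1`. -/
theorem moment [Nonempty N] {v : N → M → ℝ} (hv : ∀ i g, 0 ≤ v i g) {A : N → Finset M}
    (hA : Maxi v A) (K : Finset N) (B : Finset M) (r : ℕ) (hr : 1 ≤ r) :
    ((pool A).card : ℝ) ≤ B.card +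
      (1 + 2 * Real.log (2 * (Fintype.card N : ℝ))) * (types v K + r - 1) +
      ((r * (1 + 2 * Real.log (2 * (Fintype.card N : ℝ)))) ^ r *
        ∑ g ∈ pool A \ B, ((relOut v K g).card.choose r : ℝ)) ^ (1 / (r + 1 : ℝ)) := by
  classical
  obtain ⟨r, rfl⟩ : ∃ r', r = r' + 1 := ⟨r - 1, by omega⟩
  have hn : (1 : ℝ) ≤ Fintype.card N := by exact_mod_cast Fintype.card_pos
  have hlogn : 0 ≤ Real.log (2 * (Fintype.card N : ℝ)) := Real.log_nonneg (by linarith)
  obtain ⟨L, hL⟩ : ∃ L : ℝ, L = 1 + 2 * Real.log (2 * (Fintype.card N : ℝ)) := ⟨_, rfl⟩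
  have hL1 : 1 ≤ L := by rw [hL]; linarith
  have hlog := log_pool hv hA
  rw [← hL] at hlog ⊢
  obtain ⟨R, hR⟩ : ∃ R : Finset M, R = pool A \ B := ⟨_, rfl⟩
  have hRP : R ⊆ pool A := by rw [hR]; exact Finset.sdiff_subset
  have hpoolcard : ((pool A).card : ℝ) ≤ B.card + R.card := by
    have h : (pool A).card ≤ B.card + R.card := by
      refine (Finset.card_le_card (t := B ∪ R) fun g hg => ?_).trans (Finset.card_union_le _ _)
      rw [hR, Finset.mem_union, Finset.mem_sdiff]
      by_cases hB : g ∈ B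
      · exact Or.inl hB
      · exact Or.inr ⟨hg, hB⟩
    exact_mod_cast h
  have h1 : (R.card : ℝ) ^ 2 ≤ L * ∑ h ∈ R, ((rel v h).card : ℝ) := by
    rcases R.eq_empty_or_nonempty with h0 | h0
    · rw [h0]
      simp
    · have hP : (pool A).Nonempty := h0.mono hRP
      have hmain := Core_main hv hA hP
      have hpos := rel_pos hv hA
      have hcs : (∑ h ∈ R, (1 : ℝ)) ^ 2 ≤
          (∑ h ∈ R, (1 : ℝ) / (rel v h).card) * ∑ h ∈ R, ((rel v h).card : ℝ) := by
        refine Finset.sum_sq_le_sum_mul_sum_of_sq_le_mul _ (fun h hh => ?_) (fun h hh => ?_)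
          (fun h hh => ?_)
        · exact (one_div_pos.2 (hpos h (hRP hh))).le
        · exact (hpos h (hRP hh)).le
        · rw [one_div, inv_mul_cancel₀ (hpos h (hRP hh)).ne', one_pow]
      rw [Finset.sum_const, nsmul_eq_mul, mul_one] at hcs
      refine hcs.trans (mul_le_mul_of_nonneg_right ?_ (by positivity))
      refine le_trans (Finset.sum_le_sum_of_subset_of_nonneg hRP fun h hh _ => ?_)
        (hmain.trans hlog)
      exact (one_div_pos.2 (hpos h hh)).le
  obtain ⟨m, hm⟩ : ∃ m : M → ℕ, m = fun g => (relOut v K g).card := ⟨_, rfl⟩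
  obtain ⟨Q, hQ⟩ : ∃ Q : Finset M, Q = R.filter fun g => r + 1 ≤ m g := ⟨_, rfl⟩
  obtain ⟨s, hs⟩ : ∃ s : ℝ, s = ∑ g ∈ Q, (m g : ℝ) := ⟨_, rfl⟩
  have hs0 : 0 ≤ s := by rw [hs]; positivity
  obtain ⟨T, hT⟩ : ∃ T : ℝ, T = (r + 1 : ℝ) ^ (r + 1) * ∑ g ∈ R, ((m g).choose (r + 1) : ℝ) :=
    ⟨_, rfl⟩
  have hT0 : 0 ≤ T := by rw [hT]; positivity
  have hQP : Q ⊆ R := by rw [hQ]; exact Finset.filter_subset _ _
  -- the sum of the demands
  have h3 : ∑ h ∈ R, ((rel v h).card : ℝ) ≤ ((types v K : ℝ) + r) * R.card + s := by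
    have h4 : ∑ h ∈ R, ((rel v h).card : ℝ) ≤
        ∑ h ∈ R, (((types v K : ℝ) + r) + if r + 1 ≤ m h then (m h : ℝ) else 0) := by
      refine Finset.sum_le_sum fun h _ => ?_
      have h5 : ((rel v h).card : ℝ) ≤ (types v K : ℝ) + (m h : ℝ) := by
        have := rel_le_relOut v K h
        rw [hm]
        exact_mod_cast this
      split_ifs with h6
      · have : (0 : ℝ) ≤ r := Nat.cast_nonneg _
        linarith
      · have h7 : (m h : ℝ) ≤ r := by exact_mod_cast (by omega : m h ≤ r)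
        linarith
    refine h4.trans (le_of_eq ?_)
    rw [Finset.sum_add_distrib, Finset.sum_const, nsmul_eq_mul, ← Finset.sum_filter, ← hQ, ← hs]
    ring
  have h10 : (R.card : ℝ) ^ 2 ≤ L * (((types v K : ℝ) + r) * R.card + s) :=
    h1.trans (mul_le_mul_of_nonneg_left h3 (by linarith))
  -- the power mean inequality
  have h11 : s ^ (r + 1) ≤ (R.card : ℝ) ^ r * T := by
    have h12 : s ^ (r + 1) ≤ (Q.card : ℝ) ^ r * ∑ g ∈ Q, (m g : ℝ) ^ (r + 1) := by
      rcases Q.eq_empty_or_nonempty with h0 | h0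
      · rw [hs, h0]
        simp
      · have hcardpos : (0 : ℝ) < Q.card := by exact_mod_cast h0.card_pos
        have h13 := pow_sum_div_card_le_sum_pow (s := Q) (f := fun g => (m g : ℝ))
          (fun g _ => Nat.cast_nonneg _) r
        rw [div_le_iff₀ (pow_pos hcardpos r)] at h13
        rw [hs]
        linarith
    have h14 : ∑ g ∈ Q, (m g : ℝ) ^ (r + 1) ≤ T := by
      rw [hT, Finset.mul_sum]
      refine le_trans (Finset.sum_le_sum fun g hg => ?_)
        (Finset.sum_le_sum_of_subset_of_nonneg hQP fun g _ _ => by positivity)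
      have h15 : r + 1 ≤ m g := by
        rw [hQ, Finset.mem_filter] at hg
        exact hg.2
      have h16 := pow_le_choose_mul (r + 1) (m g) h15
      exact_mod_cast h16
    have h17 : (Q.card : ℝ) ^ r ≤ (R.card : ℝ) ^ r :=
      pow_le_pow_left₀ (Nat.cast_nonneg _) (by exact_mod_cast Finset.card_le_card hQP) r
    calc s ^ (r + 1) ≤ (Q.card : ℝ) ^ r * ∑ g ∈ Q, (m g : ℝ) ^ (r + 1) := h12
      _ ≤ (R.card : ℝ) ^ r * T := mul_le_mul h17 h14 (by positivity) (by positivity)
  have h18 := moment_arith r (Nat.cast_nonneg _) (by linarith : (0:ℝ) ≤ L)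
    (by positivity : (0 : ℝ) ≤ (types v K : ℝ) + r) hs0 hT0 h10 h11
  have h19 : L * ((types v K : ℝ) + ((r + 1 : ℕ) : ℝ) - 1) = L * ((types v K : ℝ) + r) := by
    push_cast
    ring
  have h20 : (((r + 1 : ℕ) : ℝ) * L) ^ (r + 1) *
      ∑ g ∈ pool A \ B, ((relOut v K g).card.choose (r + 1) : ℝ) = L ^ (r + 1) * T := by
    rw [hT, hm, hR, mul_pow]
    push_cast
    ring
  rw [h19, h20]
  linarith

end Pool.Agent.Lib.MP_358b54_lc
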