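import Mathlib
import Pool.Agent.Lib.MP_358b54_lc.Moment

/-!
# The main inequality for a set of goods of the pool of a maximal EFX allocation
-/

set_option autoImplicit false

namespace Pool.Agent.Lib.MP_358b54_lc

open Finset

variable {N M : Type} [Fintype N] [DecidableEq N] [Fintype M] [DecidableEq M]

/-- The main inequality in terms of `rel`, for a set `R` of goods of the pool. -/
theorem Core_sub [Nonempty N] {v : N → M → ℝ} (hv : ∀ i g, 0 ≤ v i g) {A : N → Finset M}
    (hA : Maxi v A) {R : Finset M} (hRP : R ⊆ pool A) (hP : R.Nonempty) :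
    ∑ h ∈ R, (1 : ℝ) / (rel v h).card ≤ 1 + Real.log R.card := by
  classical
  obtain ⟨par, hpar⟩ : ∃ par : N → N, ∀ j, ¬ Src v A j →
      val v (par j) (A (par j)) < val v (par j) (A j) := by
    have h1 : ∀ j, ∃ i, ¬ Src v A j → val v i (A i) < val v i (A j) := by
      intro j
      by_cases hj : Src v A j
      · exact ⟨j, fun h => absurd hj h⟩
      · have h2 := hj
        unfold Src at h2
        push Not at h2
        obtain ⟨i, hi⟩ := h2
        exact ⟨i, fun _ => hi⟩
    choose par hpar using h1
    exact ⟨par, hpar⟩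
  obtain ⟨δ, root, hδroot, hrootSrc, hδmin, hrootself, hrootpar⟩ := exists_root hA par hpar
  -- representatives of the valuations
  obtain ⟨G, hG⟩ : ∃ G : (M → ℝ) → N, ∀ t, v (G (v t)) = v t ∧
      val v (G (v t)) (A (G (v t))) ≤ val v t (A t) := by
    have h1 : ∀ w : M → ℝ, ∃ g : N, ∀ t, v t = w → v g = w ∧
        val v g (A g) ≤ val v t (A t) := by
      intro w
      by_cases hw : ∃ t, v t = w
      · obtain ⟨t₀, ht₀⟩ := hw
        obtain ⟨g, hg, hmin⟩ := (univ.filter fun t => v t = w).exists_min_image
          (fun t => val v t (A t)) ⟨t₀, by rw [Finset.mem_filter]; exact ⟨Finset.mem_univ _, ht₀⟩⟩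
        rw [Finset.mem_filter] at hg
        refine ⟨g, fun t ht => ⟨hg.2, hmin t ?_⟩⟩
        rw [Finset.mem_filter]
        exact ⟨Finset.mem_univ _, ht⟩
      · exact ⟨Classical.arbitrary N, fun t ht => absurd ⟨t, ht⟩ hw⟩
    choose G hG using h1
    exact ⟨G, fun t => hG (v t) t rfl⟩
  -- champions
  obtain ⟨ch, Zs, hch⟩ : ∃ (ch : N → M → N) (Zs : N → M → Finset M), ∀ s h, h ∈ R →
      Zs s h ⊆ insert h (A s) ∧ (Zs s h).card ≤ (A s).card ∧
      val v (ch s h) (A (ch s h)) < val v (ch s h) (Zs s h) ∧
      (∀ i, ∀ g ∈ Zs s h, val v i ((Zs s h).erase g) ≤ val v i (A i)) ∧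
      ch s h = G (v (ch s h)) := by
    have h1 : ∀ s h, ∃ (t : N) (Z : Finset M), h ∈ R → Z ⊆ insert h (A s) ∧
        Z.card ≤ (A s).card ∧ val v t (A t) < val v t Z ∧
        (∀ i, ∀ g ∈ Z, val v i (Z.erase g) ≤ val v i (A i)) ∧ t = G (v t) := by
      intro s h
      by_cases hh : h ∈ R
      · obtain ⟨Z, hZ, hc, ⟨t, ht⟩, hmin⟩ := envy_insert hv hA s h (hRP hh)
        obtain ⟨hG1, hG2⟩ := hG t
        refine ⟨G (v t), Z, fun _ => ⟨hZ, hc, ?_, hmin, ?_⟩⟩
        · have h2 : val v (G (v t)) Z = val v t Z := by
            unfold val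
            rw [hG1]
          rw [h2]
          exact lt_of_le_of_lt hG2 ht
        · rw [hG1]
      · exact ⟨s, ∅, fun h => absurd h hh⟩
    choose ch Zs hch using h1
    exact ⟨ch, Zs, hch⟩
  obtain ⟨V, hV⟩ : ∃ V : M → Finset N, ∀ h, V h =
      (univ.filter fun s => Src v A s).image fun s => root (ch s h) := ⟨_, fun _ => rfl⟩
  have hVsrc : ∀ h, ∀ x ∈ V h, Src v A x := by
    intro h x hx
    rw [hV, Finset.mem_image] at hx
    obtain ⟨s, -, rfl⟩ := hx
    exact hrootSrc _
  have hVne : ∀ h ∈ R, (V h).Nonempty := by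
    intro h _
    refine ⟨root (ch (root (Classical.arbitrary N)) h), ?_⟩
    rw [hV, Finset.mem_image]
    refine ⟨root (Classical.arbitrary N), ?_, rfl⟩
    rw [Finset.mem_filter]
    exact ⟨Finset.mem_univ _, hrootSrc _⟩
  have hVcard : ∀ h ∈ R, (V h).card ≤ (rel v h).card := by
    intro h hh
    have hsub : V h ⊆ (rel v h).image fun w => root (G w) := by
      intro x hx
      rw [hV, Finset.mem_image] at hx
      obtain ⟨s, hs, rfl⟩ := hx
      rw [Finset.mem_filter] at hs
      obtain ⟨h1, h2, h3, -, h5⟩ := hch s h hh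
      rw [Finset.mem_image]
      refine ⟨v (ch s h), ?_, by rw [← h5]⟩
      unfold rel
      rw [Finset.mem_filter]
      refine ⟨Finset.mem_image_of_mem v (Finset.mem_univ _), ?_⟩
      exact relevant hv (hs.2 (ch s h)) (mem_pool.1 (hRP hh) s) h1 h2 h3
    exact (Finset.card_le_card hsub).trans Finset.card_image_le
  -- the counting argument
  have hcount : ∑ h ∈ R, (1 : ℝ) / (V h).card ≤ 1 + Real.log R.card := by
    refine Count_main R hP V hVne (fun x h => root (ch x h)) ?_ ?_
    · intro g _ x hx h _
      rw [hV h, Finset.mem_image]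
      refine ⟨x, ?_, rfl⟩
      rw [Finset.mem_filter]
      exact ⟨Finset.mem_univ _, hVsrc g x hx⟩
    · intro r hr
      by_contra hcon
      push Not at hcon
      -- `η g` is the predecessor of `g`
      have h1 : ∀ j, ∃ l, (∃ g ∈ R, r g = j) → l ∈ R ∧ r l = root (ch j l) := by
        intro j
        by_cases hj : ∃ g ∈ R, r g = j
        · obtain ⟨g, hg, rfl⟩ := hj
          obtain ⟨l, hl1, -, hl3⟩ := hcon g hg
          exact ⟨l, fun _ => ⟨hl1, hl3⟩⟩
        · obtain ⟨g, -⟩ := hP
          exact ⟨g, fun h => absurd h hj⟩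
      choose lab hlab using h1
      obtain ⟨pre, hpre⟩ : ∃ pre : N → N, ∀ j, pre j = if Src v A j then ch j (lab j) else par j :=
        ⟨_, fun _ => rfl⟩
      -- the good agents
      have hclosed : ∀ j, (∃ g ∈ R, root j = r g) → ∃ g ∈ R, root (pre j) = r g := by
        rintro j ⟨g, hg, hj⟩
        rw [hpre]
        by_cases hs : Src v A j
        · rw [if_pos hs]
          rw [hrootself j hs] at hj
          obtain ⟨h2, h3⟩ := hlab j ⟨g, hg, hj.symm⟩
          exact ⟨lab j, h2, h3.symm⟩
        · rw [if_neg hs, hrootpar j hs]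
          exact ⟨g, hg, hj⟩
      have hclosedit : ∀ k j, (∃ g ∈ R, root j = r g) →
          ∃ g ∈ R, root (pre^[k] j) = r g := by
        intro k
        induction k with
        | zero => intro j hj; exact hj
        | succ k ih =>
          intro j hj
          rw [Function.iterate_succ_apply]
          exact ih _ (hclosed j hj)
      -- iterates of `pre` below a root
      have hit : ∀ t k, k ≤ δ t → pre^[k] t = par^[k] t := by
        intro t k
        induction k with
        | zero => intro _; rfl
        | succ k ih =>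
          intro hk
          rw [Function.iterate_succ_apply', Function.iterate_succ_apply', ih (by omega), hpre,
            if_neg (hδmin t k (by omega))]
      have hinjpre := (Function.bijOn_periodicPts (f := pre)).injOn
      have hmapspre := (Function.bijOn_periodicPts (f := pre)).mapsTo
      have hlabinj1 : ∀ s s', s ∈ Function.periodicPts pre → s' ∈ Function.periodicPts pre →
          (∃ g ∈ R, root s = r g) → (∃ g ∈ R, root s' = r g) →
          Src v A s → Src v A s' → lab s = lab s' → δ (pre s) ≤ δ (pre s') → s = s' := by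
        intro s s' hs hs' hg hg' hsrc hsrc' hl hδ
        have hroots : root (pre s) = root (pre s') := by
          obtain ⟨g, hgP, hgr⟩ := hg
          obtain ⟨g', hgP', hgr'⟩ := hg'
          rw [hrootself s hsrc] at hgr
          rw [hrootself s' hsrc'] at hgr'
          have e1 := (hlab s ⟨g, hgP, hgr.symm⟩).2
          have e2 := (hlab s' ⟨g', hgP', hgr'.symm⟩).2
          rw [hpre s, hpre s', if_pos hsrc, if_pos hsrc', ← e1, ← e2, hl]
        have e3 : pre^[δ (pre s)] (pre s) = root (pre s) := by
          rw [hit _ _ le_rfl, hδroot]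
        have e4 : pre^[δ (pre s')] (pre s') = root (pre s') := by
          rw [hit _ _ le_rfl, hδroot]
        obtain ⟨m, hm⟩ : ∃ m, δ (pre s') = δ (pre s) + m := ⟨_, (Nat.add_sub_cancel' hδ).symm⟩
        have e5 : pre^[δ (pre s) + 1] s = pre^[δ (pre s) + 1] (pre^[m] s') := by
          have e5a : pre^[δ (pre s) + 1] s = root (pre s) := by
            rw [Function.iterate_succ_apply, e3]
          have e5b : pre^[δ (pre s) + 1] (pre^[m] s') = root (pre s') := by
            rw [← Function.iterate_add_apply,
              show δ (pre s) + 1 + m = (δ (pre s) + m) + 1 by omega,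
              Function.iterate_succ_apply, ← hm, e4]
          rw [e5a, e5b, hroots]
        have e6 : pre^[m] s' ∈ Function.periodicPts pre := (hmapspre.iterate m) hs'
        have e7 : s = pre^[m] s' := (hinjpre.iterate hmapspre _) hs e6 e5
        rcases m with _ | m
        · exact e7
        · exfalso
          rw [Function.iterate_succ_apply, hit _ _ (by omega)] at e7
          refine hδmin (pre s') m (by omega) ?_
          rw [← e7]
          exact hsrc
      have hlabinj : ∀ s s', s ∈ Function.periodicPts pre → s' ∈ Function.periodicPts pre →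
          (∃ g ∈ R, root s = r g) → (∃ g ∈ R, root s' = r g) →
          Src v A s → Src v A s' → lab s = lab s' → s = s' := by
        intro s s' hs hs' hg hg' hsrc hsrc' hl
        rcases le_total (δ (pre s)) (δ (pre s')) with h | h
        · exact hlabinj1 s s' hs hs' hg hg' hsrc hsrc' hl h
        · exact (hlabinj1 s' s hs' hs hg' hg hsrc' hsrc hl.symm h).symm
      obtain ⟨g₀, hg₀⟩ := hP
      have hj₀ : ∃ g ∈ R, root (r g₀) = r g :=
        ⟨g₀, hg₀, hrootself _ (hVsrc g₀ _ (hr g₀ hg₀))⟩
      obtain ⟨k₀, hk₀⟩ := exists_periodic pre (r g₀)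
      refine cyc hA (univ.filter fun j => j ∈ Function.periodicPts pre ∧
          ∃ g ∈ R, root j = r g) ⟨pre^[k₀] (r g₀), ?_⟩ pre ?_ ?_
        (fun j => if Src v A j then Zs j (lab j) else A j)
        (fun j => if Src v A j then {lab j} else ∅) ?_ ?_ ?_ ?_ ?_
      · rw [Finset.mem_filter]
        exact ⟨Finset.mem_univ _, hk₀, hclosedit k₀ _ hj₀⟩
      · intro j hj
        rw [Finset.mem_filter] at hj ⊢
        exact ⟨Finset.mem_univ _, hmapspre hj.2.1, hclosed j hj.2.2⟩
      · intro j hj j' hj' h
        rw [Finset.mem_filter] at hj hj'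
        exact hinjpre hj.2.1 hj'.2.1 h
      · intro j hj
        rw [Finset.mem_filter] at hj
        obtain ⟨-, -, g, hg, hjg⟩ := hj
        show (if Src v A j then Zs j (lab j) else A j) ⊆
          A j ∪ (if Src v A j then {lab j} else ∅)
        by_cases hs : Src v A j
        · rw [if_pos hs, if_pos hs]
          rw [hrootself j hs] at hjg
          obtain ⟨h2, -⟩ := hlab j ⟨g, hg, hjg.symm⟩
          refine (hch j (lab j) h2).1.trans ?_
          intro x hx
          rw [Finset.mem_union, Finset.mem_singleton]
          exact (Finset.mem_insert.1 hx).symm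
        · rw [if_neg hs, if_neg hs]
          exact Finset.subset_union_left
      · intro j hj
        rw [Finset.mem_filter] at hj
        obtain ⟨-, -, g, hg, hjg⟩ := hj
        show (if Src v A j then ({lab j} : Finset M) else ∅) ⊆ pool A
        by_cases hs : Src v A j
        · rw [if_pos hs]
          rw [hrootself j hs] at hjg
          obtain ⟨h2, -⟩ := hlab j ⟨g, hg, hjg.symm⟩
          exact Finset.singleton_subset_iff.2 (hRP h2)
        · rw [if_neg hs]
          exact Finset.empty_subset _
      · intro j hj j' hj' hne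
        rw [Finset.mem_filter] at hj hj'
        show Disjoint (if Src v A j then ({lab j} : Finset M) else ∅)
          (if Src v A j' then ({lab j'} : Finset M) else ∅)
        by_cases hs : Src v A j
        · by_cases hs' : Src v A j'
          · rw [if_pos hs, if_pos hs', Finset.disjoint_singleton]
            intro hl
            exact hne (hlabinj j j' hj.2.1 hj'.2.1 hj.2.2 hj'.2.2 hs hs' hl)
          · rw [if_neg hs']
            exact Finset.disjoint_empty_right _
        · rw [if_neg hs]
          exact Finset.disjoint_empty_left _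
      · intro j hj i g hg
        rw [Finset.mem_filter] at hj
        obtain ⟨-, -, g', hg', hjg⟩ := hj
        by_cases hs : Src v A j
        · simp only [if_pos hs] at hg ⊢
          rw [hrootself j hs] at hjg
          obtain ⟨h2, -⟩ := hlab j ⟨g', hg', hjg.symm⟩
          exact (hch j (lab j) h2).2.2.2.1 i g hg
        · simp only [if_neg hs] at hg ⊢
          exact hA.efx i j g hg
      · intro j hj
        rw [Finset.mem_filter] at hj
        obtain ⟨-, -, g', hg', hjg⟩ := hj
        rw [hpre]
        by_cases hs : Src v A j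
        · simp only [if_pos hs]
          rw [hrootself j hs] at hjg
          obtain ⟨h2, -⟩ := hlab j ⟨g', hg', hjg.symm⟩
          exact (hch j (lab j) h2).2.2.1
        · simp only [if_neg hs]
          exact hpar j hs
  refine le_trans (Finset.sum_le_sum fun h hh => ?_) hcount
  have h1 : (0 : ℝ) < (V h).card := by exact_mod_cast (hVne h hh).card_pos
  exact one_div_le_one_div_of_le h1 (by exact_mod_cast hVcard h hh)

lemma le_log {x d : ℝ} (hx : 0 < x) (hd : 0 < d) (h : x ≤ d * (1 + Real.log x)) :
    x ≤ 2 * d * Real.log (2 * d) := by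
  have h1 : 0 < x / (2 * d) := by positivity
  have h2 : Real.log (x / (2 * d)) ≤ x / (2 * d) - 1 := Real.log_le_sub_one_of_pos h1
  rw [Real.log_div hx.ne' (by positivity)] at h2
  have h3 : x / (2 * d) * (2 * d) = x := by field_simp
  have h4 : d * (1 + Real.log x) ≤ d * (x / (2 * d) + Real.log (2 * d)) :=
    mul_le_mul_of_nonneg_left (by linarith) hd.le
  have h5 : d * (x / (2 * d)) = x / 2 := by field_simp
  nlinarith [h, h4, h5]

/-- For every `d ≥ 1` at most `2 d log (2d)` goods of the pool have demand at most `d`. -/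
theorem demand [Nonempty N] {v : N → M → ℝ} (hv : ∀ i g, 0 ≤ v i g) {A : N → Finset M}
    (hA : Maxi v A) (d : ℕ) (hd : 1 ≤ d) :
    (((pool A).filter fun g => (rel v g).card ≤ d).card : ℝ) ≤ 2 * d * Real.log (2 * d) := by
  classical
  have hd0 : (1 : ℝ) ≤ d := by exact_mod_cast hd
  obtain ⟨R, hR⟩ : ∃ R, R = (pool A).filter fun g => (rel v g).card ≤ d := ⟨_, rfl⟩
  rw [← hR]
  rcases R.eq_empty_or_nonempty with h0 | h0
  · rw [h0, Finset.card_empty, Nat.cast_zero]
    have : 0 ≤ Real.log (2 * (d : ℝ)) := Real.log_nonneg (by linarith)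
    positivity
  · have hRP : R ⊆ pool A := by rw [hR]; exact Finset.filter_subset _ _
    have hx : (0 : ℝ) < R.card := by exact_mod_cast h0.card_pos
    have h1 := Core_sub hv hA hRP h0
    have h2 : (R.card : ℝ) * (1 / d) ≤ ∑ h ∈ R, (1 : ℝ) / (rel v h).card := by
      rw [← nsmul_eq_mul, ← Finset.sum_const]
      refine Finset.sum_le_sum fun h hh => ?_
      have h3 := rel_pos hv hA h (hRP hh)
      rw [hR, Finset.mem_filter] at hh
      exact one_div_le_one_div_of_le h3 (by exact_mod_cast hh.2)
    refine le_log hx (by linarith) ?_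
    have h4 : (R.card : ℝ) * (1 / d) ≤ 1 + Real.log R.card := h2.trans h1
    rw [mul_one_div, div_le_iff₀ (by linarith)] at h4
    linarith

end Pool.Agent.Lib.MP_358b54_lc
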