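import Mathlib
import Pool.Agent.Lib.MP_358b54_lc.Block

/-!
# Few goods, and levels

A maximal EFX allocation with a nonempty pool `P` has `n + 2 |P| < |M|`. Extension over levels.
-/

set_option autoImplicit false
set_option linter.unusedSectionVars false

namespace Pool.Agent.Lib.MP_358b54_lc.Levels

open Finset Pool.Agent.Lib.MP_358b54_lc Pool.Agent.Lib.MP_358b54_lc.Block

variable {N M : Type} [Fintype N] [DecidableEq N] [Fintype M] [DecidableEq M]

/-- The pool of a maximal EFX allocation has fewer goods than there are sources. -/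
lemma pool_lt_src [Nonempty N] {v : N → M → ℝ} (hv : ∀ i g, 0 ≤ v i g) {A : N → Finset M}
    (hA : Maxi v A) (S : Finset N) (hS : ∀ j, j ∈ S ↔ Src v A j) (hP : (pool A).Nonempty) :
    (pool A).card < S.card := by
  classical
  by_contra hcon
  rw [not_lt] at hcon
  obtain ⟨g₀, hg₀⟩ := hP
  obtain ⟨f⟩ : Nonempty (S ↪ pool A) := by
    refine Function.Embedding.nonempty_of_card_le ?_
    rwa [Fintype.card_coe, Fintype.card_coe]
  obtain ⟨lab, hlab, hinj⟩ : ∃ lab : N → M, (∀ j, lab j ∈ pool A) ∧
      ∀ j j', Src v A j → Src v A j' → lab j = lab j' → j = j' := by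
    refine ⟨fun j => if h : j ∈ S then (f ⟨j, h⟩ : M) else g₀, fun j => ?_,
      fun j j' hj hj' heq => ?_⟩
    · by_cases h : j ∈ S
      · simp only [dif_pos h]
        exact (f ⟨j, h⟩).2
      · simp only [dif_neg h]
        exact hg₀
    · simp only [dif_pos ((hS j).2 hj), dif_pos ((hS j').2 hj')] at heq
      exact congrArg Subtype.val (f.injective (Subtype.ext heq))
  have h2 : ∀ j, ∃ (i : N) (Z : Finset M), (Src v A j → Z ⊆ insert (lab j) (A j) ∧
      val v i (A i) < val v i Z ∧ ∀ t, ∀ g ∈ Z, val v t (Z.erase g) ≤ val v t (A t)) ∧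
      (¬ Src v A j → val v i (A i) < val v i (A j)) := by
    intro j
    by_cases hj : Src v A j
    · obtain ⟨Z, hZ, -, ⟨t, ht⟩, hmin⟩ := envy_insert hv hA j (lab j) (hlab j)
      exact ⟨t, Z, fun _ => ⟨hZ, ht, hmin⟩, fun h => absurd hj h⟩
    · have h3 := hj
      unfold Src at h3
      push Not at h3
      obtain ⟨i, hi⟩ := h3
      exact ⟨i, ∅, fun h => absurd h hj, fun _ => hi⟩
  choose pre Zs h3 h4 using h2
  obtain ⟨k₀, hk₀⟩ := exists_periodic pre (Classical.arbitrary N)
  refine cyc hA (univ.filter fun j => j ∈ Function.periodicPts pre)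
    ⟨pre^[k₀] (Classical.arbitrary N), ?_⟩ pre ?_ ?_
    (fun j => if Src v A j then Zs j else A j)
    (fun j => if Src v A j then {lab j} else ∅) ?_ ?_ ?_ ?_ ?_
  · rw [Finset.mem_filter]
    exact ⟨Finset.mem_univ _, hk₀⟩
  · intro j hj
    rw [Finset.mem_filter] at hj ⊢
    exact ⟨Finset.mem_univ _, (Function.bijOn_periodicPts (f := pre)).mapsTo hj.2⟩
  · intro j hj j' hj' h
    rw [Finset.mem_filter] at hj hj'
    exact (Function.bijOn_periodicPts (f := pre)).injOn hj.2 hj'.2 h
  · intro j _
    show (if Src v A j then Zs j else A j) ⊆ A j ∪ (if Src v A j then {lab j} else ∅)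
    by_cases hs : Src v A j
    · rw [if_pos hs, if_pos hs]
      refine (h3 j hs).1.trans ?_
      intro x hx
      rw [Finset.mem_union, Finset.mem_singleton]
      exact (Finset.mem_insert.1 hx).symm
    · rw [if_neg hs, if_neg hs]
      exact Finset.subset_union_left
  · intro j _
    show (if Src v A j then ({lab j} : Finset M) else ∅) ⊆ pool A
    by_cases hs : Src v A j
    · rw [if_pos hs]
      exact Finset.singleton_subset_iff.2 (hlab j)
    · rw [if_neg hs]
      exact Finset.empty_subset _
  · intro j _ j' _ hne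
    show Disjoint (if Src v A j then ({lab j} : Finset M) else ∅)
      (if Src v A j' then ({lab j'} : Finset M) else ∅)
    by_cases hs : Src v A j
    · by_cases hs' : Src v A j'
      · rw [if_pos hs, if_pos hs', Finset.disjoint_singleton]
        exact fun h => hne (hinj j j' hs hs' h)
      · rw [if_neg hs']
        exact Finset.disjoint_empty_right _
    · rw [if_neg hs]
      exact Finset.disjoint_empty_left _
  · intro j _ i g hg
    by_cases hs : Src v A j
    · simp only [if_pos hs] at hg ⊢
      exact (h3 j hs).2.2 i g hg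
    · simp only [if_neg hs] at hg ⊢
      exact hA.efx i j g hg
  · intro j _
    by_cases hs : Src v A j
    · simp only [if_pos hs]
      exact (h3 j hs).2.1
    · simp only [if_neg hs]
      exact h4 j hs

/-- A maximal EFX allocation with a nonempty pool `P` has `n + 2 |P| < |M|`. -/
theorem count [Nonempty N] {v : N → M → ℝ} (hv : ∀ i g, 0 ≤ v i g) {A : N → Finset M}
    (hA : Maxi v A) (hP : (pool A).Nonempty) :
    Fintype.card N + 2 * (pool A).card < Fintype.card M ∧ (pool A).card < Fintype.card N := by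
  classical
  obtain ⟨S, hS⟩ : ∃ S : Finset N, ∀ j, j ∈ S ↔ Src v A j :=
    ⟨univ.filter fun j => Src v A j, fun j => by simp⟩
  have h1 := pool_lt_src hv hA S hS hP
  have hSN : S.card ≤ Fintype.card N := Finset.card_le_univ S
  refine ⟨?_, by omega⟩
  have h2 : ∀ j, (if j ∈ S then 2 else 1) ≤ (A j).card := by
    intro j
    by_cases hj : j ∈ S
    · rw [if_pos hj]
      by_contra hcon
      rw [not_le] at hcon
      obtain ⟨h, hh⟩ := hP
      obtain ⟨Z, hZ, hcard, ⟨t, ht⟩, -⟩ := envy_insert hv hA j h hh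
      by_cases hhZ : h ∈ Z
      · have h3 : Z = {h} := by
          refine (Finset.eq_of_subset_of_card_le (Finset.singleton_subset_iff.2 hhZ) ?_).symm
          rw [Finset.card_singleton]
          omega
        have h4 : val v t Z ≤ val v t (A t) := by
          rw [h3]
          exact (val_mono hv t (Finset.singleton_subset_iff.2 hh)).trans (pool_le hA t)
        exact absurd h4 (not_le.2 ht)
      · have h3 : Z ⊆ A j := by
          intro x hx
          refine (Finset.mem_insert.1 (hZ hx)).resolve_left ?_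
          rintro rfl
          exact hhZ hx
        exact absurd ((val_mono hv t h3).trans ((hS j).1 hj t)) (not_le.2 ht)
    · rw [if_neg hj, Nat.one_le_iff_ne_zero, Finset.card_ne_zero]
      by_contra hcon
      rw [Finset.not_nonempty_iff_eq_empty] at hcon
      refine hj ((hS j).2 fun i => ?_)
      rw [hcon]
      exact (le_of_eq Finset.sum_empty).trans (val_nonneg hv i _)
  have h3 : ∑ j, (A j).card + (pool A).card = Fintype.card M := by
    rw [← Finset.card_biUnion fun i _ j _ hij => hA.par i j hij]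
    unfold pool
    rw [Finset.card_sdiff_of_subset (Finset.subset_univ _), Finset.card_univ]
    have h4 := Finset.card_le_univ (univ.biUnion A)
    omega
  have h4 : ∑ j : N, (if j ∈ S then 2 else 1) ≤ ∑ j, (A j).card :=
    Finset.sum_le_sum fun j _ => h2 j
  have h5 : ∑ j : N, (if j ∈ S then 2 else 1) = Fintype.card N + S.card := by
    have h6 : ∀ j : N, (if j ∈ S then 2 else 1) = 1 + (if j ∈ S then 1 else 0) := by
      intro j
      by_cases hj : j ∈ S
      · rw [if_pos hj, if_pos hj]
      · rw [if_neg hj, if_neg hj]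
    rw [Finset.sum_congr rfl fun j _ => h6 j, Finset.sum_add_distrib]
    simp
  omega

/-- The goods outside `D` of level `k`. -/
def lev (l : M → ℕ) (D : Finset M) (k : ℕ) : Finset M := univ.filter fun g => g ∉ D ∧ l g = k

lemma mem_lev {l : M → ℕ} {D : Finset M} {k : ℕ} {g : M} : g ∈ lev l D k ↔ g ∉ D ∧ l g = k := by
  simp [lev]

/-- The first level, all agents. -/
lemma base_all [Nonempty N] {v : N → M → ℝ} (hv : ∀ i g, 0 ≤ v i g) (S : Finset M) :
    ∃ A : N → Finset M, IsPartial A ∧ IsEFX v A ∧ (∀ i, A i ⊆ S) ∧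
      ((S \ univ.biUnion A).Nonempty →
        Fintype.card N + 2 * (S \ univ.biUnion A).card < S.card) := by
  classical
  obtain ⟨v', hv'⟩ : ∃ v' : N → {g : M // g ∈ S} → ℝ, ∀ i g, v' i g = v i g :=
    ⟨fun i g => v i g, fun _ _ => rfl⟩
  obtain ⟨A', hA'⟩ := exists_maxi v'
  have hmap : ∀ i (T : Finset {g : M // g ∈ S}),
      val v i (T.map (Function.Embedding.subtype _)) = val v' i T := by
    intro i T
    unfold val
    rw [Finset.sum_map]
    exact Finset.sum_congr rfl fun g _ => (hv' i g).symm
  obtain ⟨A, hA⟩ : ∃ A : N → Finset M, ∀ i, A i = (A' i).map (Function.Embedding.subtype _) :=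
    ⟨_, fun _ => rfl⟩
  refine ⟨A, ?_, ?_, fun i g hg => ?_, ?_⟩
  · intro i j hij
    rw [hA, hA, Finset.disjoint_map]
    exact hA'.par i j hij
  · intro i j g hg
    rw [hA, Finset.mem_map] at hg
    obtain ⟨g', hg', rfl⟩ := hg
    rw [hA, hA, ← Finset.map_erase, hmap, hmap]
    exact hA'.efx i j g' hg'
  · rw [hA, Finset.mem_map] at hg
    obtain ⟨g', -, rfl⟩ := hg
    exact g'.2
  · intro hne
    have hrest : S \ univ.biUnion A = (pool A').map (Function.Embedding.subtype _) := by
      ext g
      rw [Finset.mem_sdiff, Finset.mem_map]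
      constructor
      · rintro ⟨hg, hg'⟩
        refine ⟨⟨g, hg⟩, mem_pool.2 fun i hi => hg' ?_, rfl⟩
        rw [Finset.mem_biUnion]
        exact ⟨i, Finset.mem_univ _, by
          rw [hA, Finset.mem_map]
          exact ⟨⟨g, hg⟩, hi, rfl⟩⟩
      · rintro ⟨g', hg', rfl⟩
        refine ⟨g'.2, fun hcon => ?_⟩
        obtain ⟨i, -, hi⟩ := Finset.mem_biUnion.1 hcon
        rw [hA, Finset.mem_map] at hi
        obtain ⟨g'', hg'', heq⟩ := hi
        have h1 : g'' = g' := Subtype.ext heq
        rw [h1] at hg''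
        exact mem_pool.1 hg' i hg''
    have hne' : (pool A').Nonempty := by
      rw [hrest, Finset.map_nonempty] at hne
      exact hne
    have h1 := (count (fun i g => (hv' i g).symm ▸ hv i g) hA' hne').1
    rw [hrest, Finset.card_map]
    rwa [Fintype.card_coe] at h1

/-- The invariant `Inv` extends over the levels `1, ..., k`. -/
theorem levels [Nonempty N] {v : N → M → ℝ} (hv : ∀ i g, 0 ≤ v i g) (R : Finset N)
    (hR : ∀ i j, i ∉ R → j ∉ R → i = j) (D : Finset M) (l : M → ℕ)
    (hl : ∀ i ∈ R, ∀ g h, g ∉ D → h ∉ D → l g < l h → v i h ≤ v i g) {X : N → Finset M}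
    (hX : Inv v (fun i => i ∈ R) X) (hX0 : ∀ i, X i ⊆ lev l D 0) (k : ℕ) :
    ∃ A : N → Finset M, Inv v (fun i => i ∈ R) A ∧ (∀ i, ∀ g ∈ A i, g ∉ D ∧ l g ≤ k) ∧
      lev l D 0 \ univ.biUnion A = lev l D 0 \ univ.biUnion X ∧
      ∀ j, 1 ≤ j → j ≤ k → 2 * (lev l D j \ univ.biUnion A).card ≤ (lev l D j).card ∧
        (R = univ → (lev l D j \ univ.biUnion A).Nonempty →
          2 * (lev l D j \ univ.biUnion A).card < (lev l D j).card) := by
  classical
  induction k with
  | zero =>
    refine ⟨X, hX, fun i g hg => ?_, rfl, fun j h1 h2 => absurd h1 (by omega)⟩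
    have h1 := mem_lev.1 (hX0 i hg)
    exact ⟨h1.1, h1.2.le⟩
  | succ k ih =>
    obtain ⟨Y, hY1, hY2, hY3, hY4⟩ := ih
    obtain ⟨B, hB⟩ : ∃ B : Finset M, B = lev l D (k + 1) := ⟨_, rfl⟩
    have hBm : ∀ g, g ∈ B ↔ g ∉ D ∧ l g = k + 1 := by
      intro g
      rw [hB, mem_lev]
    obtain ⟨A, hA1, ⟨π, hπ⟩, hA2, -, hA3⟩ := stage (v := v) (cl := fun i => i ∈ R) (X := Y)
      (B := B) hv hR hY1
      (fun i => by
        rw [Finset.disjoint_left]
        intro g hg hgB
        have h1 := (hY2 i g hg).2
        have h2 := ((hBm g).1 hgB).2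
        omega)
      (fun i hi j x hx g hg => hl i hi x g (hY2 j x hx).1 ((hBm g).1 hg).1 (by
        have h1 := (hY2 j x hx).2
        have h2 := ((hBm g).1 hg).2
        omega))
    have hrest : ∀ j ≤ k, lev l D j \ univ.biUnion A = lev l D j \ univ.biUnion Y := by
      intro j hj
      ext g
      rw [Finset.mem_sdiff, Finset.mem_sdiff]
      refine and_congr_right fun hg => not_congr ?_
      have hgB : g ∉ B := by
        rw [hBm]
        have := (mem_lev.1 hg).2
        omega
      rw [Finset.mem_biUnion, Finset.mem_biUnion]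
      constructor
      · rintro ⟨i, -, hi⟩
        refine ⟨π i, Finset.mem_univ _, ?_⟩
        rw [← hπ]
        exact Finset.mem_sdiff.2 ⟨hi, hgB⟩
      · rintro ⟨i, -, hi⟩
        refine ⟨π.symm i, Finset.mem_univ _, ?_⟩
        have h1 := hπ (π.symm i)
        rw [Equiv.apply_symm_apply] at h1
        rw [← h1] at hi
        exact (Finset.mem_sdiff.1 hi).1
    refine ⟨A, hA1, ?_, ?_, ?_⟩
    · intro i g hg
      by_cases hgB : g ∈ B
      · exact ⟨((hBm g).1 hgB).1, ((hBm g).1 hgB).2.le⟩
      · have h1 : g ∈ A i \ B := Finset.mem_sdiff.2 ⟨hg, hgB⟩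
        rw [hπ] at h1
        have h2 := hY2 _ g h1
        exact ⟨h2.1, by omega⟩
    · rw [hrest 0 (by omega), hY3]
    · intro j hj1 hj2
      rcases Nat.lt_or_ge j (k + 1) with hjk | hjk
      · rw [hrest j (by omega)]
        exact hY4 j hj1 (by omega)
      · obtain rfl : j = k + 1 := by omega
        rw [← hB]
        exact ⟨hA2, fun hall hne => (hA3 (fun i => hall ▸ Finset.mem_univ i) hne).1⟩

end Pool.Agent.Lib.MP_358b54_lc.Levels
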