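import Mathlib
import Pool.Agent.Lib.MP_358b54_lc.Improve
import Pool.Agent.Lib.MP_358b54_lc.Core

/-!
# Agents with a common ranking of the goods and one arbitrary agent

All agents except `b` rank the goods in the same way. The goods are placed in the order of decreasing
value; the agent `b` always holds one of her favourite bundles.
-/

set_option autoImplicit false
set_option linter.unusedSectionVars false

namespace Pool.Agent.Lib.MP_358b54_lc.Ranking

open Finset Pool.Agent.Lib.MP_358b54_lc

variable {N M : Type} [Fintype N] [DecidableEq N] [Fintype M] [DecidableEq M]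

/-- The invariant: the bundles partition `S`, the agents `i ≠ b` are EFX-satisfied and `b` holds a
favourite bundle. -/
def Inv (v : N → M → ℝ) (b : N) (S : Finset M) (A : N → Finset M) : Prop :=
  IsPartial A ∧ univ.biUnion A = S ∧
    (∀ i, i ≠ b → ∀ j, ∀ g ∈ A j, val v i ((A j).erase g) ≤ val v i (A i)) ∧
      ∀ j, val v b (A j) ≤ val v b (A b)

/-- A permutation of the bundles which harms nobody keeps the invariant. -/
lemma perm_inv {v : N → M → ℝ} {b : N} {S : Finset M} {A : N → Finset M} (hA : Inv v b S A)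
    (π : Equiv.Perm N) (h1 : ∀ i, i ≠ b → val v i (A i) ≤ val v i (A (π i)))
    (h2 : val v b (A b) ≤ val v b (A (π b))) : Inv v b S (fun i => A (π i)) := by
  refine ⟨fun i j hij => hA.1 _ _ fun h => hij (π.injective h), ?_, ?_, ?_⟩
  · rw [← hA.2.1]
    ext g
    simp only [Finset.mem_biUnion, Finset.mem_univ, true_and]
    constructor
    · rintro ⟨i, hi⟩
      exact ⟨_, hi⟩
    · rintro ⟨i, hi⟩
      exact ⟨π.symm i, by rwa [Equiv.apply_symm_apply]⟩
  · intro i hi j g hg
    exact (hA.2.2.1 i hi _ g hg).trans (h1 i hi)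
  · intro j
    exact (hA.2.2.2 _).trans h2

/-- Adding a least valued good to a bundle which is not envied by the agents `i ≠ b`. -/
lemma add_inv {v : N → M → ℝ} (hv : ∀ i g, 0 ≤ v i g) {b : N} {S : Finset M}
    {A : N → Finset M} (hA : Inv v b S A) {h : M} (hS : h ∉ S)
    (hlight : ∀ i, i ≠ b → ∀ g ∈ S, v i h ≤ v i g) (B : N → Finset M) (hB : IsPartial B)
    (hBS : univ.biUnion B = S)
    (hB1 : ∀ i, i ≠ b → ∀ j, ∀ g ∈ B j, val v i ((B j).erase g) ≤ val v i (B i)) (k : N)
    (hk : ∀ i, i ≠ b → val v i (B k) ≤ val v i (B i))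
    (hb : ∀ j, val v b (Function.update B k (insert h (B k)) j) ≤
      val v b (Function.update B k (insert h (B k)) b)) :
    Inv v b (insert h S) (Function.update B k (insert h (B k))) := by
  have hmem : ∀ j, ∀ g ∈ B j, g ∈ S := by
    intro j g hg
    rw [← hBS]
    exact Finset.mem_biUnion.2 ⟨j, Finset.mem_univ _, hg⟩
  have hh : ∀ j, h ∉ B j := fun j hj => hS (hmem j h hj)
  have hge : ∀ i j, val v i (B j) ≤ val v i (Function.update B k (insert h (B k)) j) := by
    intro i j
    by_cases hjk : j = k
    · subst hjk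
      rw [Function.update_self]
      exact val_mono hv i (Finset.subset_insert _ _)
    · rw [Function.update_of_ne hjk]
  refine ⟨?_, ?_, ?_, hb⟩
  · intro i j hij
    by_cases hi : i = k
    · subst hi
      rw [Function.update_self, Function.update_of_ne (Ne.symm hij), Finset.disjoint_insert_left]
      exact ⟨hh j, hB _ _ hij⟩
    · by_cases hj : j = k
      · subst hj
        rw [Function.update_self, Function.update_of_ne hij, Finset.disjoint_insert_right]
        exact ⟨hh i, hB _ _ hij⟩
      · rw [Function.update_of_ne hi, Function.update_of_ne hj]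
        exact hB _ _ hij
  · ext g
    rw [Finset.mem_biUnion, Finset.mem_insert, ← hBS, Finset.mem_biUnion]
    constructor
    · rintro ⟨i, -, hi⟩
      by_cases hik : i = k
      · subst hik
        rw [Function.update_self, Finset.mem_insert] at hi
        rcases hi with hi | hi
        · exact Or.inl hi
        · exact Or.inr ⟨_, Finset.mem_univ _, hi⟩
      · rw [Function.update_of_ne hik] at hi
        exact Or.inr ⟨i, Finset.mem_univ _, hi⟩
    · rintro (rfl | ⟨i, -, hi⟩)
      · exact ⟨k, Finset.mem_univ _, by rw [Function.update_self]; exact Finset.mem_insert_self _ _⟩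
      · refine ⟨i, Finset.mem_univ _, ?_⟩
        by_cases hik : i = k
        · subst hik
          rw [Function.update_self]
          exact Finset.mem_insert_of_mem hi
        · rwa [Function.update_of_ne hik]
  · intro i hi j g hg
    by_cases hjk : j = k
    · subst hjk
      refine le_trans ?_ ((hk i hi).trans (hge i i))
      rw [Function.update_self] at hg ⊢
      have h1 : val v i ((insert h (B j)).erase g) = val v i (B j) + v i h - v i g := by
        have h3 := val_erase v i hg
        have h4 : val v i (insert h (B j)) = v i h + val v i (B j) := by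
          unfold val
          rw [Finset.sum_insert (hh j)]
        linarith
      have h2 : v i h ≤ v i g := by
        rcases Finset.mem_insert.1 hg with rfl | hg'
        · exact le_refl _
        · exact hlight i hi g (hmem j g hg')
      rw [h1]
      linarith
    · rw [Function.update_of_ne hjk] at hg ⊢
      exact (hB1 i hi j g hg).trans (hge i i)

/-- The inductive step. -/
lemma step {v : N → M → ℝ} (hv : ∀ i g, 0 ≤ v i g) {b : N} {S : Finset M}
    {A₀ : N → Finset M} (hA₀ : Inv v b S A₀) {h : M} (hS : h ∉ S)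
    (hlight : ∀ i, i ≠ b → ∀ g ∈ S, v i h ≤ v i g) : ∃ A, Inv v b (insert h S) A := by
  classical
  -- an allocation with the invariant which is best for the agents `i ≠ b`
  obtain ⟨A, hA, hmax⟩ := Finset.exists_max_image
    ((univ : Finset (N → Finset M)).filter fun A => Inv v b S A)
    (fun A => ∑ i ∈ univ.erase b, val v i (A i)) ⟨A₀, Finset.mem_filter.2 ⟨Finset.mem_univ _, hA₀⟩⟩
  rw [Finset.mem_filter] at hA
  replace hA := hA.2
  obtain ⟨par, hpar⟩ : ∃ par : N → N, ∀ j, (∃ i, i ≠ b ∧ val v i (A i) < val v i (A j)) →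
      par j ≠ b ∧ val v (par j) (A (par j)) < val v (par j) (A j) := by
    have h1 : ∀ j, ∃ i, (∃ i, i ≠ b ∧ val v i (A i) < val v i (A j)) →
        i ≠ b ∧ val v i (A i) < val v i (A j) := by
      intro j
      by_cases hj : ∃ i, i ≠ b ∧ val v i (A i) < val v i (A j)
      · obtain ⟨i, hi⟩ := hj
        exact ⟨i, fun _ => hi⟩
      · exact ⟨j, fun hcon => absurd hcon hj⟩
    choose par hpar using h1
    exact ⟨par, hpar⟩
  obtain ⟨Env, hEnv⟩ : ∃ Env : N → Prop, ∀ j, Env j ↔
      ∃ i, i ≠ b ∧ val v i (A i) < val v i (A j) := ⟨_, fun _ => Iff.rfl⟩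
  obtain ⟨f, hf⟩ : ∃ f : N → N, ∀ j, f j = if Env j then par j else j := ⟨_, fun _ => rfl⟩
  have hfE : ∀ j, Env j → f j ≠ b ∧ val v (f j) (A (f j)) < val v (f j) (A j) := by
    intro j hj
    rw [hf j, if_pos hj]
    exact hpar j ((hEnv j).1 hj)
  have hfN : ∀ j, ¬ Env j → f j = j := by
    intro j hj
    rw [hf j, if_neg hj]
  -- all periodic points of `f` are fixed points
  have hper : ∀ x ∈ Function.periodicPts f, f x = x := by
    have hbij := Function.bijOn_periodicPts (f := f)
    let e : Equiv.Perm (Function.periodicPts f) := hbij.equiv f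
    let σ : Equiv.Perm N := Equiv.Perm.ofSubtype (p := (· ∈ Function.periodicPts f)) e.symm
    have hσ : ∀ i, i ∈ Function.periodicPts f → f (σ i) = i := by
      intro i hi
      have h1 : σ i = (e.symm ⟨i, hi⟩ : Function.periodicPts f) :=
        Equiv.Perm.ofSubtype_apply_of_mem (p := (· ∈ Function.periodicPts f)) e.symm hi
      have h2 : e (e.symm ⟨i, hi⟩) = ⟨i, hi⟩ := e.apply_symm_apply _
      have h3 : ((e (e.symm ⟨i, hi⟩) : Function.periodicPts f) : N) =
          f ((e.symm ⟨i, hi⟩ : Function.periodicPts f) : N) := rfl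
      rw [h1, ← h3, h2]
    have hσ' : ∀ i, i ∉ Function.periodicPts f → σ i = i := fun i hi =>
      Equiv.Perm.ofSubtype_apply_of_not_mem (p := (· ∈ Function.periodicPts f)) e.symm hi
    have hstep : ∀ i, σ i = i ∨ (i ≠ b ∧ val v i (A i) < val v i (A (σ i))) := by
      intro i
      by_cases hi : i ∈ Function.periodicPts f
      · by_cases hE : Env (σ i)
        · right
          have h4 := hfE _ hE
          rw [hσ i hi] at h4
          exact h4
        · left
          have h4 := hfN _ hE
          rw [hσ i hi] at h4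
          exact h4.symm
      · exact Or.inl (hσ' i hi)
    have hσb : σ b = b := by
      rcases hstep b with h4 | h4
      · exact h4
      · exact absurd rfl h4.1
    have hle : ∀ i, val v i (A i) ≤ val v i (A (σ i)) := by
      intro i
      rcases hstep i with h4 | h4
      · rw [h4]
      · exact h4.2.le
    have hinv : Inv v b S (fun i => A (σ i)) :=
      perm_inv hA σ (fun i _ => hle i) (by rw [hσb])
    have hcmp := hmax _ (Finset.mem_filter.2 ⟨Finset.mem_univ _, hinv⟩)
    have hall : ∀ i, σ i = i := by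
      intro i
      rcases hstep i with h4 | h4
      · exact h4
      · exfalso
        have h5 : ∑ i ∈ univ.erase b, val v i (A i) < ∑ i ∈ univ.erase b, val v i (A (σ i)) :=
          Finset.sum_lt_sum (fun j _ => hle j)
            ⟨i, Finset.mem_erase.2 ⟨h4.1, Finset.mem_univ _⟩, h4.2⟩
        exact absurd hcmp (not_le.2 h5)
    intro x hx
    have h6 := hσ x hx
    rwa [hall x] at h6
  -- the enviers of `A b` lead back to a bundle which is not envied
  have hex : ∃ m, ¬ Env (f^[m] b) := by
    obtain ⟨m, hm⟩ := exists_periodic f b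
    refine ⟨m, fun hE => ?_⟩
    have h1 := hfE _ hE
    rw [hper _ hm] at h1
    exact lt_irrefl _ h1.2
  obtain ⟨m, hm, hmin⟩ : ∃ m, ¬ Env (f^[m] b) ∧ ∀ k < m, Env (f^[k] b) :=
    ⟨Nat.find hex, Nat.find_spec hex, fun k hk => not_not.1 (Nat.find_min hex hk)⟩
  -- the shift along the path
  have hshift : ∀ k ≤ m, ∃ σ : Equiv.Perm N, σ b = f^[k] b ∧
      (∀ x, x ≠ b → σ x = x ∨ val v x (A x) < val v x (A (σ x))) ∧
        ∀ x, (∀ a ≤ k, x ≠ f^[a] b) → σ x = x := by
    intro k
    induction k with
    | zero =>
      intro _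
      exact ⟨1, rfl, fun x _ => Or.inl rfl, fun x _ => rfl⟩
    | succ k ih =>
      intro hk
      obtain ⟨σ, h1, h2, h3⟩ := ih (by omega)
      have hEk : Env (f^[k] b) := hmin k (by omega)
      have hy' : f^[k + 1] b = f (f^[k] b) := Function.iterate_succ_apply' f k b
      have hnew : ∀ a ≤ k, f^[k + 1] b ≠ f^[a] b := by
        intro a ha heq
        have h4 : f^[m] b = f^[m - (k + 1) + a] b := by
          calc f^[m] b = f^[m - (k + 1) + (k + 1)] b := by
                congr 1
                congr 1
                omega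
            _ = f^[m - (k + 1)] (f^[k + 1] b) := Function.iterate_add_apply _ _ _ _
            _ = f^[m - (k + 1)] (f^[a] b) := by rw [heq]
            _ = f^[m - (k + 1) + a] b := (Function.iterate_add_apply _ _ _ _).symm
        have h5 := hmin (m - (k + 1) + a) (by omega)
        rw [← h4] at h5
        exact hm h5
      have hfix : σ (f^[k + 1] b) = f^[k + 1] b := h3 _ hnew
      have hE' : val v (f^[k + 1] b) (A (f^[k + 1] b)) < val v (f^[k + 1] b) (A (f^[k] b)) := by
        rw [hy']
        exact (hfE _ hEk).2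
      refine ⟨σ.trans (Equiv.swap (f^[k] b) (f^[k + 1] b)), ?_, ?_, ?_⟩
      · rw [Equiv.trans_apply, h1, Equiv.swap_apply_left]
      · intro x hx
        rw [Equiv.trans_apply]
        by_cases hxy : x = f^[k + 1] b
        · right
          rw [hxy, hfix, Equiv.swap_apply_right]
          exact hE'
        · have h4 : σ x ≠ f^[k] b := by
            intro h5
            rw [← h1] at h5
            exact hx (σ.injective h5)
          have h5 : σ x ≠ f^[k + 1] b := by
            intro h6
            have h7 : σ x = σ (f^[k + 1] b) := by rw [h6, hfix]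
            exact hxy (σ.injective h7)
          rw [Equiv.swap_apply_of_ne_of_ne h4 h5]
          exact h2 x hx
      · intro x hx
        rw [Equiv.trans_apply, h3 x fun a ha => hx a (by omega)]
        exact Equiv.swap_apply_of_ne_of_ne (hx k (by omega)) (hx (k + 1) le_rfl)
  obtain ⟨σ, hσb, hσ, -⟩ := hshift m le_rfl
  obtain ⟨s, hs⟩ : ∃ s, s = f^[m] b := ⟨_, rfl⟩
  rw [← hs] at hσb hm
  have hunenv : ∀ i, i ≠ b → val v i (A s) ≤ val v i (A i) := by
    intro i hi
    by_contra hcon
    exact hm ((hEnv s).2 ⟨i, hi, not_le.1 hcon⟩)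
  have hσle : ∀ i, i ≠ b → val v i (A i) ≤ val v i (A (σ i)) := by
    intro i hi
    rcases hσ i hi with h4 | h4
    · rw [h4]
    · exact h4.le
  by_cases hcase : val v b (A b) ≤ val v b (insert h (A s))
  · -- `b` takes the enlarged bundle, the others shift
    refine ⟨_, add_inv hv hA hS hlight (fun i => A (σ i)) ?_ ?_ ?_ b ?_ ?_⟩
    · exact fun i j hij => hA.1 _ _ fun hh => hij (σ.injective hh)
    · rw [← hA.2.1]
      ext g
      simp only [Finset.mem_biUnion, Finset.mem_univ, true_and]
      constructor
      · rintro ⟨i, hi⟩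
        exact ⟨_, hi⟩
      · rintro ⟨i, hi⟩
        exact ⟨σ.symm i, by rwa [Equiv.apply_symm_apply]⟩
    · intro i hi j g hg
      exact (hA.2.2.1 i hi _ g hg).trans (hσle i hi)
    · intro i hi
      rw [hσb]
      exact (hunenv i hi).trans (hσle i hi)
    · intro j
      rw [Function.update_self]
      by_cases hj : j = b
      · rw [hj, Function.update_self]
      · rw [Function.update_of_ne hj, hσb]
        exact (hA.2.2.2 _).trans hcase
  · -- `b` keeps her bundle
    rw [not_le] at hcase
    have hsb : s ≠ b := by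
      intro hsb
      rw [hsb] at hcase
      exact absurd (val_mono hv b (Finset.subset_insert h (A b))) (not_le.2 hcase)
    refine ⟨_, add_inv hv hA hS hlight A hA.1 hA.2.1 hA.2.2.1 s hunenv ?_⟩
    intro j
    rw [Function.update_of_ne (Ne.symm hsb)]
    by_cases hj : j = s
    · rw [hj, Function.update_self]
      exact hcase.le
    · rw [Function.update_of_ne hj]
      exact hA.2.2.2 _

/-- At most `n` goods: everybody gets at most one good, `b` a favourite one. -/
lemma base_inv {v : N → M → ℝ} (hv : ∀ i g, 0 ≤ v i g) (b : N) (S : Finset M)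
    (hcard : S.card ≤ Fintype.card N) : ∃ A, Inv v b S A := by
  classical
  rcases S.eq_empty_or_nonempty with h0 | hne
  · subst h0
    refine ⟨fun _ => ∅, fun i j _ => Finset.disjoint_empty_left _, ?_, ?_, fun j => le_refl _⟩
    · ext g
      simp
    · intro i _ j g hg
      exact absurd hg (Finset.notMem_empty _)
  · obtain ⟨g₀, hg₀, hmax⟩ := S.exists_max_image (v b) hne
    obtain ⟨e⟩ : Nonempty (S ↪ N) := by
      refine Function.Embedding.nonempty_of_card_le ?_
      rw [Fintype.card_coe]
      exact hcard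
    obtain ⟨φ, hφ, hφb⟩ : ∃ φ : S → N, Function.Injective φ ∧ φ ⟨g₀, hg₀⟩ = b := by
      refine ⟨fun g => Equiv.swap (e ⟨g₀, hg₀⟩) b (e g), ?_, ?_⟩
      · exact (Equiv.injective _).comp e.injective
      · exact Equiv.swap_apply_left _ _
    obtain ⟨A, hA⟩ : ∃ A : N → Finset M, ∀ i g, g ∈ A i ↔ ∃ hg : g ∈ S, φ ⟨g, hg⟩ = i := by
      refine ⟨fun i => univ.filter fun g => ∃ hg : g ∈ S, φ ⟨g, hg⟩ = i, fun i g => ?_⟩
      rw [Finset.mem_filter]
      exact ⟨fun h => h.2, fun h => ⟨Finset.mem_univ _, h⟩⟩
    have hone : ∀ i, ∀ g ∈ A i, ∀ g' ∈ A i, g = g' := by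
      intro i g hg g' hg'
      obtain ⟨h1, h2⟩ := (hA i g).1 hg
      obtain ⟨h3, h4⟩ := (hA i g').1 hg'
      have h5 := hφ (h2.trans h4.symm)
      exact congrArg Subtype.val h5
    have hsing : ∀ i, ∀ g ∈ A i, A i = {g} := by
      intro i g hg
      ext g'
      rw [Finset.mem_singleton]
      exact ⟨fun h => hone i g' h g hg, fun h => h ▸ hg⟩
    refine ⟨A, ?_, ?_, ?_, ?_⟩
    · intro i j hij
      rw [Finset.disjoint_left]
      intro g hg hg'
      obtain ⟨h1, h2⟩ := (hA i g).1 hg
      obtain ⟨h3, h4⟩ := (hA j g).1 hg'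
      exact hij (h2.symm.trans h4)
    · ext g
      rw [Finset.mem_biUnion]
      constructor
      · rintro ⟨i, -, hi⟩
        exact ((hA i g).1 hi).1
      · intro hg
        exact ⟨φ ⟨g, hg⟩, Finset.mem_univ _, (hA _ g).2 ⟨hg, rfl⟩⟩
    · intro i _ j g hg
      rw [hsing j g hg, Finset.erase_singleton]
      exact (le_of_eq (Finset.sum_empty)).trans (val_nonneg hv i _)
    · intro j
      have hb : A b = {g₀} := hsing b g₀ ((hA b g₀).2 ⟨hg₀, hφb⟩)
      rcases (A j).eq_empty_or_nonempty with h1 | ⟨g, hg⟩
      · rw [h1]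
        exact (le_of_eq (Finset.sum_empty)).trans (val_nonneg hv b _)
      · rw [hsing j g hg, hb]
        unfold val
        rw [Finset.sum_singleton, Finset.sum_singleton]
        exact hmax g ((hA j g).1 hg).1

/-- If `E ⊆ S` has at most `n` goods, the agents `i ≠ b` value every good of `S \ E` at most as much
as every good of `E` and do not disagree about the order of two goods of `S \ E`, then `S` has an
allocation with the invariant. -/
theorem exists_inv {v : N → M → ℝ} (hv : ∀ i g, 0 ≤ v i g) (b : N) (E : Finset M)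
    (hE : E.card ≤ Fintype.card N) (S : Finset M) (hES : E ⊆ S)
    (htop : ∀ i, i ≠ b → ∀ g ∈ E, ∀ h ∈ S \ E, v i h ≤ v i g)
    (hrank : ∀ i, i ≠ b → ∀ j, j ≠ b → ∀ g ∈ S \ E, ∀ h ∈ S \ E, v i g < v i h → v j g ≤ v j h) :
    ∃ A, Inv v b S A := by
  classical
  induction hcard : (S \ E).card generalizing S with
  | zero =>
    rw [Finset.card_eq_zero, Finset.sdiff_eq_empty_iff_subset] at hcard
    have hSE : S = E := Finset.Subset.antisymm hcard hES
    exact base_inv hv b S (hSE ▸ hE)
  | succ k ih =>
    have hne : (S \ E).Nonempty := by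
      rw [← Finset.card_pos, hcard]
      omega
    obtain ⟨h, hh, hmin⟩ := (S \ E).exists_min_image (fun g => ∑ i ∈ univ.erase b, v i g) hne
    have hhS : h ∈ S := (Finset.mem_sdiff.1 hh).1
    have hhE : h ∉ E := (Finset.mem_sdiff.1 hh).2
    have hsd : (S.erase h) \ E = (S \ E).erase h := by
      ext g
      simp only [Finset.mem_sdiff, Finset.mem_erase]
      tauto
    have hsub : ∀ g, g ∈ (S.erase h) \ E → g ∈ S \ E := by
      intro g hg
      rw [hsd] at hg
      exact Finset.mem_of_mem_erase hg
    obtain ⟨A₀, hA₀⟩ := ih (S.erase h) (fun g hg => Finset.mem_erase.2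
        ⟨fun heq => hhE (heq ▸ hg), hES hg⟩)
      (fun i hi g hg g' hg' => htop i hi g hg g' (hsub g' hg'))
      (fun i hi j hj g hg g' hg' => hrank i hi j hj g (hsub g hg) g' (hsub g' hg'))
      (by rw [hsd, Finset.card_erase_of_mem hh, hcard]; rfl)
    have hlight : ∀ i, i ≠ b → ∀ g ∈ S.erase h, v i h ≤ v i g := by
      intro i hi g hg
      by_cases hgE : g ∈ E
      · exact htop i hi g hgE h hh
      · have hg' : g ∈ S \ E := Finset.mem_sdiff.2 ⟨Finset.mem_of_mem_erase hg, hgE⟩
        by_contra hcon
        rw [not_le] at hcon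
        have h1 : ∑ j ∈ univ.erase b, v j g < ∑ j ∈ univ.erase b, v j h :=
          Finset.sum_lt_sum (fun j hj => hrank i hi j (Finset.ne_of_mem_erase hj) g hg' h hh hcon)
            ⟨i, Finset.mem_erase.2 ⟨hi, Finset.mem_univ _⟩, hcon⟩
        exact absurd (hmin g hg') (not_le.2 h1)
    obtain ⟨A, hA⟩ := step hv hA₀ (Finset.notMem_erase h S) hlight
    rw [Finset.insert_erase hhS] at hA
    exact ⟨A, hA⟩

end Pool.Agent.Lib.MP_358b54_lc.Ranking
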