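import Mathlib
import Pool.Agent.Lib.MP_358b54_lc.Defs

/-!
# Moving a good, exchanging bundles
-/

set_option autoImplicit false
set_option linter.unusedSectionVars false

namespace Pool.Agent.Lib.MP_358b54_lc.Swap

open Finset Pool.Agent.Lib.MP_358b54_lc

variable {N M : Type} [Fintype N] [DecidableEq N] [Fintype M] [DecidableEq M]

lemma mem_pool {A : N → Finset M} {g : M} : g ∈ pool A ↔ ∀ i, g ∉ A i := by
  unfold pool
  simp

/-- The agent `i` takes the bundle of `j` without `g`, the agent `j` takes the bundle of `i`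
with `g`. -/
def swap (A : N → Finset M) (i j : N) (g : M) : N → Finset M := fun k =>
  if k = i then (A j).erase g else if k = j then insert g (A i) else A k

lemma swap_left (A : N → Finset M) (i j : N) (g : M) : swap A i j g i = (A j).erase g := by
  unfold swap
  rw [if_pos rfl]

lemma swap_right (A : N → Finset M) {i j : N} (hij : i ≠ j) (g : M) :
    swap A i j g j = insert g (A i) := by
  unfold swap
  rw [if_neg hij.symm, if_pos rfl]

lemma swap_other (A : N → Finset M) {i j k : N} (hki : k ≠ i) (hkj : k ≠ j) (g : M) :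
    swap A i j g k = A k := by
  unfold swap
  rw [if_neg hki, if_neg hkj]

/-- Which bundle holds a good after the exchange. -/
lemma mem_swap {A : N → Finset M} {i j : N} (hij : i ≠ j) {g : M} (x : M) (k : N) :
    x ∈ swap A i j g k ↔
      ((k ≠ i ∧ k ≠ j ∧ x ∈ A k) ∨ (k = i ∧ x ∈ A j ∧ x ≠ g) ∨ (k = j ∧ (x ∈ A i ∨ x = g))) := by
  by_cases hki : k = i
  · subst hki
    rw [swap_left, Finset.mem_erase]
    constructor
    · rintro ⟨h1, h2⟩
      exact Or.inr (Or.inl ⟨rfl, h2, h1⟩)
    · rintro (⟨h1, -, -⟩ | ⟨-, h2, h3⟩ | ⟨h1, -⟩)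
      · exact absurd rfl h1
      · exact ⟨h3, h2⟩
      · exact absurd h1 hij
  · by_cases hkj : k = j
    · subst hkj
      rw [swap_right A hij, Finset.mem_insert]
      constructor
      · rintro (h | h)
        · exact Or.inr (Or.inr ⟨rfl, Or.inr h⟩)
        · exact Or.inr (Or.inr ⟨rfl, Or.inl h⟩)
      · rintro (⟨-, h1, -⟩ | ⟨h1, -, -⟩ | ⟨-, h | h⟩)
        · exact absurd rfl h1
        · exact absurd h1 hki
        · exact Or.inr h
        · exact Or.inl h
    · rw [swap_other A hki hkj]
      constructor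
      · intro h
        exact Or.inl ⟨hki, hkj, h⟩
      · rintro (⟨-, -, h⟩ | ⟨h1, -, -⟩ | ⟨h1, -⟩)
        · exact h
        · exact absurd h1 hki
        · exact absurd h1 hkj

lemma swap_partial {A : N → Finset M} (hA : IsPartial A) {i j : N} (hij : i ≠ j) {g : M}
    (hg : g ∈ A j) : IsPartial (swap A i j g) := by
  intro k l hkl
  rw [Finset.disjoint_left]
  intro x hxk hxl
  rw [mem_swap hij] at hxk hxl
  have key : ∀ a c : N, a ≠ c → x ∈ A a → x ∈ A c → False := fun a c hac ha hc =>
    Finset.disjoint_left.1 (hA a c hac) ha hc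
  rcases hxk with ⟨h1, h2, h3⟩ | ⟨h1, h2, h3⟩ | ⟨h1, h2⟩ <;>
    rcases hxl with ⟨k1, k2, k3⟩ | ⟨k1, k2, k3⟩ | ⟨k1, k2⟩
  · exact key k l hkl h3 k3
  · exact key k j h2 h3 k2
  · rcases k2 with k2 | k2
    · exact key k i h1 h3 k2
    · exact key k j h2 h3 (k2 ▸ hg)
  · exact key j l k2.symm h2 k3
  · exact hkl (h1.trans k1.symm)
  · rcases k2 with k2 | k2
    · exact key j i hij.symm h2 k2
    · exact h3 k2
  · rcases h2 with h2 | h2
    · exact key i l k1.symm h2 k3
    · exact key j l k2.symm (h2 ▸ hg) k3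
  · rcases h2 with h2 | h2
    · exact key i j hij h2 k2
    · exact k3 h2
  · exact hkl (h1.trans k1.symm)

lemma swap_pool {A : N → Finset M} (hA : IsPartial A) {i j : N} (hij : i ≠ j) {g : M}
    (hg : g ∈ A j) : pool (swap A i j g) = pool A := by
  ext x
  rw [mem_pool, mem_pool]
  constructor
  · intro h k hxk
    by_cases hki : k = i
    · apply h j
      rw [mem_swap hij]
      exact Or.inr (Or.inr ⟨rfl, Or.inl (hki ▸ hxk)⟩)
    · by_cases hkj : k = j
      · by_cases hxg : x = g
        · apply h j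
          rw [mem_swap hij]
          exact Or.inr (Or.inr ⟨rfl, Or.inr hxg⟩)
        · apply h i
          rw [mem_swap hij]
          exact Or.inr (Or.inl ⟨rfl, hkj ▸ hxk, hxg⟩)
      · apply h k
        rw [mem_swap hij]
        exact Or.inl ⟨hki, hkj, hxk⟩
  · intro h k hxk
    rw [mem_swap hij] at hxk
    rcases hxk with ⟨-, -, h3⟩ | ⟨-, h2, -⟩ | ⟨-, h2 | h2⟩
    · exact h k h3
    · exact h j h2
    · exact h i h2
    · exact h j (h2 ▸ hg)

/-- Permuting the bundles. -/
lemma perm_partial {A : N → Finset M} (hA : IsPartial A) (π : Equiv.Perm N) :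
    IsPartial (fun i => A (π i)) := fun _ _ hij =>
  hA _ _ fun h => hij (π.injective h)

lemma perm_pool (A : N → Finset M) (π : Equiv.Perm N) : pool (fun i => A (π i)) = pool A := by
  ext x
  rw [mem_pool, mem_pool]
  constructor
  · intro h i
    have := h (π.symm i)
    simpa using this
  · intro h i
    exact h _

end Pool.Agent.Lib.MP_358b54_lc.Swap
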