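import Mathlib
import Pool.Agent.Lib.MP_358b54_lc.Swap
import Pool.Agent.Lib.MP_358b54_lc.Ranking

/-!
# The leximin principle: nearly identical agents and one arbitrary agent
-/

set_option autoImplicit false
set_option linter.unusedSectionVars false

namespace Pool.Agent.Lib.MP_358b54_lc.Leximin

open Finset Pool.Agent.Lib.MP_358b54_lc Pool.Agent.Lib.MP_358b54_lc.Swap

variable {N M : Type} [Fintype N] [DecidableEq N] [Fintype M] [DecidableEq M]

/-- The allocation which gives everything outside `D` to `b`. -/
lemma exists_partial (D : Finset M) (b : N) :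
    ∃ A : N → Finset M, IsPartial A ∧ pool A = D := by
  refine ⟨fun i => if i = b then Dᶜ else ∅, fun i j hij => ?_, ?_⟩
  · by_cases hi : i = b
    · have hj : j ≠ b := fun h => hij (hi.trans h.symm)
      simp only [if_neg hj]
      exact Finset.disjoint_empty_right _
    · simp only [if_neg hi]
      exact Finset.disjoint_empty_left _
  · ext x
    rw [mem_pool]
    constructor
    · intro h
      have h1 := h b
      simp only [if_true, Finset.mem_compl, not_not] at h1
      exact h1
    · intro h i
      by_cases hi : i = b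
      · simp only [if_pos hi, Finset.mem_compl, not_not]
        exact h
      · simp only [if_neg hi]
        exact Finset.notMem_empty x

/-- The number of the pairs of a slot and a bundle with a greater key. -/
noncomputable def height {L : Type} [LinearOrder L] (key : N → Finset M → L) (k : N)
    (X : Finset M) : ℕ := by
  classical
  exact (univ.filter fun q : N × Finset M => key k X < key q.1 q.2).card

lemma height_lt {L : Type} [LinearOrder L] (key : N → Finset M → L) {k l : N}
    {X Y : Finset M} (h : key k X < key l Y) : height key l Y + 1 ≤ height key k X := by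
  classical
  unfold height
  rw [Nat.succ_le_iff]
  refine Finset.card_lt_card ?_
  rw [Finset.ssubset_iff_of_subset]
  · refine ⟨(l, Y), Finset.mem_filter.2 ⟨Finset.mem_univ _, h⟩, fun h' => ?_⟩
    exact absurd (Finset.mem_filter.1 h').2 (lt_irrefl _)
  · intro q hq
    rw [Finset.mem_filter] at hq ⊢
    exact ⟨hq.1, h.trans hq.2⟩

/-- The leximin principle: there is an allocation `A` such that no change of two slots `i`, `j`
lifts both above the key of `A i`. -/
lemma exists_leximin {L : Type} [LinearOrder L] (key : N → Finset M → L) (D : Finset M)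
    (b : N) : ∃ A : N → Finset M, IsPartial A ∧ pool A = D ∧
      ∀ A' : N → Finset M, IsPartial A' → pool A' = D → ∀ i j, i ≠ j →
        (∀ k, k ≠ i → k ≠ j → A' k = A k) →
        key i (A i) < key i (A' i) → key i (A i) < key j (A' j) → False := by
  classical
  obtain ⟨A₀, h1, h2⟩ := exists_partial D b
  obtain ⟨A, hA, hmin⟩ := Finset.exists_min_image
    (univ.filter fun A : N → Finset M => IsPartial A ∧ pool A = D)
    (fun A => ∑ k, 3 ^ height key k (A k)) ⟨A₀, Finset.mem_filter.2 ⟨Finset.mem_univ _, h1, h2⟩⟩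
  rw [Finset.mem_filter] at hA
  refine ⟨A, hA.2.1, hA.2.2, fun A' hA'1 hA'2 i j hij hoth hi hj => ?_⟩
  have h3 := hmin A' (Finset.mem_filter.2 ⟨Finset.mem_univ _, hA'1, hA'2⟩)
  have hsplit : ∀ B : N → Finset M, ∑ k, 3 ^ height key k (B k) =
      3 ^ height key i (B i) + (3 ^ height key j (B j) +
        ∑ k ∈ (univ.erase i).erase j, 3 ^ height key k (B k)) := by
    intro B
    rw [← Finset.add_sum_erase _ _ (Finset.mem_univ i),
      ← Finset.add_sum_erase _ _ (Finset.mem_erase.2 ⟨hij.symm, Finset.mem_univ j⟩)]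
  rw [hsplit A, hsplit A'] at h3
  have h4 : ∑ k ∈ (univ.erase i).erase j, 3 ^ height key k (A' k) =
      ∑ k ∈ (univ.erase i).erase j, 3 ^ height key k (A k) := by
    refine Finset.sum_congr rfl fun k hk => ?_
    rw [Finset.mem_erase, Finset.mem_erase] at hk
    rw [hoth k hk.2.1 hk.1]
  have hp : ∀ {a c : ℕ}, a + 1 ≤ c → 3 * 3 ^ a ≤ 3 ^ c := by
    intro a c h
    rw [← pow_succ']
    exact Nat.pow_le_pow_right (by norm_num) h
  have h5 := hp (height_lt key hi)
  have h6 := hp (height_lt key hj)
  have h7 : 0 < 3 ^ height key i (A i) := by positivity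
  have h8 : 0 < 3 ^ height key j (A j) := by positivity
  omega

/-- Near-identity on the goods outside `D` yields an allocation of these goods in which every bundle
is acceptable for its owner, the bundle of `b` is acceptable for everybody else, hence, after an
exchange, one in which `b` holds a favourite bundle. -/
theorem exists_alloc (v : N → M → ℝ) (hv : ∀ i g, 0 ≤ v i g) (b : N) (D : Finset M)
    (φ : N → Finset M → ℝ)
    (hmono : ∀ i, i ≠ b → ∀ X Y : Finset M, Disjoint X D → Disjoint Y D →
      val v i X < val v i Y → φ i X ≤ φ i Y)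
    (hcross : ∀ i, i ≠ b → ∀ j, j ≠ b → ∀ X : Finset M, ∀ g ∉ X, Disjoint (insert g X) D →
      φ i X < φ j (insert g X)) :
    ∃ A : N → Finset M, IsPartial A ∧ pool A = D ∧
      (∀ i, i ≠ b → ∀ j, ∀ g ∈ A j, val v i ((A j).erase g) ≤ val v i (A i)) ∧
        ∀ j, val v b (A j) ≤ val v b (A b) := by
  classical
  have hvm : ∀ (i : N) (X Y : Finset M), X ⊆ Y → val v i X ≤ val v i Y := fun i X Y h =>
    Finset.sum_le_sum_of_subset_of_nonneg h fun g _ _ => hv i g
  have hv0 : ∀ (i : N) (X : Finset M), 0 ≤ val v i X := fun i X =>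
    Finset.sum_nonneg fun g _ => hv i g
  have hdisj : ∀ A : N → Finset M, pool A = D → ∀ k, Disjoint (A k) D := by
    intro A hA k
    rw [Finset.disjoint_left]
    intro x hx hxD
    rw [← hA, mem_pool] at hxD
    exact hxD k hx
  have hdise : ∀ A : N → Finset M, pool A = D → ∀ k g, Disjoint ((A k).erase g) D :=
    fun A hA k g => Disjoint.mono_left (Finset.erase_subset _ _) (hdisj A hA k)
  -- it suffices to satisfy the agents other than `b` with an acceptable bundle in the slot `b`
  suffices hmain : ∃ A : N → Finset M, IsPartial A ∧ pool A = D ∧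
      (∀ i, i ≠ b → ∀ k, ∀ g ∈ A k, val v i ((A k).erase g) ≤ val v i (A i)) ∧
      (∀ i, i ≠ b → ∀ k, ∀ g ∈ A k, val v i ((A k).erase g) ≤ val v i (A b)) by
    obtain ⟨A, hA1, hA2, h1, h2⟩ := hmain
    obtain ⟨β, -, hβ⟩ := Finset.exists_max_image (univ : Finset N) (fun j => val v b (A j))
      ⟨b, Finset.mem_univ _⟩
    refine ⟨fun i => A (Equiv.swap b β i), perm_partial hA1 _, (perm_pool A _).trans hA2,
      ?_, ?_⟩
    · intro i hib j g hg
      show val v i ((A (Equiv.swap b β j)).erase g) ≤ val v i (A (Equiv.swap b β i))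
      by_cases hiβ : i = β
      · have e : A (Equiv.swap b β i) = A b := by rw [hiβ, Equiv.swap_apply_right]
        rw [e]
        exact h2 i hib _ g hg
      · rw [Equiv.swap_apply_of_ne_of_ne hib hiβ]
        exact h1 i hib _ g hg
    · intro j
      show val v b (A (Equiv.swap b β j)) ≤ val v b (A (Equiv.swap b β b))
      rw [Equiv.swap_apply_left]
      exact hβ _ (Finset.mem_univ _)
  by_cases hne : (univ.filter fun i : N => i ≠ b).Nonempty
  · -- the value of a bundle in the slot `b`
    let m : Finset M → ℝ := fun X => (univ.filter fun i : N => i ≠ b).inf' hne fun i => φ i X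
    have hm_le : ∀ i, i ≠ b → ∀ X, m X ≤ φ i X := by
      intro i hi X
      have h : i ∈ univ.filter fun k : N => k ≠ b :=
        Finset.mem_filter.2 ⟨Finset.mem_univ _, hi⟩
      exact Finset.inf'_le (fun k => φ k X) h
    have hm_gt : ∀ i, i ≠ b → ∀ X : Finset M, ∀ g ∉ X, Disjoint (insert g X) D →
        φ i X < m (insert g X) := by
      intro i hi X g hg hd
      show φ i X < (univ.filter fun i : N => i ≠ b).inf' hne fun i => φ i (insert g X)
      rw [Finset.lt_inf'_iff]
      intro j hj
      exact hcross i hi j (Finset.mem_filter.1 hj).2 X g hg hd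
    let key : N → Finset M → ℝ ×ₗ ℝ := fun k X =>
      if k = b then toLex (m X, 0) else toLex (φ k X, val v k X + 1)
    have kb : ∀ X, key b X = toLex (m X, 0) := fun X => by
      simp only [key, if_true]
    have kk : ∀ k, k ≠ b → ∀ X, key k X = toLex (φ k X, val v k X + 1) := fun k hk X => by
      simp only [key, if_neg hk]
    obtain ⟨A, hA1, hA2, hopt⟩ := exists_leximin key D b
    refine ⟨A, hA1, hA2, ?_, ?_⟩
    · intro i hi j g hg
      by_contra hcon
      rw [not_le] at hcon
      have hij : i ≠ j := by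
        rintro rfl
        exact absurd (hvm i _ _ (Finset.erase_subset g (A i))) (not_le.2 hcon)
      have hgi : g ∉ A i := fun h => Finset.disjoint_left.1 (hA1 i j hij) h hg
      have hdi : Disjoint (insert g (A i)) D := by
        rw [Finset.disjoint_insert_left]
        exact ⟨Finset.disjoint_left.1 (hdisj A hA2 j) hg, hdisj A hA2 i⟩
      refine hopt (swap A i j g) (swap_partial hA1 hij hg) ((swap_pool hA1 hij hg).trans hA2)
        i j hij (fun k hki hkj => swap_other A hki hkj g) ?_ ?_
      · rw [swap_left, kk i hi, kk i hi, Prod.Lex.toLex_lt_toLex]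
        rcases lt_or_eq_of_le
          (hmono i hi (A i) ((A j).erase g) (hdisj A hA2 i) (hdise A hA2 j g) hcon) with h | h
        · exact Or.inl h
        · exact Or.inr ⟨h, by
            show val v i (A i) + 1 < val v i ((A j).erase g) + 1
            linarith⟩
      · rw [swap_right A hij, kk i hi]
        by_cases hjb : j = b
        · rw [hjb, kb, Prod.Lex.toLex_lt_toLex]
          exact Or.inl (hm_gt i hi (A i) g hgi hdi)
        · rw [kk j hjb, Prod.Lex.toLex_lt_toLex]
          exact Or.inl (hcross i hi j hjb (A i) g hgi hdi)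
    · intro i hi j g hg
      by_contra hcon
      rw [not_le] at hcon
      have hbj : b ≠ j := by
        rintro rfl
        exact absurd (hvm i _ _ (Finset.erase_subset g (A b))) (not_le.2 hcon)
      refine hopt (fun k => A (Equiv.swap b j k)) (perm_partial hA1 _)
        ((perm_pool A _).trans hA2) b j hbj (fun k hkb hkj => ?_) ?_ ?_
      · show A (Equiv.swap b j k) = A k
        rw [Equiv.swap_apply_of_ne_of_ne hkb hkj]
      · show key b (A b) < key b (A (Equiv.swap b j b))
        rw [Equiv.swap_apply_left, kb, kb, Prod.Lex.toLex_lt_toLex]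
        refine Or.inl ?_
        have h1 := hm_le i hi (A b)
        have h2 := hmono i hi (A b) ((A j).erase g) (hdisj A hA2 b) (hdise A hA2 j g) hcon
        have h3 := hm_gt i hi ((A j).erase g) g (Finset.notMem_erase g (A j))
          (by rw [Finset.insert_erase hg]; exact hdisj A hA2 j)
        rw [Finset.insert_erase hg] at h3
        exact lt_of_le_of_lt (h1.trans h2) h3
      · show key b (A b) < key j (A (Equiv.swap b j j))
        rw [Equiv.swap_apply_right, kb, kk j hbj.symm, Prod.Lex.toLex_lt_toLex]
        rcases lt_or_eq_of_le (hm_le j hbj.symm (A b)) with h | h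
        · exact Or.inl h
        · refine Or.inr ⟨h, ?_⟩
          show (0 : ℝ) < val v j (A b) + 1
          have := hv0 j (A b)
          linarith
  · obtain ⟨A, hA1, hA2⟩ := exists_partial D b
    have hno : ∀ i : N, ¬ i ≠ b := fun i hi =>
      hne ⟨i, Finset.mem_filter.2 ⟨Finset.mem_univ _, hi⟩⟩
    exact ⟨A, hA1, hA2, fun i hi => absurd hi (hno i), fun i hi => absurd hi (hno i)⟩

/-- The same with the invariant of `Ranking`. -/
theorem exists_inv (v : N → M → ℝ) (hv : ∀ i g, 0 ≤ v i g) (b : N) (E : Finset M)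
    (φ : N → Finset M → ℝ)
    (hmono : ∀ i, i ≠ b → ∀ X ⊆ E, ∀ Y ⊆ E, val v i X < val v i Y → φ i X ≤ φ i Y)
    (hcross : ∀ i, i ≠ b → ∀ j, j ≠ b → ∀ X ⊆ E, ∀ g ∈ E, g ∉ X → φ i X < φ j (insert g X)) :
    ∃ A, Ranking.Inv v b E A := by
  have hsub : ∀ X : Finset M, Disjoint X Eᶜ → X ⊆ E := by
    intro X hX g hg
    by_contra h
    exact Finset.disjoint_left.1 hX hg (Finset.mem_compl.2 h)
  obtain ⟨A, h1, h2, h3, h4⟩ := exists_alloc v hv b Eᶜ φ
    (fun i hi X Y hX hY h => hmono i hi X (hsub X hX) Y (hsub Y hY) h)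
    (fun i hi j hj X g hg hd => hcross i hi j hj X
      ((Finset.subset_insert g X).trans (hsub _ hd)) g
      (hsub _ hd (Finset.mem_insert_self g X)) hg)
  refine ⟨A, h1, ?_, h3, h4⟩
  ext g
  have h5 : g ∈ pool A ↔ g ∈ Eᶜ := by rw [h2]
  rw [mem_pool, Finset.mem_compl] at h5
  rw [Finset.mem_biUnion]
  constructor
  · rintro ⟨i, -, hi⟩
    by_contra h
    exact h5.2 h i hi
  · intro hg
    by_contra h
    exact h5.1 (fun i hi => h ⟨i, Finset.mem_univ _, hi⟩) hg

/-- Adding a tail to an allocation with the invariant. -/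
theorem extend {v : N → M → ℝ} (hv : ∀ i g, 0 ≤ v i g) (b : N) (E : Finset M)
    (hE : ∃ A, Ranking.Inv v b E A) (S : Finset M) (hES : E ⊆ S)
    (htop : ∀ i, i ≠ b → ∀ g ∈ E, ∀ h ∈ S \ E, v i h ≤ v i g)
    (hrank : ∀ i, i ≠ b → ∀ j, j ≠ b → ∀ g ∈ S \ E, ∀ h ∈ S \ E, v i g < v i h → v j g ≤ v j h) :
    ∃ A, Ranking.Inv v b S A := by
  classical
  induction hcard : (S \ E).card generalizing S with
  | zero =>
    rw [Finset.card_eq_zero, Finset.sdiff_eq_empty_iff_subset] at hcard
    have hSE : S = E := Finset.Subset.antisymm hcard hES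
    rw [hSE]
    exact hE
  | succ k ih =>
    have hne : (S \ E).Nonempty := by
      rw [← Finset.card_pos, hcard]
      omega
    obtain ⟨h, hh, hmin⟩ := (S \ E).exists_min_image (fun g => ∑ i ∈ univ.erase b, v i g) hne
    have hhS : h ∈ S := (Finset.mem_sdiff.1 hh).1
    have hhE : h ∉ E := (Finset.mem_sdiff.1 hh).2
    have hsd : (S.erase h) \ E = (S \ E).erase h := by
      ext g
      simp only [Finset.mem_sdiff, Finset.mem_erase]
      tauto
    have hsub : ∀ g, g ∈ (S.erase h) \ E → g ∈ S \ E := by
      intro g hg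
      rw [hsd] at hg
      exact Finset.mem_of_mem_erase hg
    obtain ⟨A₀, hA₀⟩ := ih (S.erase h) (fun g hg => Finset.mem_erase.2
        ⟨fun heq => hhE (heq ▸ hg), hES hg⟩)
      (fun i hi g hg g' hg' => htop i hi g hg g' (hsub g' hg'))
      (fun i hi j hj g hg g' hg' => hrank i hi j hj g (hsub g hg) g' (hsub g' hg'))
      (by rw [hsd, Finset.card_erase_of_mem hh, hcard]; rfl)
    have hlight : ∀ i, i ≠ b → ∀ g ∈ S.erase h, v i h ≤ v i g := by
      intro i hi g hg
      by_cases hgE : g ∈ E
      · exact htop i hi g hgE h hh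
      · have hg' : g ∈ S \ E := Finset.mem_sdiff.2 ⟨Finset.mem_of_mem_erase hg, hgE⟩
        by_contra hcon
        rw [not_le] at hcon
        have h1 : ∑ j ∈ univ.erase b, v j g < ∑ j ∈ univ.erase b, v j h :=
          Finset.sum_lt_sum (fun j hj => hrank i hi j (Finset.ne_of_mem_erase hj) g hg' h hh hcon)
            ⟨i, Finset.mem_erase.2 ⟨hi, Finset.mem_univ _⟩, hcon⟩
        exact absurd (hmin g hg') (not_le.2 h1)
    obtain ⟨A, hA⟩ := Ranking.step hv hA₀ (Finset.notMem_erase h S) hlight
    rw [Finset.insert_erase hhS] at hA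
    exact ⟨A, hA⟩

end Pool.Agent.Lib.MP_358b54_lc.Leximin
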