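import Mathlib
import Pool.Agent.Lib.MP_358b54_lc.CoreSub

/-!
# The moment bound for a set of goods of the pool of a maximal EFX allocation
-/

set_option autoImplicit false

namespace Pool.Agent.Lib.MP_358b54_lc

open Finset

variable {N M : Type} [Fintype N] [DecidableEq N] [Fintype M] [DecidableEq M]

/-- A maximal EFX partial allocation leaves fewer than `n` goods unallocated. -/
theorem pool_lt [Nonempty N] {v : N → M → ℝ} (hv : ∀ i g, 0 ≤ v i g) {A : N → Finset M}
    (hA : Maxi v A) : (pool A).card < Fintype.card N := by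
  classical
  by_contra hcon
  rw [not_lt] at hcon
  obtain ⟨lab, hlab, hinj⟩ : ∃ lab : N → M, (∀ j, lab j ∈ pool A) ∧ Function.Injective lab := by
    have h1 : Fintype.card N ≤ Fintype.card (pool A) := by rwa [Fintype.card_coe]
    obtain ⟨f⟩ := Function.Embedding.nonempty_of_card_le h1
    exact ⟨fun j => (f j : M), fun j => (f j).2, fun i j h => f.injective (Subtype.ext h)⟩
  have h2 : ∀ j, ∃ (i : N) (Z : Finset M), (Src v A j → Z ⊆ insert (lab j) (A j) ∧
      val v i (A i) < val v i Z ∧ ∀ t, ∀ g ∈ Z, val v t (Z.erase g) ≤ val v t (A t)) ∧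
      (¬ Src v A j → val v i (A i) < val v i (A j)) := by
    intro j
    by_cases hj : Src v A j
    · obtain ⟨Z, hZ, -, ⟨t, ht⟩, hmin⟩ := envy_insert hv hA j (lab j) (hlab j)
      exact ⟨t, Z, fun _ => ⟨hZ, ht, hmin⟩, fun h => absurd hj h⟩
    · have h3 := hj
      unfold Src at h3
      push Not at h3
      obtain ⟨i, hi⟩ := h3
      exact ⟨i, ∅, fun h => absurd h hj, fun _ => hi⟩
  choose pre Zs h3 h4 using h2
  obtain ⟨k₀, hk₀⟩ := exists_periodic pre (Classical.arbitrary N)
  refine cyc hA (univ.filter fun j => j ∈ Function.periodicPts pre)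
    ⟨pre^[k₀] (Classical.arbitrary N), ?_⟩ pre ?_ ?_
    (fun j => if Src v A j then Zs j else A j)
    (fun j => if Src v A j then {lab j} else ∅) ?_ ?_ ?_ ?_ ?_
  · rw [Finset.mem_filter]
    exact ⟨Finset.mem_univ _, hk₀⟩
  · intro j hj
    rw [Finset.mem_filter] at hj ⊢
    exact ⟨Finset.mem_univ _, (Function.bijOn_periodicPts (f := pre)).mapsTo hj.2⟩
  · intro j hj j' hj' h
    rw [Finset.mem_filter] at hj hj'
    exact (Function.bijOn_periodicPts (f := pre)).injOn hj.2 hj'.2 h
  · intro j _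
    show (if Src v A j then Zs j else A j) ⊆ A j ∪ (if Src v A j then {lab j} else ∅)
    by_cases hs : Src v A j
    · rw [if_pos hs, if_pos hs]
      refine (h3 j hs).1.trans ?_
      intro x hx
      rw [Finset.mem_union, Finset.mem_singleton]
      exact (Finset.mem_insert.1 hx).symm
    · rw [if_neg hs, if_neg hs]
      exact Finset.subset_union_left
  · intro j _
    show (if Src v A j then ({lab j} : Finset M) else ∅) ⊆ pool A
    by_cases hs : Src v A j
    · rw [if_pos hs]
      exact Finset.singleton_subset_iff.2 (hlab j)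
    · rw [if_neg hs]
      exact Finset.empty_subset _
  · intro j _ j' _ hne
    show Disjoint (if Src v A j then ({lab j} : Finset M) else ∅)
      (if Src v A j' then ({lab j'} : Finset M) else ∅)
    by_cases hs : Src v A j
    · by_cases hs' : Src v A j'
      · rw [if_pos hs, if_pos hs', Finset.disjoint_singleton]
        exact fun h => hne (hinj h)
      · rw [if_neg hs']
        exact Finset.disjoint_empty_right _
    · rw [if_neg hs]
      exact Finset.disjoint_empty_left _
  · intro j _ i g hg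
    by_cases hs : Src v A j
    · simp only [if_pos hs] at hg ⊢
      exact (h3 j hs).2.2 i g hg
    · simp only [if_neg hs] at hg ⊢
      exact hA.efx i j g hg
  · intro j _
    by_cases hs : Src v A j
    · simp only [if_pos hs]
      exact (h3 j hs).2.1
    · simp only [if_neg hs]
      exact h4 j hs

/-- The moment bound for a set `R` of goods of the pool, with a logarithm of `|R|` only. -/
theorem moment_sub [Nonempty N] {v : N → M → ℝ} (hv : ∀ i g, 0 ≤ v i g) {A : N → Finset M}
    (hA : Maxi v A) (K : Finset N) {R : Finset M} (hRP : R ⊆ pool A) (r : ℕ) (hr : 1 ≤ r) :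
    (R.card : ℝ) ≤ (1 + Real.log R.card) * (types v K + r - 1) +
      ((r * (1 + Real.log R.card)) ^ r *
        ∑ g ∈ R, ((relOut v K g).card.choose r : ℝ)) ^ (1 / (r + 1 : ℝ)) := by
  classical
  obtain ⟨r, rfl⟩ : ∃ r', r = r' + 1 := ⟨r - 1, by omega⟩
  obtain ⟨L, hL⟩ : ∃ L : ℝ, L = 1 + Real.log R.card := ⟨_, rfl⟩
  have hL1 : 1 ≤ L := by
    rw [hL]
    have := Real.log_natCast_nonneg R.card
    linarith
  rw [← hL]
  have h1 : (R.card : ℝ) ^ 2 ≤ L * ∑ h ∈ R, ((rel v h).card : ℝ) := by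
    rcases R.eq_empty_or_nonempty with h0 | h0
    · rw [h0]
      simp
    · have hmain := Core_sub hv hA hRP h0
      have hpos := rel_pos hv hA
      have hcs : (∑ h ∈ R, (1 : ℝ)) ^ 2 ≤
          (∑ h ∈ R, (1 : ℝ) / (rel v h).card) * ∑ h ∈ R, ((rel v h).card : ℝ) := by
        refine Finset.sum_sq_le_sum_mul_sum_of_sq_le_mul _ (fun h hh => ?_) (fun h hh => ?_)
          (fun h hh => ?_)
        · exact (one_div_pos.2 (hpos h (hRP hh))).le
        · exact (hpos h (hRP hh)).le
        · rw [one_div, inv_mul_cancel₀ (hpos h (hRP hh)).ne', one_pow]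
      rw [Finset.sum_const, nsmul_eq_mul, mul_one] at hcs
      refine hcs.trans (mul_le_mul_of_nonneg_right ?_ (by positivity))
      rw [hL]
      exact hmain
  obtain ⟨m, hm⟩ : ∃ m : M → ℕ, m = fun g => (relOut v K g).card := ⟨_, rfl⟩
  obtain ⟨Q, hQ⟩ : ∃ Q : Finset M, Q = R.filter fun g => r + 1 ≤ m g := ⟨_, rfl⟩
  obtain ⟨s, hs⟩ : ∃ s : ℝ, s = ∑ g ∈ Q, (m g : ℝ) := ⟨_, rfl⟩
  have hs0 : 0 ≤ s := by rw [hs]; positivity
  obtain ⟨T, hT⟩ : ∃ T : ℝ, T = (r + 1 : ℝ) ^ (r + 1) * ∑ g ∈ R, ((m g).choose (r + 1) : ℝ) :=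
    ⟨_, rfl⟩
  have hT0 : 0 ≤ T := by rw [hT]; positivity
  have hQP : Q ⊆ R := by rw [hQ]; exact Finset.filter_subset _ _
  -- the sum of the demands
  have h3 : ∑ h ∈ R, ((rel v h).card : ℝ) ≤ ((types v K : ℝ) + r) * R.card + s := by
    have h4 : ∑ h ∈ R, ((rel v h).card : ℝ) ≤
        ∑ h ∈ R, (((types v K : ℝ) + r) + if r + 1 ≤ m h then (m h : ℝ) else 0) := by
      refine Finset.sum_le_sum fun h _ => ?_
      have h5 : ((rel v h).card : ℝ) ≤ (types v K : ℝ) + (m h : ℝ) := by
        have := rel_le_relOut v K h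
        rw [hm]
        exact_mod_cast this
      split_ifs with h6
      · have : (0 : ℝ) ≤ r := Nat.cast_nonneg _
        linarith
      · have h7 : (m h : ℝ) ≤ r := by exact_mod_cast (by omega : m h ≤ r)
        linarith
    refine h4.trans (le_of_eq ?_)
    rw [Finset.sum_add_distrib, Finset.sum_const, nsmul_eq_mul, ← Finset.sum_filter, ← hQ, ← hs]
    ring
  have h10 : (R.card : ℝ) ^ 2 ≤ L * (((types v K : ℝ) + r) * R.card + s) :=
    h1.trans (mul_le_mul_of_nonneg_left h3 (by linarith))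
  -- the power mean inequality
  have h11 : s ^ (r + 1) ≤ (R.card : ℝ) ^ r * T := by
    have h12 : s ^ (r + 1) ≤ (Q.card : ℝ) ^ r * ∑ g ∈ Q, (m g : ℝ) ^ (r + 1) := by
      rcases Q.eq_empty_or_nonempty with h0 | h0
      · rw [hs, h0]
        simp
      · have hcardpos : (0 : ℝ) < Q.card := by exact_mod_cast h0.card_pos
        have h13 := pow_sum_div_card_le_sum_pow (s := Q) (f := fun g => (m g : ℝ))
          (fun g _ => Nat.cast_nonneg _) r
        rw [div_le_iff₀ (pow_pos hcardpos r)] at h13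
        rw [hs]
        linarith
    have h14 : ∑ g ∈ Q, (m g : ℝ) ^ (r + 1) ≤ T := by
      rw [hT, Finset.mul_sum]
      refine le_trans (Finset.sum_le_sum fun g hg => ?_)
        (Finset.sum_le_sum_of_subset_of_nonneg hQP fun g _ _ => by positivity)
      have h15 : r + 1 ≤ m g := by
        rw [hQ, Finset.mem_filter] at hg
        exact hg.2
      have h16 := pow_le_choose_mul (r + 1) (m g) h15
      exact_mod_cast h16
    have h17 : (Q.card : ℝ) ^ r ≤ (R.card : ℝ) ^ r :=
      pow_le_pow_left₀ (Nat.cast_nonneg _) (by exact_mod_cast Finset.card_le_card hQP) r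
    calc s ^ (r + 1) ≤ (Q.card : ℝ) ^ r * ∑ g ∈ Q, (m g : ℝ) ^ (r + 1) := h12
      _ ≤ (R.card : ℝ) ^ r * T := mul_le_mul h17 h14 (by positivity) (by positivity)
  have h18 := moment_arith r (Nat.cast_nonneg _) (by linarith : (0:ℝ) ≤ L)
    (by positivity : (0 : ℝ) ≤ (types v K : ℝ) + r) hs0 hT0 h10 h11
  have h19 : L * ((types v K : ℝ) + ((r + 1 : ℕ) : ℝ) - 1) = L * ((types v K : ℝ) + r) := by
    push_cast
    ring
  have h20 : (((r + 1 : ℕ) : ℝ) * L) ^ (r + 1) *
      ∑ g ∈ R, ((relOut v K g).card.choose (r + 1) : ℝ) = L ^ (r + 1) * T := by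
    rw [hT, hm, mul_pow]
    push_cast
    ring
  rw [h19, h20]
  exact h18

end Pool.Agent.Lib.MP_358b54_lc
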