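import Mathlib
import Pool.Agent.Lib.MP_358b54_lc.Swap

/-!
# Goods which all agents rank last and in the same order
-/

set_option autoImplicit false
set_option linter.unusedSectionVars false

namespace Pool.Agent.Lib.MP_358b54_lc.Tail

open Finset Pool.Agent.Lib.MP_358b54_lc Pool.Agent.Lib.MP_358b54_lc.Swap

variable {N M : Type} [Fintype N] [DecidableEq N] [Nonempty N] [Fintype M] [DecidableEq M]

/-- Envy-cycle elimination: after a permutation which harms nobody some bundle is unenvied. -/
lemma exists_unenvied (v : N → M → ℝ) (A : N → Finset M) :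
    ∃ π : Equiv.Perm N, (∀ i, val v i (A i) ≤ val v i (A (π i))) ∧
      ∃ s, ∀ i, val v i (A (π s)) ≤ val v i (A (π i)) := by
  classical
  obtain ⟨π, hπ, hmax⟩ := Finset.exists_max_image
    (univ.filter fun π : Equiv.Perm N => ∀ i, val v i (A i) ≤ val v i (A (π i)))
    (fun π => ∑ i, val v i (A (π i)))
    ⟨1, Finset.mem_filter.2 ⟨Finset.mem_univ _, fun i => le_refl _⟩⟩
  rw [Finset.mem_filter] at hπ
  refine ⟨π, hπ.2, ?_⟩
  by_contra hcon
  push Not at hcon
  choose par hpar using hcon
  -- the periodic points of `par`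
  have hbij := Function.bijOn_periodicPts (f := par)
  let e : Equiv.Perm (Function.periodicPts par) := hbij.equiv par
  let σ : Equiv.Perm N := Equiv.Perm.ofSubtype (p := (· ∈ Function.periodicPts par)) e.symm
  have hσ : ∀ i, i ∈ Function.periodicPts par → par (σ i) = i := by
    intro i hi
    have h1 : σ i = (e.symm ⟨i, hi⟩ : Function.periodicPts par) :=
      Equiv.Perm.ofSubtype_apply_of_mem (p := (· ∈ Function.periodicPts par)) e.symm hi
    have h2 : e (e.symm ⟨i, hi⟩) = ⟨i, hi⟩ := e.apply_symm_apply _
    have h3 : ((e (e.symm ⟨i, hi⟩) : Function.periodicPts par) : N) =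
        par ((e.symm ⟨i, hi⟩ : Function.periodicPts par) : N) := rfl
    rw [h1, ← h3, h2]
  have hσ' : ∀ i, i ∉ Function.periodicPts par → σ i = i := fun i hi =>
    Equiv.Perm.ofSubtype_apply_of_not_mem (p := (· ∈ Function.periodicPts par)) e.symm hi
  have hstep : ∀ i, i ∈ Function.periodicPts par →
      val v i (A (π i)) < val v i (A (π (σ i))) := by
    intro i hi
    have h := hpar (σ i)
    rw [hσ i hi] at h
    exact h
  have hle : ∀ i, val v i (A (π i)) ≤ val v i (A (π (σ i))) := by
    intro i
    by_cases hi : i ∈ Function.periodicPts par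
    · exact (hstep i hi).le
    · rw [hσ' i hi]
  have h1 := hmax (σ.trans π) (Finset.mem_filter.2 ⟨Finset.mem_univ _, fun i =>
    (hπ.2 i).trans (hle i)⟩)
  obtain ⟨i₀⟩ := (inferInstance : Nonempty N)
  obtain ⟨p, hp⟩ : ∃ p, p ∈ Function.periodicPts par := by
    obtain ⟨a, b, hab, h⟩ := Finite.exists_ne_map_eq_of_infinite (fun k : ℕ => par^[k] i₀)
    rcases lt_or_gt_of_ne hab with hlt | hlt
    · refine ⟨par^[a] i₀, Function.mk_mem_periodicPts (n := b - a) (by omega) ?_⟩
      show par^[b - a] (par^[a] i₀) = par^[a] i₀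
      rw [← Function.iterate_add_apply, Nat.sub_add_cancel hlt.le]
      exact h.symm
    · refine ⟨par^[b] i₀, Function.mk_mem_periodicPts (n := a - b) (by omega) ?_⟩
      show par^[a - b] (par^[b] i₀) = par^[b] i₀
      rw [← Function.iterate_add_apply, Nat.sub_add_cancel hlt.le]
      exact h
  have h2 : ∑ i, val v i (A (π i)) < ∑ i, val v i (A (π (σ i))) :=
    Finset.sum_lt_sum (fun i _ => hle i) ⟨p, Finset.mem_univ _, hstep p hp⟩
  exact absurd h1 (not_le.2 h2)

/-- Adding one good which nobody values more than any allocated good. -/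
lemma add_one (v : N → M → ℝ) (hv : ∀ i g, 0 ≤ v i g) (A : N → Finset M) (hA : IsPartial A)
    (hE : IsEFX v A) (c : M) (hc : c ∈ pool A) (hle : ∀ i j, ∀ g ∈ A j, v i c ≤ v i g) :
    ∃ A' : N → Finset M, IsPartial A' ∧ IsEFX v A' ∧ pool A' = (pool A).erase c ∧
      (∀ i, val v i (A i) ≤ val v i (A' i)) ∧ (∀ j, ∀ g ∈ A' j, g = c ∨ ∃ k, g ∈ A k) := by
  classical
  obtain ⟨π, hπ, s, hs⟩ := exists_unenvied v A
  rw [mem_pool] at hc
  have hmono : ∀ (i : N) (X Y : Finset M), X ⊆ Y → val v i X ≤ val v i Y := fun i X Y h =>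
    Finset.sum_le_sum_of_subset_of_nonneg h fun g _ _ => hv i g
  set A' : N → Finset M := fun i => if i = s then insert c (A (π s)) else A (π i) with hA'
  have hA's : A' s = insert c (A (π s)) := by simp only [hA', if_true]
  have hA'o : ∀ i, i ≠ s → A' i = A (π i) := fun i hi => by simp only [hA', if_neg hi]
  have hsub : ∀ i, A (π i) ⊆ A' i := by
    intro i
    by_cases hi : i = s
    · rw [hi, hA's]
      exact Finset.subset_insert _ _
    · rw [hA'o i hi]
  have hval : ∀ i, val v i (A (π i)) ≤ val v i (A' i) := fun i => hmono i _ _ (hsub i)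
  refine ⟨A', ?_, ?_, ?_, fun i => (hπ i).trans (hval i), ?_⟩
  · intro i j hij
    by_cases hi : i = s
    · have hj : j ≠ s := fun h => hij (hi.trans h.symm)
      rw [hi, hA's, hA'o j hj, Finset.disjoint_insert_left]
      exact ⟨hc _, hA _ _ fun h => hj (π.injective h).symm⟩
    · by_cases hj : j = s
      · rw [hj, hA's, hA'o i hi, Finset.disjoint_insert_right]
        exact ⟨hc _, hA _ _ fun h => hi (π.injective h)⟩
      · rw [hA'o i hi, hA'o j hj]
        exact hA _ _ fun h => hij (π.injective h)
  · intro i j g hg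
    by_cases hj : j = s
    · rw [hj, hA's] at hg ⊢
      have hcs : c ∉ A (π s) := hc _
      rcases Finset.mem_insert.1 hg with hgc | hgA
      · rw [hgc, Finset.erase_insert hcs]
        exact (hs i).trans (hval i)
      · have h1 : val v i ((insert c (A (π s))).erase g) = v i c + val v i (A (π s)) - v i g := by
          have h2 : val v i ((insert c (A (π s))).erase g) + v i g =
              val v i (insert c (A (π s))) :=
            Finset.sum_erase_add _ _ (Finset.mem_insert_of_mem hgA)
          have h3 : val v i (insert c (A (π s))) = v i c + val v i (A (π s)) :=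
            Finset.sum_insert hcs
          linarith
        have h4 := hle i (π s) g hgA
        have h5 := (hs i).trans (hval i)
        linarith
    · rw [hA'o j hj] at hg ⊢
      exact (hE i (π j) g hg).trans ((hπ i).trans (hval i))
  · ext x
    rw [mem_pool, Finset.mem_erase, mem_pool]
    constructor
    · intro h
      refine ⟨?_, fun i hx => h (π.symm i) (hsub _ (by simpa using hx))⟩
      rintro rfl
      exact h s (by rw [hA's]; exact Finset.mem_insert_self _ _)
    · rintro ⟨h1, h2⟩ i hx
      by_cases hi : i = s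
      · rw [hi, hA's] at hx
        rcases Finset.mem_insert.1 hx with h | h
        · exact h1 h
        · exact h2 _ h
      · rw [hA'o i hi] at hx
        exact h2 _ hx
  · intro j g hg
    by_cases hj : j = s
    · rw [hj, hA's] at hg
      rcases Finset.mem_insert.1 hg with h | h
      · exact Or.inl h
      · exact Or.inr ⟨_, h⟩
    · rw [hA'o j hj] at hg
      exact Or.inr ⟨_, hg⟩

variable {E : Type} [Fintype E] [DecidableEq E]

/-- Goods `E ⊕ Fin k`: nobody values a good of `Fin k` more than a good of `E`, and all agents rank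
the goods of `Fin k` in the same order. Every EFX allocation of goods of `E` extends to an EFX
allocation which allocates all goods of `Fin k` in addition. -/
theorem extend {k : ℕ} (v : N → E ⊕ Fin k → ℝ) (hv : ∀ i g, 0 ≤ v i g)
    (htail : ∀ i e a, v i (Sum.inr a) ≤ v i (Sum.inl e))
    (hord : ∀ i (a b : Fin k), a ≤ b → v i (Sum.inr b) ≤ v i (Sum.inr a))
    (A : N → Finset E) (hA : IsPartial A) (hE : IsEFX (fun i e => v i (Sum.inl e)) A) :
    ∃ A' : N → Finset (E ⊕ Fin k), IsPartial A' ∧ IsEFX v A' ∧
      pool A' = (pool A).map Function.Embedding.inl ∧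
      ∀ i, val (fun i e => v i (Sum.inl e)) i (A i) ≤ val v i (A' i) := by
  classical
  suffices h : ∀ t : ℕ, t ≤ k → ∃ A' : N → Finset (E ⊕ Fin k), IsPartial A' ∧ IsEFX v A' ∧
      (∀ g, g ∈ pool A' ↔ (∃ e ∈ pool A, g = Sum.inl e) ∨ ∃ a : Fin k, t ≤ a.val ∧ g = Sum.inr a) ∧
      ∀ i, val (fun i e => v i (Sum.inl e)) i (A i) ≤ val v i (A' i) by
    obtain ⟨A', h1, h2, h3, h4⟩ := h k le_rfl
    refine ⟨A', h1, h2, ?_, h4⟩
    ext g
    rw [h3, Finset.mem_map]
    constructor
    · rintro (⟨e, he, hg⟩ | ⟨a, ha, -⟩)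
      · exact ⟨e, he, hg.symm⟩
      · exact absurd a.isLt (not_lt.2 ha)
    · rintro ⟨e, he, hg⟩
      exact Or.inl ⟨e, he, hg.symm⟩
  intro t
  induction t with
  | zero =>
    intro _
    have hval : ∀ i (X : Finset E), val v i (X.map Function.Embedding.inl) =
        val (fun i e => v i (Sum.inl e)) i X := fun i X => Finset.sum_map _ _ _
    refine ⟨fun i => (A i).map Function.Embedding.inl, ?_, ?_, ?_, fun i => (hval i _).ge⟩
    · intro i j hij
      exact (Finset.disjoint_map _).2 (hA i j hij)
    · intro i j g hg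
      obtain ⟨e, he, rfl⟩ := Finset.mem_map.1 hg
      rw [← Finset.map_erase, hval, hval]
      exact hE i j e he
    · intro g
      rw [mem_pool]
      constructor
      · intro h
        rcases g with e | a
        · left
          refine ⟨e, ?_, rfl⟩
          rw [mem_pool]
          intro i hi
          exact h i (Finset.mem_map_of_mem _ hi)
        · right
          exact ⟨a, Nat.zero_le _, rfl⟩
      · rintro (⟨e, he, rfl⟩ | ⟨a, -, rfl⟩) i hi
        · rw [mem_pool] at he
          obtain ⟨e', he', h⟩ := Finset.mem_map.1 hi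
          have : e' = e := Sum.inl_injective h
          exact he i (this ▸ he')
        · obtain ⟨e', -, h⟩ := Finset.mem_map.1 hi
          exact absurd h (by simp)
  | succ t ih =>
    intro ht
    obtain ⟨B, h1, h2, h3, h4⟩ := ih (by omega)
    have hc : (Sum.inr ⟨t, by omega⟩ : E ⊕ Fin k) ∈ pool B := by
      rw [h3]
      exact Or.inr ⟨⟨t, by omega⟩, le_rfl, rfl⟩
    obtain ⟨A', k1, k2, k3, k4, -⟩ := add_one v hv B h1 h2 (Sum.inr ⟨t, by omega⟩) hc (by
      intro i j g hg
      rcases g with e | a
      · exact htail i e _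
      · apply hord
        by_contra hcon
        rw [not_le, Fin.lt_def] at hcon
        have h5 : (Sum.inr a : E ⊕ Fin k) ∈ pool B := by
          rw [h3]
          exact Or.inr ⟨a, hcon.le, rfl⟩
        rw [mem_pool] at h5
        exact h5 j hg)
    refine ⟨A', k1, k2, ?_, fun i => (h4 i).trans (k4 i)⟩
    intro g
    rw [k3, Finset.mem_erase, h3]
    constructor
    · rintro ⟨hg, ⟨e, he, hge⟩ | ⟨a, ha, hga⟩⟩
      · exact Or.inl ⟨e, he, hge⟩
      · right
        refine ⟨a, ?_, hga⟩
        have hne : a.val ≠ t := by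
          intro h
          apply hg
          rw [hga]
          congr 1
          exact Fin.ext h
        omega
    · rintro (⟨e, he, hge⟩ | ⟨a, ha, hga⟩)
      · refine ⟨?_, Or.inl ⟨e, he, hge⟩⟩
        rw [hge]
        simp
      · refine ⟨?_, Or.inr ⟨a, by omega, hga⟩⟩
        rw [hga]
        intro h
        have h5 := Sum.inr_injective h
        rw [h5] at ha
        simp at ha

end Pool.Agent.Lib.MP_358b54_lc.Tail
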