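import Mathlib
import Pool.Agent.Lib.MP_358b54_lc.Tail

/-!
# Adding a common tail to an EFX allocation: general index set
-/

set_option autoImplicit false
set_option linter.unusedSectionVars false

namespace Pool.Agent.Lib.MP_358b54_lc.Tail

open Finset Pool.Agent.Lib.MP_358b54_lc Pool.Agent.Lib.MP_358b54_lc.Swap

variable {N E C : Type} [Fintype N] [DecidableEq N] [Nonempty N] [Fintype E] [DecidableEq E]
  [Fintype C] [DecidableEq C]

/-- `C` is a common tail: nobody values a good of `C` more than a good of `E`, and no two agents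
disagree about the order of two goods of `C`. -/
def IsTail (v : N → E ⊕ C → ℝ) : Prop :=
  (∀ i e c, v i (Sum.inr c) ≤ v i (Sum.inl e)) ∧
    ∀ i j c c', v i (Sum.inr c) < v i (Sum.inr c') → v j (Sum.inr c) ≤ v j (Sum.inr c')

/-- The valuations restricted to the goods of `E`. -/
def res (v : N → E ⊕ C → ℝ) : N → E → ℝ := fun i e => v i (Sum.inl e)

/-- If `C` is a common tail then a common order of `C` exists. -/
lemma exists_order (v : N → E ⊕ C → ℝ) (h : IsTail v) : ∃ f : Fin (Fintype.card C) ≃ C,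
    ∀ i a b, a ≤ b → v i (Sum.inr (f b)) ≤ v i (Sum.inr (f a)) := by
  classical
  obtain ⟨W, hW⟩ : ∃ W : C → ℝ, W = fun c => ∑ i, v i (Sum.inr c) := ⟨_, rfl⟩
  have hWle : ∀ c c', W c ≤ W c' → ∀ i, v i (Sum.inr c) ≤ v i (Sum.inr c') := by
    intro c c' hcc i
    by_contra hcon
    rw [not_le] at hcon
    have h1 : ∑ j, v j (Sum.inr c') < ∑ j, v j (Sum.inr c) :=
      Finset.sum_lt_sum (fun j _ => h.2 i j c' c hcon) ⟨i, Finset.mem_univ _, hcon⟩
    rw [hW] at hcc
    exact absurd hcc (not_le.2 h1)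
  let e₀ := Fintype.equivFin C
  let g : Fin (Fintype.card C) → ℝ := fun a => -W (e₀.symm a)
  refine ⟨(Tuple.sort g).trans e₀.symm, fun i a b hab => hWle _ _ ?_ i⟩
  have h2 := Tuple.monotone_sort g hab
  simp only [Function.comp, g] at h2
  simp only [Equiv.trans_apply]
  linarith

/-- Every EFX allocation of goods of `E` with a pool which nobody envies extends to such an
allocation of `E ⊕ C` with the same pool, if `C` is a common tail. -/
theorem lift' (v : N → E ⊕ C → ℝ) (hv : ∀ i g, 0 ≤ v i g) (ht : IsTail v)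
    (A : N → Finset E) (hA : IsPartial A) (hE : IsEFX (res v) A)
    (hP : ∀ i, val (res v) i (pool A) ≤ val (res v) i (A i)) :
    ∃ A' : N → Finset (E ⊕ C), IsPartial A' ∧ IsEFX v A' ∧
      (∀ i, val v i (pool A') ≤ val v i (A' i)) ∧
      pool A' = (pool A).map Function.Embedding.inl ∧
      ∀ i, val (res v) i (A i) ≤ val v i (A' i) := by
  classical
  obtain ⟨f, hf⟩ := exists_order v ht
  let φ : E ⊕ Fin (Fintype.card C) ≃ E ⊕ C := Equiv.sumCongr (Equiv.refl E) f
  obtain ⟨B, h1, h2, h3, h4⟩ := extend (fun i g => v i (φ g)) (fun i g => hv i _)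
    (fun i e a => ht.1 i e (f a)) hf A hA hE
  have hval : ∀ i (X : Finset (E ⊕ Fin (Fintype.card C))), val v i (X.map φ.toEmbedding) =
      val (fun i g => v i (φ g)) i X := fun i X => Finset.sum_map _ _ _
  have hpool : pool (fun i => (B i).map φ.toEmbedding) = (pool B).map φ.toEmbedding := by
    ext g
    rw [mem_pool, Finset.mem_map_equiv, mem_pool]
    refine forall_congr' fun i => ?_
    rw [Finset.mem_map_equiv]
  have hval' : ∀ i (X : Finset E), val (fun i g => v i (φ g)) i (X.map Function.Embedding.inl) =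
        val (res v) i X := fun i X => Finset.sum_map _ _ _
  refine ⟨fun i => (B i).map φ.toEmbedding, ?_, ?_, ?_, ?_, ?_⟩
  · intro i j hij
    exact (Finset.disjoint_map _).2 (h1 i j hij)
  · intro i j g hg
    obtain ⟨e, he, rfl⟩ := Finset.mem_map.1 hg
    rw [← Finset.map_erase, hval, hval]
    exact h2 i j e he
  · intro i
    rw [hpool, hval, hval, h3, hval']
    exact (hP i).trans (h4 i)
  · rw [hpool, h3, Finset.map_map]
    congr 1
  · intro i
    rw [hval]
    exact h4 i

/-- The same, in terms of the number of the goods of the pool. -/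
theorem lift (v : N → E ⊕ C → ℝ) (hv : ∀ i g, 0 ≤ v i g) (ht : IsTail v)
    (A : N → Finset E) (hA : IsPartial A) (hE : IsEFX (res v) A)
    (hP : ∀ i, val (res v) i (pool A) ≤ val (res v) i (A i)) :
    ∃ A' : N → Finset (E ⊕ C), IsPartial A' ∧ IsEFX v A' ∧
      (∀ i, val v i (pool A') ≤ val v i (A' i)) ∧ (∀ c, Sum.inr c ∉ pool A') ∧
      (pool A').card = (pool A).card ∧ ∀ i, val (res v) i (A i) ≤ val v i (A' i) := by
  obtain ⟨A', h1, h2, h3, h4, h5⟩ := lift' v hv ht A hA hE hP
  refine ⟨A', h1, h2, h3, ?_, ?_, h5⟩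
  · intro c hc
    rw [h4] at hc
    simp at hc
  · rw [h4, Finset.card_map]

end Pool.Agent.Lib.MP_358b54_lc.Tail
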