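import Mathlib
import Pool.Agent.Lib.MP_358b54_lc.Ratio
import Pool.Agent.Lib.MP_358b54_lc.TailG

/-!
# The bound for agents with a bounded ratio of values or few relevant goods
-/

set_option autoImplicit false

namespace Pool.Agent.Lib.MP_358b54_lc

open Finset

/-- The bound for a maximal EFX allocation: the agents in `K` and the goods in `B` are exceptional,
the agents in `R` have ratio at most `ρ`, the others have few relevant goods. -/
theorem ratio_bound {N M : Type} [Fintype N] [DecidableEq N] [Nonempty N] [Fintype M] [DecidableEq M]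
    {v : N → M → ℝ} (hv : ∀ i g, 0 ≤ v i g) {A : N → Finset M} (hA : Maxi v A)
    (K R : Finset N) (B : Finset M) (ρ : ℝ) (hρ : 1 ≤ ρ)
    (hratio : ∀ i ∈ R, ∀ g ∈ above v i, g ∉ B → ∀ h ∉ B, v i h ≤ ρ * v i g) :
    ((pool A).card : ℝ) ≤ B.card +
      (1 + 2 * Real.log (2 * (Fintype.card N : ℝ))) * (types v K + B.card) +
      √((1 + 2 * Real.log (2 * (Fintype.card N : ℝ))) * (ρ * Fintype.card M +
        ∑ i ∈ univ \ (K ∪ R), ((above v i \ B).card : ℝ))) := by
  classical
  have hn : (1 : ℝ) ≤ Fintype.card N := by exact_mod_cast Fintype.card_pos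
  have hlogn : 0 ≤ Real.log (2 * (Fintype.card N : ℝ)) := Real.log_nonneg (by linarith)
  obtain ⟨L, hL⟩ : ∃ L : ℝ, L = 1 + 2 * Real.log (2 * (Fintype.card N : ℝ)) := ⟨_, rfl⟩
  have hL1 : 1 ≤ L := by rw [hL]; linarith
  obtain ⟨J, hJ⟩ : ∃ J : Finset N, J = univ.filter fun i => ¬ Disjoint (A i) B := ⟨_, rfl⟩
  obtain ⟨T, hT⟩ : ∃ T : ℝ, T = ∑ i ∈ univ \ (K ∪ R), ((above v i \ B).card : ℝ) := ⟨_, rfl⟩
  have hT0 : 0 ≤ T := by rw [hT]; positivity
  -- at most `|B|` agents hold exceptional goods
  have hJcard : J.card ≤ B.card := by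
    have h1 : ∀ i ∈ J, ∃ g, g ∈ A i ∧ g ∈ B := by
      intro i hi
      rw [hJ, Finset.mem_filter] at hi
      exact Finset.not_disjoint_iff.1 hi.2
    choose f hf using h1
    have h2 : J.card = (J.attach.image fun i => f i.1 i.2).card := by
      rw [Finset.card_image_of_injective, Finset.card_attach]
      rintro ⟨i, hi⟩ ⟨j, hj⟩ hij
      refine Subtype.ext ?_
      by_contra hne
      have hij' : f i hi = f j hj := hij
      exact Finset.disjoint_left.1 (hA.par i j hne) (hf i hi).1 (hij' ▸ (hf j hj).1)
    rw [h2]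
    refine Finset.card_le_card fun g hg => ?_
    rw [Finset.mem_image] at hg
    obtain ⟨⟨i, hi⟩, -, rfl⟩ := hg
    exact (hf i hi).2
  have htypes : types v (K ∪ J) ≤ types v K + B.card := by
    have h1 : types v (K ∪ J) ≤ types v K + types v J := by
      unfold types
      rw [Finset.image_union]
      exact Finset.card_union_le _ _
    have h2 : types v J ≤ J.card := by
      unfold types
      exact Finset.card_image_le
    omega
  have hmom := moment hv hA (K ∪ J) B 1 le_rfl
  rw [← hL] at hmom ⊢
  rw [← hT]
  -- the first moment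
  have hS : ∑ g ∈ pool A \ B, ((relOut v (K ∪ J) g).card.choose 1 : ℝ) ≤
      ρ * Fintype.card M + T := by
    have h1 : ∑ g ∈ pool A \ B, (relOut v (K ∪ J) g).card ≤
        ∑ i ∈ univ \ (K ∪ J), ((pool A \ B) ∩ above v i).card := by
      have h2 : ∀ g, (relOut v (K ∪ J) g).card ≤
          ((univ \ (K ∪ J)).filter fun i => g ∈ above v i).card := by
        intro g
        have h3 : relOut v (K ∪ J) g ⊆
            ((univ \ (K ∪ J)).filter fun i => g ∈ above v i).image v := by
          intro w hw
          unfold relOut at hw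
          rw [Finset.mem_filter, Finset.mem_image] at hw
          obtain ⟨⟨i, hi, rfl⟩, hlt⟩ := hw
          refine Finset.mem_image_of_mem v ?_
          rw [Finset.mem_filter]
          refine ⟨hi, ?_⟩
          unfold above
          rw [Finset.mem_filter]
          exact ⟨Finset.mem_univ _, hlt⟩
        exact (Finset.card_le_card h3).trans Finset.card_image_le
      refine (Finset.sum_le_sum fun g _ => h2 g).trans (le_of_eq ?_)
      have h6 : ∀ i, ((pool A \ B) ∩ above v i) = (pool A \ B).filter fun h => h ∈ above v i := by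
        intro i
        ext h
        simp [Finset.mem_inter, Finset.mem_filter]
      simp_rw [h6, Finset.card_filter]
      exact Finset.sum_comm
    have hsplit : univ \ (K ∪ J) ⊆ ((univ \ (K ∪ J)) ∩ R) ∪ (univ \ (K ∪ R)) := by
      intro i hi
      simp only [Finset.mem_union, Finset.mem_inter, Finset.mem_sdiff, Finset.mem_univ,
        true_and] at hi ⊢
      tauto
    have h7 : ∑ i ∈ univ \ (K ∪ J), (((pool A \ B) ∩ above v i).card : ℝ) ≤
        ρ * Fintype.card M + T := by
      have hcard : ∑ i, (A i).card ≤ Fintype.card M := by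
        rw [← Finset.card_biUnion fun i _ j _ hij => hA.par i j hij]
        exact Finset.card_le_univ _
      calc ∑ i ∈ univ \ (K ∪ J), (((pool A \ B) ∩ above v i).card : ℝ)
          ≤ ∑ i ∈ ((univ \ (K ∪ J)) ∩ R) ∪ (univ \ (K ∪ R)),
              (((pool A \ B) ∩ above v i).card : ℝ) :=
            Finset.sum_le_sum_of_subset_of_nonneg hsplit fun i _ _ => Nat.cast_nonneg _
        _ ≤ ∑ i ∈ (univ \ (K ∪ J)) ∩ R, (((pool A \ B) ∩ above v i).card : ℝ) +
            ∑ i ∈ univ \ (K ∪ R), (((pool A \ B) ∩ above v i).card : ℝ) := by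
            rw [← Finset.sum_union_inter]
            exact le_add_of_nonneg_right (Finset.sum_nonneg fun i _ => Nat.cast_nonneg _)
        _ ≤ ρ * Fintype.card M + T := by
            refine add_le_add ?_ ?_
            · calc ∑ i ∈ (univ \ (K ∪ J)) ∩ R, (((pool A \ B) ∩ above v i).card : ℝ)
                  ≤ ∑ i ∈ (univ \ (K ∪ J)) ∩ R, ρ * ((A i).card : ℝ) :=
                  Finset.sum_le_sum fun i hi => by
                    simp only [Finset.mem_inter, Finset.mem_sdiff, Finset.mem_union,
                      Finset.mem_univ, true_and, not_or] at hi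
                    refine few_relevant hv hA B ρ hρ i ?_ (hratio i hi.2)
                    by_contra hcon
                    exact hi.1.2 (by rw [hJ, Finset.mem_filter]; exact ⟨Finset.mem_univ _, hcon⟩)
                _ = ρ * ∑ i ∈ (univ \ (K ∪ J)) ∩ R, ((A i).card : ℝ) :=
                  (Finset.mul_sum _ _ _).symm
                _ ≤ ρ * ∑ i, ((A i).card : ℝ) := by
                    refine mul_le_mul_of_nonneg_left ?_ (by linarith)
                    exact Finset.sum_le_sum_of_subset_of_nonneg (Finset.subset_univ _)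
                      fun i _ _ => Nat.cast_nonneg _
                _ ≤ ρ * Fintype.card M := by
                    refine mul_le_mul_of_nonneg_left ?_ (by linarith)
                    exact_mod_cast hcard
            · rw [hT]
              refine Finset.sum_le_sum fun i _ => ?_
              have : ((pool A \ B) ∩ above v i).card ≤ (above v i \ B).card := by
                refine Finset.card_le_card fun g hg => ?_
                simp only [Finset.mem_inter, Finset.mem_sdiff] at hg ⊢
                exact ⟨hg.2, hg.1.2⟩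
              exact_mod_cast this
    refine le_trans ?_ h7
    have h8 : ∑ g ∈ pool A \ B, ((relOut v (K ∪ J) g).card.choose 1 : ℝ) =
        ((∑ g ∈ pool A \ B, (relOut v (K ∪ J) g).card : ℕ) : ℝ) := by
      simp
    rw [h8]
    exact_mod_cast h1
  have hroot : ((((1 : ℕ) : ℝ) * L) ^ 1 *
      ∑ g ∈ pool A \ B, ((relOut v (K ∪ J) g).card.choose 1 : ℝ)) ^ (1 / (((1 : ℕ) : ℝ) + 1)) ≤
      √(L * (ρ * Fintype.card M + T)) := by
    rw [Real.sqrt_eq_rpow, pow_one, Nat.cast_one, one_mul]
    have : (1 : ℝ) / (1 + 1) = 1 / 2 := by norm_num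
    rw [this]
    refine Real.rpow_le_rpow (by positivity) ?_ (by norm_num)
    exact mul_le_mul_of_nonneg_left hS (by linarith)
  have h9 : L * ((types v (K ∪ J) : ℝ) + ((1 : ℕ) : ℝ) - 1) ≤ L * ((types v K : ℝ) + B.card) := by
    refine mul_le_mul_of_nonneg_left ?_ (by linarith)
    have : (types v (K ∪ J) : ℝ) ≤ (types v K : ℝ) + B.card := by exact_mod_cast htypes
    push_cast
    linarith
  rw [Nat.cast_one] at hmom hroot h9
  linarith

end Pool.Agent.Lib.MP_358b54_lc
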